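import Pool.Agent.PDA.Jordan

/-! A transitive subgroup of the symmetric group which contains an element with a long prime cycle
contains the alternating group (helper87). -/

set_option autoImplicit false

namespace Pool.Agent.PDA

open Equiv Equiv.Perm Finset
open scoped Pointwise

/-- if `p ∈ x.cycleType` and `p` is a prime with `n < 2 p`, then a power of `x` is a `p`-cycle -/
private theorem exists_pow_cycle {n p : ℕ} (hp : p.Prime) (h1 : n < 2 * p)
    (x : Perm (Fin n)) (hc : p ∈ x.cycleType) :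
    ∃ m : ℕ, (x ^ m).IsCycle ∧ (x ^ m).support.card = p := by
  rw [mem_cycleType_iff] at hc
  obtain ⟨c, τ, rfl, hd, hcc, hcard⟩ := hc
  have hle : (c * τ).support.card ≤ n := by
    have := Finset.card_le_univ (c * τ).support
    rwa [Fintype.card_fin] at this
  rw [hd.card_support_mul] at hle
  have hnd : ¬ p ∣ orderOf τ := by
    intro hdvd
    have h2 : ∀ q ∈ τ.cycleType, ¬ p ∣ q := by
      intro q hq hpq
      have h3 : q ≤ τ.support.card := le_card_support_of_mem_cycleType hq
      have h4 : 2 ≤ q := two_le_of_mem_cycleType hq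
      have h5 := Nat.le_of_dvd (by omega) hpq
      omega
    have h6 : orderOf τ ∣ τ.cycleType.prod := by
      rw [← lcm_cycleType, Multiset.lcm_dvd]
      exact fun b hb => Multiset.dvd_prod hb
    obtain ⟨q, hq, hpq⟩ := hp.prime.exists_mem_multiset_dvd (hdvd.trans h6)
    exact h2 q hq hpq
  have hcop : Nat.Coprime (orderOf τ) p := by
    rw [Nat.coprime_comm, hp.coprime_iff_not_dvd]
    exact hnd
  have hpow : (c * τ) ^ (orderOf τ) = c ^ (orderOf τ) := by
    rw [hd.commute.mul_pow, pow_orderOf_eq_one, mul_one]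
  refine ⟨orderOf τ, ?_, ?_⟩
  · rw [hpow, hcc.pow_iff, hcc.orderOf, hcard]
    exact hcop
  · rw [hpow, hcc.support_pow_eq_iff.2, hcard]
    rw [hcc.orderOf, hcard]
    intro h
    have := Nat.Coprime.eq_one_of_dvd hcop.symm h
    exact hp.one_lt.ne' this

/-- module Block of the skeleton of helper44 -/
theorem alt_le_of_transitive {n p : ℕ} (hp : p.Prime) (h1 : n < 2 * p) (h2 : p + 3 ≤ n)
    (K : Subgroup (Perm (Fin n))) (hK : MulAction.IsPretransitive K (Fin n)) (x : Perm (Fin n))
    (hx : x ∈ K) (hc : p ∈ x.cycleType) : alternatingGroup (Fin n) ≤ K := by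
  obtain ⟨m, hg, hgp⟩ := exists_pow_cycle hp h1 x hc
  have hgK : x ^ m ∈ K := K.pow_mem hx m
  generalize x ^ m = g at hg hgp hgK
  have hord : orderOf g = p := by rw [hg.orderOf, hgp]
  obtain ⟨a, ha, -⟩ := id hg
  refine jordan ?_ hp (by rwa [Nat.card_eq_fintype_card, Fintype.card_fin]) hg hgp hgK
  refine MulAction.IsPreprimitive.of_isTrivialBlock_base a ?_
  intro B haB hB
  by_contra hnt
  rw [MulAction.IsTrivialBlock, not_or] at hnt
  obtain ⟨hns, hnu⟩ := hnt
  -- no power of `g` which generates stabilises `B`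
  have hkey : ¬ ((⟨g, hgK⟩ : K) • B = B) := by
    intro hgB
    apply hnu
    have hsub : (g.support : Set (Fin n)) ⊆ B := by
      intro y hy
      have hy' : g y ≠ y := mem_support.1 (by exact_mod_cast hy)
      obtain ⟨i, hi⟩ := hg.exists_pow_eq ha hy'
      have : (⟨g, hgK⟩ : K) ^ i • B = B := by
        have : (⟨g, hgK⟩ : K) ^ i ∈ MulAction.stabilizer K B :=
          Subgroup.pow_mem _ (MulAction.mem_stabilizer_iff.2 hgB) i
        exact MulAction.mem_stabilizer_iff.1 this
      rw [← this, ← hi]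
      exact ⟨a, haB, rfl⟩
    apply hB.eq_univ_of_card_lt
    have hcard : p ≤ Set.ncard B := by
      rw [← hgp, ← Set.ncard_coe_finset]
      exact Set.ncard_le_ncard hsub (Set.toFinite B)
    rw [Nat.card_eq_fintype_card, Fintype.card_fin]
    omega
  have hdis : Disjoint ((⟨g, hgK⟩ : K) • B) B := by
    rcases MulAction.isBlock_iff_smul_eq_or_disjoint.1 hB ⟨g, hgK⟩ with h | h
    · exact absurd h hkey
    · exact h
  obtain ⟨b, hbB, hba⟩ : ∃ b ∈ B, b ≠ a := by
    by_contra hcon
    push Not at hcon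
    exact hns fun y hy z hz => (hcon y hy).trans (hcon z hz).symm
  have hgb : g b ≠ b := by
    intro h
    refine Set.disjoint_left.1 hdis ?_ hbB
    exact ⟨b, hbB, h⟩
  obtain ⟨i, hi⟩ := hg.exists_pow_eq ha hgb
  have hiB : (⟨g, hgK⟩ : K) ^ i • B = B := by
    refine hB.smul_eq_of_mem (a := a) haB ?_
    have : (⟨g, hgK⟩ : K) ^ i • a = b := hi
    rw [this]
    exact hbB
  have hcop : Nat.Coprime i (orderOf g) := by
    rw [hord, Nat.coprime_comm, hp.coprime_iff_not_dvd]
    rintro ⟨j, rfl⟩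
    apply hba
    rw [← hi, pow_mul, ← hord, pow_orderOf_eq_one, one_pow]
    rfl
  obtain ⟨j, hj⟩ := exists_pow_eq_self_of_coprime hcop
  apply hkey
  have hmem : ((⟨g, hgK⟩ : K) ^ i) ^ j ∈ MulAction.stabilizer K B :=
    Subgroup.pow_mem _ (MulAction.mem_stabilizer_iff.2 hiB) j
  have heq : ((⟨g, hgK⟩ : K) ^ i) ^ j = ⟨g, hgK⟩ := Subtype.ext hj
  rw [heq] at hmem
  exact MulAction.mem_stabilizer_iff.1 hmem

end Pool.Agent.PDA
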