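import Pool.Agent.PDA.Defs

/-! Products of two derangements in alternating groups: fixed point free involutions of eight
points with four cycles (helper80). -/

set_option autoImplicit false

namespace Pool.Agent.PDA

open Equiv Equiv.Perm Finset

namespace FourTwo

def g0 : Perm (Fin 8) := c[0, 1] * c[2, 3] * c[4, 5] * c[6, 7]

def x0 : Perm (Fin 8) := c[0, 2, 1, 4, 6]

def y0 : Perm (Fin 8) := c[0, 2, 3] * c[1, 6, 7, 4, 5]

theorem g0_eq : g0 = x0 * y0 := by decide

theorem sign_x0 : Perm.sign x0 = 1 := by decide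

theorem sign_y0 : Perm.sign y0 = 1 := by decide

theorem cycleType_g0 : g0.cycleType = Multiset.replicate 4 2 := by decide

theorem five_x0 : 5 ∈ x0.cycleType := by decide

theorem five_y0 : 5 ∈ y0.cycleType := by decide

end FourTwo

open FourTwo in
/-- the case `k = 2` of `four` -/
theorem four_two {α : Type*} [Fintype α] [DecidableEq α] (g : Perm α)
    (hg : g.cycleType = Multiset.replicate 4 2) (hcard : Fintype.card α = 8) :
    ∃ x y : Perm α, Perm.sign x = 1 ∧ Perm.sign y = 1 ∧ 5 ∈ x.cycleType ∧
      5 ∈ y.cycleType ∧ g = x * y := by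
  classical
  have e : Fin 8 ≃ α := (Fintype.equivFinOfCardEq hcard).symm
  let f : Fin 8 ≃ Subtype (fun _ : α => True) :=
    e.trans (Equiv.subtypeUnivEquiv (fun _ => trivial)).symm
  have hc : IsConj (g0.extendDomain f) g := by
    rw [isConj_iff_cycleType_eq, cycleType_extendDomain, cycleType_g0, hg]
  obtain ⟨c, hc⟩ := isConj_iff.1 hc
  refine ⟨c * x0.extendDomain f * c⁻¹, c * y0.extendDomain f * c⁻¹, ?_, ?_, ?_, ?_, ?_⟩
  · rw [Perm.sign_mul, Perm.sign_mul, Perm.sign_inv, mul_right_comm, Int.units_mul_self, one_mul,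
      Perm.sign_extendDomain, sign_x0]
  · rw [Perm.sign_mul, Perm.sign_mul, Perm.sign_inv, mul_right_comm, Int.units_mul_self, one_mul,
      Perm.sign_extendDomain, sign_y0]
  · rw [cycleType_conj, cycleType_extendDomain]
    exact five_x0
  · rw [cycleType_conj, cycleType_extendDomain]
    exact five_y0
  · rw [← hc, g0_eq, ← Equiv.Perm.extendDomain_mul]
    group

end Pool.Agent.PDA
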