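import Pool.Agent.PDA.Full
import Pool.Agent.PDA.FourTwo

/-! Products of two derangements in alternating groups: permutations with exactly four cycles, all
of the same even length (helper99; the case of transpositions is FourTwo, helper80). -/

set_option autoImplicit false

namespace Pool.Agent.PDA

open Equiv Equiv.Perm Finset

namespace FourK

/-- a cycle of length at least four has a point with four different images -/
theorem pts {α : Type*} [Fintype α] [DecidableEq α] {k : ℕ} (hk4 : 4 ≤ k) {c : Perm α} (hc : c.IsCycle) (hs : c.support.card = k) :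
    ∃ q, q ∈ c.support ∧ c q ≠ q ∧ c (c q) ≠ q ∧ c (c (c q)) ≠ q := by
  obtain ⟨q, hq⟩ := hc.nonempty_support
  have h1 : c.IsCycleOn (c.support : Set α) := by
    have h := hc.isCycleOn
    have he : ({x | c x ≠ x} : Set α) = (c.support : Set α) := by
      ext x
      simp
    rwa [he] at h
  have key : ∀ n, 0 < n → n < 4 → (c ^ n) q ≠ q := by
    intro n hn hn4 h
    rw [h1.pow_apply_eq hq, hs] at h
    have := Nat.le_of_dvd hn h
    omega
  exact ⟨q, hq, key 1 (by norm_num) (by norm_num), key 2 (by norm_num) (by norm_num),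
    key 3 (by norm_num) (by norm_num)⟩

/-- if `h` agrees with `g` on `M` except for steps into `T`, then the `h`-orbits meet `T` as soon as
the `g`-orbits do -/
theorem reach {α : Type*} {g h : Perm α} {M T : Finset α} (hm : ∀ x ∈ M, h x ∈ M)
    (hs : ∀ x ∈ M, h x = g x ∨ h x ∈ T) (i : ℕ) :
    ∀ x ∈ M, (g ^ i) x ∈ T → ∃ j : ℕ, (h ^ j) x ∈ T := by
  induction i with
  | zero => exact fun x _ hx => ⟨0, by simpa using hx⟩
  | succ i ih =>
    intro x hx hi
    rcases hs x hx with h1 | h1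
    · have h2 : (g ^ i) (h x) ∈ T := by
        rw [h1]
        rwa [pow_succ, Perm.mul_apply] at hi
      obtain ⟨j, hj⟩ := ih (h x) (hm x hx) h2
      exact ⟨j + 1, by rwa [pow_succ, Perm.mul_apply]⟩
    · exact ⟨1, by rwa [pow_one]⟩

end FourK

open FourK in
/-- the case `4 ≤ k` of `four` -/
theorem four_ge {α : Type*} [Fintype α] [DecidableEq α] (k : ℕ) (hk : Even k) (hk4 : 4 ≤ k)
    (g : Perm α) (hg : g.cycleType = Multiset.replicate 4 k) (hcard : Fintype.card α = 4 * k) :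
    ∃ x y : Perm α, Perm.sign x = 1 ∧ Perm.sign y = 1 ∧ 2 * k + 1 ∈ x.cycleType ∧
      2 * k + 1 ∈ y.cycleType ∧ g = x * y := by
  have hF : g.cycleFactorsFinset.card = 4 := by
    have := congrArg Multiset.card hg
    rw [cycleType_def, Multiset.card_map, Multiset.card_replicate] at this
    exact this
  have hsup : ∀ c ∈ g.cycleFactorsFinset, c.support.card = k := by
    intro c hc
    have h1 : c.support.card ∈ g.cycleType := by
      rw [cycleType_def]
      exact Multiset.mem_map_of_mem (Finset.card ∘ support) hc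
    rw [hg] at h1
    exact Multiset.eq_of_mem_replicate h1
  obtain ⟨c4, t, h4t, ht, ht3⟩ := Finset.card_eq_succ.1 hF
  obtain ⟨c1, c2, c3, h12, h13, h23, rfl⟩ := Finset.card_eq_three.1 ht3
  have hm : ∀ c, c ∈ g.cycleFactorsFinset ↔ c = c4 ∨ c = c1 ∨ c = c2 ∨ c = c3 := by
    intro c
    rw [← ht]
    simp
  have m4 : c4 ∈ g.cycleFactorsFinset := (hm c4).2 (Or.inl rfl)
  have m1 : c1 ∈ g.cycleFactorsFinset := (hm c1).2 (Or.inr (Or.inl rfl))
  have m2 : c2 ∈ g.cycleFactorsFinset := (hm c2).2 (Or.inr (Or.inr (Or.inl rfl)))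
  have m3 : c3 ∈ g.cycleFactorsFinset := (hm c3).2 (Or.inr (Or.inr (Or.inr rfl)))
  have h41 : c4 ≠ c1 := fun h => h4t (by simp [h])
  have h42 : c4 ≠ c2 := fun h => h4t (by simp [h])
  have h43 : c4 ≠ c3 := fun h => h4t (by simp [h])
  have hcyc : ∀ c ∈ g.cycleFactorsFinset, c.IsCycle := fun c hc =>
    (mem_cycleFactorsFinset_iff.1 hc).1
  have happ : ∀ c ∈ g.cycleFactorsFinset, ∀ x ∈ c.support, c x = g x := fun c hc =>
    (mem_cycleFactorsFinset_iff.1 hc).2
  have hdis : ∀ c ∈ g.cycleFactorsFinset, ∀ d ∈ g.cycleFactorsFinset, c ≠ d →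
      ∀ x ∈ c.support, x ∉ d.support := by
    intro c hc d hd hcd x hx hx'
    rcases (cycleFactorsFinset_pairwise_disjoint g hc hd hcd) x with h | h
    · exact (mem_support.1 hx) h
    · exact (mem_support.1 hx') h
  have hall : ∀ x, x ∈ g.support := by
    have h1 : g.support.card = Fintype.card α := by
      rw [← sum_cycleType, hg, Multiset.sum_replicate, hcard, smul_eq_mul]
    have h2 := Finset.eq_univ_of_card _ h1
    intro x
    rw [h2]
    exact mem_univ x
  -- the four points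
  obtain ⟨q0, hq0, hq1, hq2, hq3⟩ := pts hk4 (hcyc c1 m1) (hsup c1 m1)
  obtain ⟨r2, hr2⟩ := (hcyc c2 m2).nonempty_support
  obtain ⟨r3, hr3⟩ := (hcyc c3 m3).nonempty_support
  obtain ⟨q1, e1⟩ : ∃ q1, c1 q0 = q1 := ⟨_, rfl⟩
  obtain ⟨q2, e2⟩ : ∃ q2, c1 q1 = q2 := ⟨_, rfl⟩
  obtain ⟨q3, e3⟩ : ∃ q3, c1 q2 = q3 := ⟨_, rfl⟩
  rw [e1] at hq1 hq2 hq3
  rw [e2] at hq2 hq3
  rw [e3] at hq3
  have s1 : q1 ∈ c1.support := by
    rw [← e1]
    exact apply_mem_support.2 hq0
  have s2 : q2 ∈ c1.support := by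
    rw [← e2]
    exact apply_mem_support.2 s1
  have s3 : q3 ∈ c1.support := by
    rw [← e3]
    exact apply_mem_support.2 s2
  have n12 : q1 ≠ q2 := fun h => hq1 (c1.injective (by rw [e1, e2, h]))
  have n13 : q1 ≠ q3 := fun h => hq2 (c1.injective (by rw [e1, e3, h]))
  have n23 : q2 ≠ q3 := fun h => n12 (c1.injective (by rw [e2, e3, h]))
  -- removing the fourth cycle
  obtain ⟨gM, hgM⟩ : ∃ gM, g * c4⁻¹ = gM := ⟨_, rfl⟩
  have hgM1 : ∀ x, x ∉ c4.support → gM x = g x := by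
    intro x hx
    rw [← hgM, Perm.mul_apply, Perm.inv_eq_iff_eq.2 (notMem_support.1 hx).symm]
  have hgM2 : ∀ x, x ∈ c4.support → gM x = x := by
    intro x hx
    have h0 : c4 (c4⁻¹ x) = x := c4.apply_symm_apply x
    have h1 : c4⁻¹ x ∈ c4.support := by
      rw [← apply_mem_support, h0]
      exact hx
    rw [← hgM, Perm.mul_apply, ← happ c4 m4 _ h1, h0]
  have o1 : ∀ x ∈ c1.support, x ∉ c4.support := hdis c1 m1 c4 m4 h41.symm
  have g0 : gM q0 = q1 := by rw [hgM1 q0 (o1 q0 hq0), ← happ c1 m1 q0 hq0, e1]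
  have g1 : gM q1 = q2 := by rw [hgM1 q1 (o1 q1 s1), ← happ c1 m1 q1 s1, e2]
  have g2 : gM q2 = q3 := by rw [hgM1 q2 (o1 q2 s2), ← happ c1 m1 q2 s2, e3]
  obtain ⟨M, hM⟩ : ∃ M, (c4.supportᶜ \ {q0, q2} : Finset α) = M := ⟨_, rfl⟩
  have hMmem : ∀ x, x ∈ M ↔ x ∉ c4.support ∧ x ≠ q0 ∧ x ≠ q2 := by
    intro x
    rw [← hM, mem_sdiff, mem_compl, mem_insert, mem_singleton, not_or]
  have hMcard : M.card = 3 * k - 2 := by
    rw [← hM, card_sdiff_of_subset, card_compl, hcard, hsup c4 m4, card_pair hq2.symm]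
    · omega
    · intro x hx
      rw [mem_insert, mem_singleton] at hx
      rw [mem_compl]
      rcases hx with rfl | rfl
      · exact o1 _ hq0
      · exact o1 _ s2
  obtain ⟨h2, hh2⟩ : ∃ h2, swap q1 q2 * (swap q3 q0 * (gM * swap q0 q2)) = h2 := ⟨_, rfl⟩
  have happ2 : ∀ x, h2 x = swap q1 q2 (swap q3 q0 (gM (swap q0 q2 x))) := by
    intro x
    rw [← hh2]
    rfl
  have hfix : ∀ x, x ∉ M → h2 x = x := by
    intro x hx
    rw [hMmem] at hx
    rw [happ2]
    by_cases hx0 : x = q0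
    · subst hx0
      rw [swap_apply_left, g2, swap_apply_left, swap_apply_of_ne_of_ne hq1.symm hq2.symm]
    by_cases hx2 : x = q2
    · subst hx2
      rw [swap_apply_right, g0, swap_apply_of_ne_of_ne n13 hq1, swap_apply_left]
    have hx4 : x ∈ c4.support := by
      by_contra h
      exact hx ⟨h, hx0, hx2⟩
    have hne : ∀ q ∈ c1.support, x ≠ q := fun q hq h => o1 q hq (h ▸ hx4)
    rw [swap_apply_of_ne_of_ne hx0 hx2, hgM2 x hx4, swap_apply_of_ne_of_ne (hne _ s3) hx0,
      swap_apply_of_ne_of_ne (hne _ s1) hx2]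
  have hmem : ∀ x ∈ M, h2 x ∈ M := by
    intro x hx
    by_contra h
    have h1 := h2.injective (hfix _ h)
    rw [h1] at h
    exact h hx
  obtain ⟨T, hT⟩ : ∃ T, ({q1, q3, r2, r3} : Finset α) = T := ⟨_, rfl⟩
  have hTcard : T.card ≤ 4 := by
    rw [← hT]
    exact card_le_four
  have t1 : q1 ∈ T := by simp [← hT]
  have t3 : q3 ∈ T := by simp [← hT]
  have tr2 : r2 ∈ T := by simp [← hT]
  have tr3 : r3 ∈ T := by simp [← hT]
  have hTM : T ⊆ M := by
    intro x hx
    rw [← hT, mem_insert, mem_insert, mem_insert, mem_singleton] at hx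
    rw [hMmem]
    have hn2 := hdis c2 m2 c1 m1 h12.symm r2 hr2
    have hn3 := hdis c3 m3 c1 m1 h13.symm r3 hr3
    rcases hx with rfl | rfl | rfl | rfl
    · exact ⟨o1 _ s1, hq1, n12⟩
    · exact ⟨o1 _ s3, hq3, n23.symm⟩
    · exact ⟨hdis c2 m2 c4 m4 h42.symm _ hr2, fun h => hn2 (h ▸ hq0), fun h => hn2 (h ▸ s2)⟩
    · exact ⟨hdis c3 m3 c4 m4 h43.symm _ hr3, fun h => hn3 (h ▸ hq0), fun h => hn3 (h ▸ s2)⟩
  have hstep : ∀ x ∈ M, h2 x = g x ∨ h2 x ∈ T := by
    intro x hx
    obtain ⟨hx4, hx0, hx2⟩ := (hMmem x).1 hx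
    rw [happ2, swap_apply_of_ne_of_ne hx0 hx2]
    by_cases a0 : gM x = q0
    · right
      rw [a0, swap_apply_right, swap_apply_of_ne_of_ne n13.symm n23.symm]
      exact t3
    by_cases a3 : gM x = q3
    · exact absurd (gM.injective (a3.trans g2.symm)) hx2
    by_cases a1 : gM x = q1
    · exact absurd (gM.injective (a1.trans g0.symm)) hx0
    by_cases a2 : gM x = q2
    · right
      rw [a2, swap_apply_of_ne_of_ne n23 hq2, swap_apply_right]
      exact t1
    left
    rw [swap_apply_of_ne_of_ne a3 a0, swap_apply_of_ne_of_ne a1 a2, hgM1 x hx4]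
  have hreach : ∀ x ∈ M, ∃ i : ℕ, (h2 ^ i) x ∈ T := by
    intro x hx
    have hx4 := ((hMmem x).1 hx).1
    have hF : g.cycleOf x ∈ g.cycleFactorsFinset := cycleOf_mem_cycleFactorsFinset_iff.2 (hall x)
    have hfin : ∀ y ∈ (g.cycleOf x).support, y ∈ T → ∃ i : ℕ, (h2 ^ i) x ∈ T := by
      intro y hy hyT
      obtain ⟨i, -, hi⟩ := (mem_support_cycleOf_iff.1 hy).1.exists_pow_eq'
      exact reach hmem hstep i x hx (by rw [hi]; exact hyT)
    rcases (hm _).1 hF with h | h | h | h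
    · exfalso
      apply hx4
      rw [← h, mem_support_cycleOf_iff]
      exact ⟨SameCycle.refl _ _, hall x⟩
    · exact hfin q1 (by rw [h]; exact s1) t1
    · exact hfin r2 (by rw [h]; exact hr2) tr2
    · exact hfin r3 (by rw [h]; exact hr3) tr3
  -- signs
  have sg : sign g = 1 := by
    rw [sign_of_cycleType, hg, Multiset.sum_replicate, Multiset.card_replicate, smul_eq_mul]
    exact Even.neg_one_pow (by
      obtain ⟨j, rfl⟩ := hk
      exact ⟨2 * (j + j) + 2, by ring⟩)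
  have sc4 : sign c4 = -1 := by
    rw [(hcyc c4 m4).sign, hsup c4 m4, hk.neg_one_pow]
  have sgM : sign gM = -1 := by
    rw [← hgM, Perm.sign_mul, sign_inv, sg, sc4, one_mul]
  have sh2 : sign h2 = (-1) ^ ((2 * k - 1) + (2 * k + 1)) := by
    rw [← hh2, Perm.sign_mul, Perm.sign_mul, Perm.sign_mul, sign_swap n12, sign_swap hq3, sign_swap hq2.symm, sgM]
    rw [Even.neg_one_pow ⟨2 * k, by omega⟩]
    decide
  obtain ⟨A, B, u, v, hTA, hAM, hAc, -, hBM, hBc, hu, hv, huv⟩ :=
    claim3 (M := M) (T := T) (g := h2) hfix hTM ⟨q1, t1⟩ hreach (a := 2 * k - 1) (b := 2 * k + 1)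
      (by omega) (by omega) (by omega) sh2
  have hA2 : q2 ∉ A := fun h => ((hMmem q2).1 (hAM h)).2.2 rfl
  have hA0 : q0 ∉ insert q2 A := by
    rw [mem_insert, not_or]
    exact ⟨hq2.symm, fun h => ((hMmem q0).1 (hAM h)).2.1 rfl⟩
  have hX1 := hu.insert_left (hTA t1) hA2
  have hX2 := hX1.insert_left (mem_insert_of_mem (hTA t3)) hA0
  have hXc : (insert q0 (insert q2 A)).card = 2 * k + 1 := by
    rw [card_insert_of_notMem hA0, card_insert_of_notMem hA2, hAc]
    omega
  have hXcyc := hX2.isCycle (by rw [hXc]; omega)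
  have hvcyc := hv.isCycle (by rw [hBc]; omega)
  have hdvw : Perm.Disjoint v (swap q0 q2 * c4) := by
    intro x
    by_cases hxB : x ∈ B
    · right
      obtain ⟨hx4, hx0, hx2⟩ := (hMmem x).1 (hBM hxB)
      rw [Perm.mul_apply, notMem_support.1 hx4, swap_apply_of_ne_of_ne hx0 hx2]
    · left
      exact hv.2 x hxB
  refine ⟨swap q3 q0 * (swap q1 q2 * u), v * (swap q0 q2 * c4), ?_, ?_, ?_, ?_, ?_⟩
  · rw [hX2.sign ⟨q0, mem_insert_self _ _⟩, hXc]
    exact Even.neg_one_pow ⟨k + 1, by ring⟩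
  · rw [Perm.sign_mul, Perm.sign_mul, hv.sign (by rw [← card_pos, hBc]; omega), hBc, sc4,
      sign_swap hq2.symm, Even.neg_one_pow ⟨k + 1, by ring⟩]
    decide
  · rw [hXcyc.1.cycleType, hXcyc.2, hXc]
    exact Multiset.mem_singleton_self _
  · rw [hdvw.cycleType_mul, hvcyc.1.cycleType, hvcyc.2, hBc]
    exact Multiset.mem_add.2 (Or.inl (Multiset.mem_singleton_self _))
  · have e : gM * swap q0 q2 = swap q3 q0 * (swap q1 q2 * h2) := by
      rw [← hh2, ← mul_assoc (swap q1 q2) (swap q1 q2), swap_mul_self, one_mul,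
        ← mul_assoc (swap q3 q0) (swap q3 q0), swap_mul_self, one_mul]
    have e2 : gM = swap q3 q0 * (swap q1 q2 * h2) * swap q0 q2 := by
      rw [← e, mul_assoc, swap_mul_self, mul_one]
    have e3 : g = gM * c4 := by
      rw [← hgM, inv_mul_cancel_right]
    rw [e3, e2, huv]
    simp only [mul_assoc]

/-- permutations with four cycles of the same even length -/
theorem four {α : Type*} [Fintype α] [DecidableEq α] (k : ℕ) (hk : Even k) (hk2 : 2 ≤ k)
    (g : Perm α) (hg : g.cycleType = Multiset.replicate 4 k) (hcard : Fintype.card α = 4 * k) :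
    ∃ x y : Perm α, Perm.sign x = 1 ∧ Perm.sign y = 1 ∧ 2 * k + 1 ∈ x.cycleType ∧
      2 * k + 1 ∈ y.cycleType ∧ g = x * y := by
  by_cases hk4 : 4 ≤ k
  · exact four_ge k hk hk4 g hg hcard
  · obtain rfl : k = 2 := by
      obtain ⟨j, rfl⟩ := hk
      omega
    exact four_two g hg hcard

end Pool.Agent.PDA
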