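import Mathlib

/-!
# Selection of cycles (module `Select` of helper44's plan for `A_n`)

Among cycles of lengths `l i` (`i ∈ R`) of total length in `[p, 2p)`, with an even number of
cycles of even length, one can select some with total length at least `p`, with
`(total length) + (number)` even and at most `2p`; the only exception is four cycles of even
length `(p - 1) / 2`.
-/

set_option autoImplicit false

namespace Pool.Agent.PDA

open Finset

private theorem pair_sum {ι : Type*} [DecidableEq ι] (l : ι → ℕ) (K : ℕ) :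
    ∀ (b : ℕ) (E : Finset ι), E.card = 2 * b →
      (∀ i ∈ E, ∀ j ∈ E, i ≠ j → K ≤ l i + l j) → K * b ≤ ∑ i ∈ E, l i := by
  intro b
  induction b with
  | zero => intro E _ _; simp
  | succ b ih =>
    intro E hE h
    obtain ⟨i, hi, j, hj, hij⟩ := Finset.one_lt_card.1 (show 1 < E.card by omega)
    have hj' : j ∈ E.erase i := Finset.mem_erase.2 ⟨fun h => hij h.symm, hj⟩
    have hc : ((E.erase i).erase j).card = 2 * b := by
      rw [Finset.card_erase_of_mem hj', Finset.card_erase_of_mem hi]; omega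
    have h1 := ih ((E.erase i).erase j) hc (by
      intro x hx y hy hxy
      exact h x (Finset.mem_of_mem_erase (Finset.mem_of_mem_erase hx)) y
        (Finset.mem_of_mem_erase (Finset.mem_of_mem_erase hy)) hxy)
    have h2 : ∑ x ∈ (E.erase i).erase j, l x + l j = ∑ x ∈ E.erase i, l x :=
      Finset.sum_erase_add _ _ hj'
    have h3 : ∑ x ∈ E.erase i, l x + l i = ∑ x ∈ E, l x := Finset.sum_erase_add _ _ hi
    have h4 := h i hi j hj hij
    have h5 : K * (b + 1) = K * b + K := by ring
    omega

/-- module Pool.Agent.PDA.Select -/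
theorem select {ι : Type*} [DecidableEq ι] (R : Finset ι) (l : ι → ℕ) (hl : ∀ i ∈ R, 1 ≤ l i)
    (p : ℕ) (hp : Odd p) (hp3 : 3 ≤ p) (h1 : p ≤ ∑ i ∈ R, l i) (h2 : ∑ i ∈ R, l i < 2 * p)
    (he : Even (∑ i ∈ R, l i + R.card)) :
    (∃ S ⊆ R, p ≤ ∑ i ∈ S, l i ∧ ∑ i ∈ S, l i + S.card ≤ 2 * p ∧
      Even (∑ i ∈ S, l i + S.card)) ∨
    (R.card = 4 ∧ ∀ i ∈ R, 2 * l i + 1 = p ∧ Even (l i)) := by
  classical
  -- a selection of minimal weight
  obtain ⟨S, hS, hmin⟩ := Finset.exists_min_image
    (R.powerset.filter fun S => p ≤ ∑ i ∈ S, l i ∧ Even (∑ i ∈ S, l i + S.card))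
    (fun S => ∑ i ∈ S, l i + S.card)
    ⟨R, Finset.mem_filter.2 ⟨Finset.mem_powerset.2 (Finset.Subset.refl R), h1, he⟩⟩
  rw [Finset.mem_filter, Finset.mem_powerset] at hS
  obtain ⟨hSR, hpS, hevS⟩ := hS
  by_cases hw : ∑ i ∈ S, l i + S.card ≤ 2 * p
  · exact Or.inl ⟨S, hSR, hpS, hw, hevS⟩
  have hmin' : ∀ T ⊆ R, p ≤ ∑ i ∈ T, l i → Even (∑ i ∈ T, l i + T.card) →
      ∑ i ∈ S, l i + S.card ≤ ∑ i ∈ T, l i + T.card := by
    intro T hT hp' hev
    exact hmin T (Finset.mem_filter.2 ⟨Finset.mem_powerset.2 hT, hp', hev⟩)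
  have hSm : ∑ i ∈ S, l i ≤ ∑ i ∈ R, l i := Finset.sum_le_sum_of_subset hSR
  -- odd elements
  have hodd : ∀ i ∈ S, Odd (l i) → ∑ i ∈ S, l i < p + l i := by
    intro i hi ho
    by_contra hcon
    have h3 : ∑ x ∈ S.erase i, l x + l i = ∑ x ∈ S, l x := Finset.sum_erase_add _ _ hi
    have h4 : (S.erase i).card + 1 = S.card := Finset.card_erase_add_one hi
    have h5 := hmin' (S.erase i) ((Finset.erase_subset _ _).trans hSR) (by omega) (by
      rcases ho with ⟨k, hk⟩
      rcases hevS with ⟨t, ht⟩
      exact ⟨t - (k + 1), by omega⟩)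
    omega
  -- pairs of even elements
  have heven : ∀ i ∈ S, ∀ j ∈ S, i ≠ j → Even (l i) → Even (l j) →
      ∑ i ∈ S, l i < p + (l i + l j) := by
    intro i hi j hj hij hei hej
    by_contra hcon
    have hj' : j ∈ S.erase i := Finset.mem_erase.2 ⟨fun h => hij h.symm, hj⟩
    have h3 : ∑ x ∈ S.erase i, l x + l i = ∑ x ∈ S, l x := Finset.sum_erase_add _ _ hi
    have h4 : (S.erase i).card + 1 = S.card := Finset.card_erase_add_one hi
    have h3' : ∑ x ∈ (S.erase i).erase j, l x + l j = ∑ x ∈ S.erase i, l x :=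
      Finset.sum_erase_add _ _ hj'
    have h4' : ((S.erase i).erase j).card + 1 = (S.erase i).card := Finset.card_erase_add_one hj'
    have h5 := hmin' ((S.erase i).erase j)
      (((Finset.erase_subset _ _).trans (Finset.erase_subset _ _)).trans hSR) (by omega) (by
      rcases hei with ⟨k, hk⟩
      rcases hej with ⟨k', hk'⟩
      rcases hevS with ⟨t, ht⟩
      exact ⟨t - (k + k' + 1), by omega⟩)
    omega
  set m := ∑ i ∈ S, l i with hm
  obtain ⟨r, hr⟩ : ∃ r, m = p + r := ⟨m - p, by omega⟩
  set O := S.filter fun i => Odd (l i) with hO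
  set E := S.filter fun i => ¬ Odd (l i) with hE
  have hcard : O.card + E.card = S.card := Finset.card_filter_add_card_filter_not _
  have hsum : ∑ i ∈ O, l i + ∑ i ∈ E, l i = m := Finset.sum_filter_add_sum_filter_not _ _ _
  have hEe : Even E.card := by
    have h3 : Even (∑ i ∈ S, (l i + 1)) := by
      rw [Finset.sum_add_distrib, Finset.sum_const, smul_eq_mul, mul_one]; exact hevS
    rw [Finset.even_sum_iff_even_card_odd] at h3
    have h4 : (S.filter fun i => Odd (l i + 1)) = E := by
      apply Finset.filter_congr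
      intro i _
      rw [Nat.odd_add_one]
    rwa [h4] at h3
  obtain ⟨b, hb⟩ := hEe
  have hb2 : E.card = 2 * b := by omega
  have hOs : (r + 1) * O.card ≤ ∑ i ∈ O, l i := by
    have := Finset.card_nsmul_le_sum O l (r + 1) (by
      intro i hi
      rw [hO, Finset.mem_filter] at hi
      have := hodd i hi.1 hi.2
      omega)
    rw [smul_eq_mul, mul_comm] at this
    exact this
  have hEs : (r + 1) * b ≤ ∑ i ∈ E, l i := by
    refine pair_sum l (r + 1) b E hb2 ?_
    intro i hi j hj hij
    rw [hE, Finset.mem_filter, Nat.not_odd_iff_even] at hi hj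
    have := heven i hi.1 j hj.1 hij hi.2 hj.2
    omega
  have hEs2 : 2 * E.card ≤ ∑ i ∈ E, l i := by
    have := Finset.card_nsmul_le_sum E l 2 (by
      intro i hi
      rw [hE, Finset.mem_filter, Nat.not_odd_iff_even] at hi
      obtain ⟨k, hk⟩ := hi.2
      have := hl i (hSR hi.1)
      omega)
    rw [smul_eq_mul, mul_comm] at this
    exact this
  have hwe : 2 * p + 2 ≤ m + S.card := by
    rcases hevS with ⟨t, ht⟩
    omega
  have hcS : S.card ≤ m := by
    have := Finset.card_nsmul_le_sum S l 1 (fun i hi => hl i (hSR hi))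
    rw [smul_eq_mul, mul_one] at this
    exact this
  -- r is positive
  have hr1 : 1 ≤ r := by omega
  have hrp : r + 1 ≤ p := by omega
  have hH : (r + 1) * O.card + (r + 1) * b ≤ p + r := by omega
  have hH2 : p + 2 ≤ O.card + 2 * b + r := by omega
  have hH3 : r * O.card + r * b + 2 ≤ b + 2 * r := by
    have e1 : (r + 1) * O.card = r * O.card + O.card := by ring
    have e2 : (r + 1) * b = r * b + b := by ring
    omega
  have hrb : b ≤ r * b := Nat.le_mul_of_pos_left b hr1
  have hO1 : O.card ≤ 1 := by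
    by_contra hcon
    have : r * 2 ≤ r * O.card := Nat.mul_le_mul_left r (by omega)
    omega
  have hO0 : O.card = 0 := by
    by_contra hcon
    have h6 : O.card = 1 := by omega
    rw [h6] at hH3 hH2
    have hb0 : b = 0 := by
      by_contra hb0
      obtain ⟨r', rfl⟩ : ∃ r', r = r' + 1 := ⟨r - 1, by omega⟩
      have : r' * 1 ≤ r' * b := Nat.mul_le_mul_left r' (by omega)
      have e3 : (r' + 1) * b = r' * b + b := by ring
      omega
    omega
  have hOe : O = ∅ := Finset.card_eq_zero.1 hO0
  have hOs0 : ∑ i ∈ O, l i = 0 := by rw [hOe]; rfl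
  have hallE : ∀ i ∈ S, Even (l i) := by
    intro i hi
    by_contra hne
    rw [Nat.not_even_iff_odd] at hne
    have : i ∈ O := Finset.mem_filter.2 ⟨hi, hne⟩
    rw [hOe] at this
    simp at this
  have hme : Even m := by
    rw [hm]
    exact Finset.even_sum _ hallE
  -- r = 1 is impossible
  have hr3 : r ≠ 1 := by
    intro h
    omega
  have hb3 : b ≤ 2 := by
    by_contra hcon
    obtain ⟨r', rfl⟩ : ∃ r', r = r' + 1 := ⟨r - 1, by omega⟩
    have : r' * 3 ≤ r' * b := Nat.mul_le_mul_left r' (by omega)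
    have e3 : (r' + 1) * b = r' * b + b := by ring
    have e4 : (r' + 1) * O.card = 0 := by rw [hO0, mul_zero]
    omega
  have hb4 : b = 2 := by
    omega
  have hrr : r + 2 = p := by
    rcases hme with ⟨t, ht⟩
    rcases hp with ⟨q, hq⟩
    omega
  have hS4 : S.card = 4 := by omega
  have hm2 : m + 2 = 2 * p := by omega
  -- all lengths are (p - 1) / 2
  have hpair : ∀ i ∈ S, ∀ j ∈ S, i ≠ j → l i + l j + 1 = p := by
    intro i hi j hj hij
    have h7 := heven i hi j hj hij (hallE i hi) (hallE j hj)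
    have hj' : j ∈ S.erase i := Finset.mem_erase.2 ⟨fun h => hij h.symm, hj⟩
    have h3 : ∑ x ∈ S.erase i, l x + l i = ∑ x ∈ S, l x := Finset.sum_erase_add _ _ hi
    have h4 : (S.erase i).card + 1 = S.card := Finset.card_erase_add_one hi
    have h3' : ∑ x ∈ (S.erase i).erase j, l x + l j = ∑ x ∈ S.erase i, l x :=
      Finset.sum_erase_add _ _ hj'
    have h4' : ((S.erase i).erase j).card + 1 = (S.erase i).card := Finset.card_erase_add_one hj'
    have h8 := pair_sum l (r + 1) 1 ((S.erase i).erase j) (by omega) (by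
      intro x hx y hy hxy
      have hx' := Finset.mem_of_mem_erase (Finset.mem_of_mem_erase hx)
      have hy' := Finset.mem_of_mem_erase (Finset.mem_of_mem_erase hy)
      have := heven x hx' y hy' hxy (hallE x hx') (hallE y hy')
      omega)
    omega
  have hlen : ∀ i ∈ S, 2 * l i + 1 = p := by
    intro i hi
    have h4 : (S.erase i).card + 1 = S.card := Finset.card_erase_add_one hi
    obtain ⟨j, hj, k, hk, hjk⟩ := Finset.one_lt_card.1 (show 1 < (S.erase i).card by omega)
    rw [Finset.mem_erase] at hj hk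
    have a1 := hpair i hi j hj.2 (fun h => hj.1 h.symm)
    have a2 := hpair i hi k hk.2 (fun h => hk.1 h.symm)
    have a3 := hpair j hj.2 k hk.2 hjk
    omega
  by_cases hRS : R = S
  · right
    rw [hRS]
    exact ⟨hS4, fun i hi => ⟨hlen i hi, hallE i hi⟩⟩
  · left
    obtain ⟨e, he1, he2⟩ : ∃ e ∈ R, e ∉ S := by
      by_contra hcon
      push Not at hcon
      exact hRS (Finset.Subset.antisymm hcon hSR)
    have hle : l e = 1 := by
      have h9 : ∑ i ∈ insert e S, l i ≤ ∑ i ∈ R, l i :=
        Finset.sum_le_sum_of_subset (Finset.insert_subset he1 hSR)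
      rw [Finset.sum_insert he2] at h9
      have := hl e he1
      omega
    obtain ⟨i, hi, j, hj, hij⟩ := Finset.one_lt_card.1 (show 1 < S.card by omega)
    have hei : e ≠ i := fun h => he2 (h ▸ hi)
    have hej : e ≠ j := fun h => he2 (h ▸ hj)
    have hsum3 : ∑ x ∈ ({e, i, j} : Finset ι), l x = l e + (l i + l j) := by
      rw [Finset.sum_insert (by simp [hei, hej]), Finset.sum_insert (by simp [hij]),
        Finset.sum_singleton]
    have hcard3 : ({e, i, j} : Finset ι).card = 3 := by
      rw [Finset.card_insert_of_notMem (by simp [hei, hej]),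
        Finset.card_insert_of_notMem (by simp [hij]), Finset.card_singleton]
    have hp1 := hpair i hi j hj hij
    refine ⟨{e, i, j}, ?_, ?_, ?_, ?_⟩
    · intro x hx
      simp only [Finset.mem_insert, Finset.mem_singleton] at hx
      rcases hx with rfl | rfl | rfl
      · exact he1
      · exact hSR hi
      · exact hSR hj
    · rw [hsum3]; omega
    · rw [hsum3, hcard3]; omega
    · rw [hsum3, hcard3]
      rcases hp with ⟨q, hq⟩
      exact ⟨q + 2, by omega⟩

end Pool.Agent.PDA
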