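import Pool.Agent.PDA.Full

/-! The sign of a permutation from a system of representatives of its cycles (helper30). -/

set_option autoImplicit false

namespace Pool.Agent.PDA

open Equiv Equiv.Perm Finset

variable {α : Type*} [DecidableEq α] [Fintype α]

omit [DecidableEq α] [Fintype α] in
/-- orbits of the permutation with the point `e` removed are contained in the old orbits -/
private theorem orb_step {g g1 : Perm α} {e : α} (he : g1 e = e)
    (h1 : ∀ x, x ≠ e → g x ≠ e → g1 x = g x) (h2 : ∀ x, x ≠ e → g x = e → g1 x = g e) :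
    ∀ (i : ℕ) (x : α), x ≠ e → (g1 ^ i) x ≠ e ∧ ∃ j : ℕ, (g1 ^ i) x = (g ^ j) x := by
  intro i
  induction i with
  | zero => intro x hx; exact ⟨by simpa using hx, 0, rfl⟩
  | succ i ih =>
    intro x hx
    obtain ⟨h3, j, hj⟩ := ih x hx
    constructor
    · rw [pow_succ', Equiv.Perm.mul_apply]
      intro h4
      exact h3 (g1.injective (h4.trans he.symm))
    · by_cases h5 : g ((g1 ^ i) x) = e
      · refine ⟨j + 2, ?_⟩
        rw [pow_succ', Equiv.Perm.mul_apply, h2 _ h3 h5, ← h5, hj, pow_succ' g (j + 1),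
          pow_succ' g j]
        rfl
      · refine ⟨j + 1, ?_⟩
        rw [pow_succ', Equiv.Perm.mul_apply, h1 _ h3 h5, hj, pow_succ']
        rfl

/-- (sign) if `T` is a system of representatives of the cycles of `g` on `M` -/
theorem sign_reps {M T : Finset α} {g : Perm α} (hg : ∀ x, x ∉ M → g x = x) (hT : T ⊆ M)
    (hc : ∀ x ∈ M, ∃ i : ℕ, (g ^ i) x ∈ T)
    (hu : ∀ t ∈ T, ∀ i : ℕ, (g ^ i) t ∈ T → (g ^ i) t = t) :
    Perm.sign g = (-1) ^ (M.card + T.card) := by
  induction hn : M.card using Nat.strong_induction_on generalizing M g with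
  | _ n ih =>
  subst hn
  by_cases hlt : T.card < M.card
  · obtain ⟨e, heM, heT, hgeT⟩ := exists_last hg hc hlt
    have hne : g e ≠ e := fun h => heT (h ▸ hgeT)
    set g1 : Perm α := swap (g e) e * g with hg1
    have hg1e : g1 e = e := by rw [hg1, Equiv.Perm.mul_apply, swap_apply_left]
    have p1 : ∀ x, x ≠ e → g x ≠ e → g1 x = g x := by
      intro x hx hgx
      rw [hg1, Equiv.Perm.mul_apply, swap_apply_of_ne_of_ne (fun h => hx (g.injective h)) hgx]
    have p2 : ∀ x, x ≠ e → g x = e → g1 x = g e := by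
      intro x hx hgx
      rw [hg1, Equiv.Perm.mul_apply, hgx, swap_apply_right]
    have hg1f : ∀ x, x ∉ M.erase e → g1 x = x := by
      intro x hx
      by_cases hxe : x = e
      · rw [hxe, hg1e]
      · have hxM : x ∉ M := fun h => hx (Finset.mem_erase.mpr ⟨hxe, h⟩)
        rw [p1 x hxe (by rw [hg x hxM]; exact hxe), hg x hxM]
    have hTe : T ⊆ M.erase e := fun x hx =>
      Finset.mem_erase.mpr ⟨fun h => heT (h ▸ hx), hT hx⟩
    have hc1 : ∀ x ∈ M.erase e, ∃ i : ℕ, (g1 ^ i) x ∈ T := by
      intro x hx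
      obtain ⟨hxe, hxM⟩ := Finset.mem_erase.mp hx
      obtain ⟨i, hi⟩ := hc x hxM
      exact cov_step heT p1 p2 i x hxe hi
    have hu1 : ∀ t ∈ T, ∀ i : ℕ, (g1 ^ i) t ∈ T → (g1 ^ i) t = t := by
      intro t ht i hi
      have hte : t ≠ e := fun h => heT (h ▸ ht)
      obtain ⟨-, j, hj⟩ := orb_step hg1e p1 p2 i t hte
      rw [hj] at hi ⊢
      exact hu t ht j hi
    have hce : (M.erase e).card = M.card - 1 := Finset.card_erase_of_mem heM
    have h3 := ih _ (by omega) hg1f hTe hc1 hu1 rfl
    rw [hg1, Perm.sign_mul, sign_swap hne, hce] at h3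
    obtain ⟨k, hk⟩ : ∃ k, M.card = k + 1 := ⟨M.card - 1, by omega⟩
    rw [hk, Nat.add_sub_cancel] at h3
    rw [hk, show k + 1 + T.card = (k + T.card) + 1 by ring, pow_succ, ← h3]
    simp
  · have hTM : T = M := Finset.eq_of_subset_of_card_le hT (by omega)
    have h1 : g = 1 := by
      ext x
      by_cases hx : x ∈ M
      · have h2 : g x ∈ M := by
          by_contra h3
          have h4 := g.injective (hg _ h3)
          exact h3 (by rw [h4]; exact hx)
        have h5 := hu x (by rw [hTM]; exact hx) 1 (by rw [pow_one, hTM]; exact h2)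
        rw [pow_one] at h5
        rw [h5]; rfl
      · rw [hg x hx]; rfl
    rw [h1, hTM, ← two_mul, pow_mul]
    simp

end Pool.Agent.PDA
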