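import Pool.Agent.PDA.Full
import Pool.Agent.PDA.SignReps
import Pool.Agent.PDA.Select
import Pool.Agent.PDA.Four

/-! Every even permutation of `n` points, `p ≤ n < 2p`, is a product of two even permutations which
both have a `p`-cycle (helper45). -/

set_option autoImplicit false

namespace Pool.Agent.PDA

open Equiv Equiv.Perm Finset

namespace Cyc

variable {n : ℕ}

/-- a representative of the cycle of `i` -/
noncomputable def rep (g : Perm (Fin n)) (i : Fin n) : Fin n :=
  (Quotient.mk (SameCycle.setoid g) i).out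

theorem rep_same (g : Perm (Fin n)) (i : Fin n) : SameCycle g (rep g i) i := by
  have h := Quotient.mk_out (s := SameCycle.setoid g) i
  exact h

theorem rep_eq {g : Perm (Fin n)} {i j : Fin n} (h : SameCycle g i j) : rep g i = rep g j := by
  unfold rep
  have : (Quotient.mk (SameCycle.setoid g) i) = Quotient.mk (SameCycle.setoid g) j :=
    Quotient.sound h
  rw [this]

theorem rep_eq_iff {g : Perm (Fin n)} {i j : Fin n} : rep g i = rep g j ↔ SameCycle g i j := by
  constructor
  · intro h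
    have h1 := rep_same g i
    rw [h] at h1
    exact h1.symm.trans (rep_same g j)
  · exact rep_eq

theorem rep_rep (g : Perm (Fin n)) (i : Fin n) : rep g (rep g i) = rep g i :=
  rep_eq (rep_same g i)

theorem rep_pow (g : Perm (Fin n)) (i : Fin n) (m : ℕ) : rep g ((g ^ m) i) = rep g i :=
  rep_eq (sameCycle_pow_left.2 (SameCycle.refl _ _))

theorem rep_apply (g : Perm (Fin n)) (i : Fin n) : rep g (g i) = rep g i := by
  simpa using rep_pow g i 1

/-- the set of representatives -/
noncomputable def R (g : Perm (Fin n)) : Finset (Fin n) := univ.image (rep g)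

theorem mem_R {g : Perm (Fin n)} {i : Fin n} : i ∈ R g ↔ rep g i = i := by
  constructor
  · intro h
    obtain ⟨j, -, rfl⟩ := Finset.mem_image.1 h
    exact rep_rep g j
  · intro h
    exact Finset.mem_image.2 ⟨i, Finset.mem_univ _, h⟩

theorem rep_mem (g : Perm (Fin n)) (i : Fin n) : rep g i ∈ R g := mem_R.2 (rep_rep g i)

/-- the size of the cycle of `r` -/
noncomputable def l (g : Perm (Fin n)) (r : Fin n) : ℕ := (univ.filter (fun i => rep g i = r)).card

theorem l_pos {g : Perm (Fin n)} {r : Fin n} (h : r ∈ R g) : 1 ≤ l g r := by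
  apply Finset.card_pos.2
  exact ⟨r, Finset.mem_filter.2 ⟨Finset.mem_univ _, mem_R.1 h⟩⟩

/-- the union of the cycles with representative in `S` -/
noncomputable def M (g : Perm (Fin n)) (S : Finset (Fin n)) : Finset (Fin n) :=
  univ.filter (fun i => rep g i ∈ S)

theorem mem_M {g : Perm (Fin n)} {S : Finset (Fin n)} {i : Fin n} : i ∈ M g S ↔ rep g i ∈ S := by
  simp [M]

theorem card_M (g : Perm (Fin n)) (S : Finset (Fin n)) : (M g S).card = ∑ r ∈ S, l g r := by
  rw [Finset.card_eq_sum_card_fiberwise (f := rep g) (t := S)]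
  · apply Finset.sum_congr rfl
    intro r hr
    unfold l M
    congr 1
    ext i
    simp only [Finset.mem_filter, Finset.mem_univ, true_and]
    constructor
    · rintro ⟨_, h⟩; exact h
    · intro h; exact ⟨by rw [h]; exact hr, h⟩
  · intro i hi
    exact mem_M.1 hi

theorem M_R (g : Perm (Fin n)) : M g (R g) = univ := by
  ext i
  simp [mem_M, rep_mem]

theorem sum_l (g : Perm (Fin n)) : ∑ r ∈ R g, l g r = n := by
  rw [← card_M, M_R, Finset.card_univ, Fintype.card_fin]

/-- the restriction of `g` to `M g S` -/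
noncomputable def gM (g : Perm (Fin n)) (S : Finset (Fin n)) : Perm (Fin n) :=
  ofSubtype (g.subtypePerm (p := fun i => i ∈ M g S)
    (fun x => by show g x ∈ M g S ↔ x ∈ M g S; rw [mem_M, mem_M, rep_apply]))

theorem gM_of_mem {g : Perm (Fin n)} {S : Finset (Fin n)} {i : Fin n} (h : i ∈ M g S) :
    gM g S i = g i := by
  unfold gM
  rw [ofSubtype_apply_of_mem _ h]
  rfl

theorem gM_of_notMem {g : Perm (Fin n)} {S : Finset (Fin n)} {i : Fin n} (h : i ∉ M g S) :
    gM g S i = i := by
  unfold gM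
  exact ofSubtype_apply_of_not_mem _ h

theorem gM_pow {g : Perm (Fin n)} {S : Finset (Fin n)} {i : Fin n} (h : i ∈ M g S) (m : ℕ) :
    (gM g S ^ m) i = (g ^ m) i := by
  induction m with
  | zero => rfl
  | succ m ih =>
    rw [pow_succ', pow_succ', Perm.mul_apply, Perm.mul_apply, ih]
    apply gM_of_mem
    rw [mem_M, rep_pow]
    exact mem_M.1 h

theorem sign_gM (g : Perm (Fin n)) (S : Finset (Fin n)) (hS : S ⊆ R g) :
    Perm.sign (gM g S) = (-1) ^ ((M g S).card + S.card) := by
  have hSM : S ⊆ M g S := by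
    intro r hr
    rw [mem_M, mem_R.1 (hS hr)]
    exact hr
  apply sign_reps (fun x hx => gM_of_notMem hx) hSM
  · intro x hx
    obtain ⟨i, -, -, hi⟩ := (rep_same g x).symm.exists_pow_eq''
    refine ⟨i, ?_⟩
    rw [gM_pow hx, hi]
    exact mem_M.1 hx
  · intro t ht i hi
    rw [gM_pow (hSM ht)] at hi ⊢
    have h1 := mem_R.1 (hS hi)
    rw [rep_pow, mem_R.1 (hS ht)] at h1
    exact h1.symm

theorem gM_R (g : Perm (Fin n)) : gM g (R g) = g := by
  ext i
  rw [gM_of_mem]
  rw [M_R]; exact Finset.mem_univ _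

theorem one_case {p : ℕ} (hp : Odd p) (hp3 : 3 ≤ p) (g : Perm (Fin n)) (hg : Perm.sign g = 1)
    (S : Finset (Fin n)) (hS : S ⊆ R g) (h1 : p ≤ ∑ r ∈ S, l g r)
    (h2 : ∑ r ∈ S, l g r + S.card ≤ 2 * p) (h3 : Even (∑ r ∈ S, l g r + S.card)) :
    ∃ x y : Perm (Fin n), Perm.sign x = 1 ∧ Perm.sign y = 1 ∧ p ∈ x.cycleType ∧
      p ∈ y.cycleType ∧ g = x * y := by
  have hSM : S ⊆ M g S := by
    intro r hr
    rw [mem_M, mem_R.1 (hS hr)]
    exact hr
  have hSn : S.Nonempty := by
    rw [Finset.nonempty_iff_ne_empty]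
    rintro rfl
    rw [Finset.sum_empty] at h1
    omega
  have hs : Perm.sign (gM g S) = 1 := by
    rw [sign_gM g S hS, card_M]
    exact h3.neg_one_pow
  have hc : ∀ x ∈ M g S, ∃ i : ℕ, (gM g S ^ i) x ∈ S := by
    intro x hx
    obtain ⟨i, -, -, hi⟩ := (rep_same g x).symm.exists_pow_eq''
    refine ⟨i, ?_⟩
    rw [gM_pow hx, hi]
    exact mem_M.1 hx
  have hev : (-1 : ℤˣ) ^ (p + p) = 1 := (Even.add_self p).neg_one_pow
  obtain ⟨A, B, u, v, -, hAM, hA, -, hBM, hB, hu, hv, huv⟩ :=
    claim3 (M := M g S) (T := S) (g := gM g S) (fun x hx => gM_of_notMem hx) hSM hSn hc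
      (a := p) (b := p) (by rw [card_M]; exact h1) (by rw [card_M]; exact h1)
      (by rw [card_M]; omega) (by rw [hs, hev])
  have hodd : (-1 : ℤˣ) ^ (p + 1) = 1 := (Odd.add_one hp).neg_one_pow
  have hAn : A.Nonempty := by rw [← Finset.card_pos]; omega
  have hBn : B.Nonempty := by rw [← Finset.card_pos]; omega
  have hsu : Perm.sign u = 1 := by rw [hu.sign hAn, hA, hodd]
  have hsv : Perm.sign v = 1 := by rw [hv.sign hBn, hB, hodd]
  have hcu := hu.isCycle (by omega)
  have hcv := hv.isCycle (by omega)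
  have hgc : Disjoint v ((gM g S)⁻¹ * g) := by
    intro i
    by_cases hi : i ∈ M g S
    · right
      rw [Perm.mul_apply, Perm.inv_eq_iff_eq]
      exact (gM_of_mem hi).symm
    · left
      exact hv.2 i (fun h => hi (hBM h))
  refine ⟨u, v * ((gM g S)⁻¹ * g), hsu, ?_, ?_, ?_, ?_⟩
  · rw [Perm.sign_mul, Perm.sign_mul, Perm.sign_inv, hs, hg, hsv]
    rfl
  · rw [hcu.1.cycleType, hcu.2, hA]
    exact Multiset.mem_singleton_self _
  · rw [hgc.cycleType_mul, hcv.1.cycleType, hcv.2, hB]
    exact Multiset.mem_add.2 (Or.inl (Multiset.mem_singleton_self _))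
  · rw [← mul_assoc, ← huv, ← mul_assoc, mul_inv_cancel, one_mul]

theorem class_card (g : Perm (Fin n)) {x : Fin n} (hx : g x ≠ x) :
    (g.cycleOf x).support.card = l g (rep g x) := by
  unfold l
  congr 1
  ext i
  rw [mem_support_cycleOf_iff' hx, Finset.mem_filter]
  simp only [Finset.mem_univ, true_and]
  rw [rep_eq_iff]
  exact sameCycle_comm

theorem four_case {p : ℕ} (hp3 : 3 ≤ p) (g : Perm (Fin n))
    (h4 : (R g).card = 4) (hl : ∀ i ∈ R g, 2 * l g i + 1 = p ∧ Even (l g i)) :
    ∃ x y : Perm (Fin n), Perm.sign x = 1 ∧ Perm.sign y = 1 ∧ p ∈ x.cycleType ∧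
      p ∈ y.cycleType ∧ g = x * y := by
  obtain ⟨k, hk⟩ : ∃ k, k = (p - 1) / 2 := ⟨_, rfl⟩
  have hlk : ∀ i ∈ R g, l g i = k := by
    intro i hi
    have := (hl i hi).1
    omega
  have hRn : (R g).Nonempty := by rw [← Finset.card_pos]; omega
  obtain ⟨r0, hr0⟩ := hRn
  have hpk : 2 * k + 1 = p := by rw [← hlk r0 hr0]; exact (hl r0 hr0).1
  have hkev : Even k := by rw [← hlk r0 hr0]; exact (hl r0 hr0).2
  have hk2 : 2 ≤ k := by
    obtain ⟨m, hm⟩ := hkev
    omega
  have hn : n = 4 * k := by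
    have h1 := sum_l g
    rw [Finset.sum_congr rfl hlk, Finset.sum_const, h4, smul_eq_mul] at h1
    exact h1.symm
  have hmove : ∀ x, g x ≠ x := by
    intro x hx
    have h1 := hlk _ (rep_mem g x)
    have h2 : l g (rep g x) ≤ 1 := by
      unfold l
      apply Finset.card_le_one.2
      intro a ha b hb
      simp only [Finset.mem_filter, Finset.mem_univ, true_and] at ha hb
      have ha' := (rep_eq_iff.1 ha).symm
      have hb' := (rep_eq_iff.1 hb).symm
      have key : ∀ a, SameCycle g x a → a = x := by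
        intro a ha
        obtain ⟨i, -, -, hi⟩ := ha.exists_pow_eq''
        rw [← hi]
        exact pow_apply_eq_self_of_apply_eq_self hx i
      rw [key a ha', key b hb']
    omega
  have hct : g.cycleType = Multiset.replicate 4 k := by
    have hall : ∀ b ∈ g.cycleType, b = k := by
      intro b hb
      rw [cycleType_def, Multiset.mem_map] at hb
      obtain ⟨c, hc, rfl⟩ := hb
      have hc' : c ∈ g.cycleFactorsFinset := hc
      have hcc := (mem_cycleFactorsFinset_iff.1 hc').1
      obtain ⟨a, ha⟩ := Finset.card_pos.1 (hcc.two_le_card_support.trans' (by norm_num : 0 < 2))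
      rw [Function.comp_apply, cycle_is_cycleOf ha hc', class_card g (hmove a)]
      exact hlk _ (rep_mem g a)
    have hsum := sum_cycleType g
    have hsupp : g.support = univ := by
      ext x
      simp [hmove x]
    rw [Multiset.eq_replicate.2 ⟨rfl, hall⟩, Multiset.sum_replicate, hsupp, Finset.card_univ,
      Fintype.card_fin, smul_eq_mul] at hsum
    have h5 : Multiset.card g.cycleType = 4 :=
      Nat.eq_of_mul_eq_mul_right (by omega) (hsum.trans hn)
    exact Multiset.eq_replicate.2 ⟨h5, hall⟩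
  obtain ⟨x, y, hx, hy, hx', hy', hxy⟩ := four k hkev hk2 g hct (by rw [Fintype.card_fin, hn])
  rw [hpk] at hx' hy'
  exact ⟨x, y, hx, hy, hx', hy', hxy⟩

end Cyc

theorem two_pcycles {n p : ℕ} (hp : Odd p) (hp3 : 3 ≤ p) (h1 : p ≤ n) (h2 : n < 2 * p)
    (g : Perm (Fin n)) (hg : Perm.sign g = 1) :
    ∃ x y : Perm (Fin n), Perm.sign x = 1 ∧ Perm.sign y = 1 ∧ p ∈ x.cycleType ∧
      p ∈ y.cycleType ∧ g = x * y := by
  have he : Even (∑ r ∈ Cyc.R g, Cyc.l g r + (Cyc.R g).card) := by
    rw [Cyc.sum_l]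
    have h3 := Cyc.sign_gM g (Cyc.R g) (Finset.Subset.refl _)
    rw [Cyc.gM_R, hg, Cyc.M_R, Finset.card_univ, Fintype.card_fin] at h3
    by_contra hcon
    rw [Nat.not_even_iff_odd] at hcon
    rw [hcon.neg_one_pow] at h3
    exact absurd h3 (by decide)
  rcases select (Cyc.R g) (Cyc.l g) (fun i hi => Cyc.l_pos hi) p hp hp3
    (by rw [Cyc.sum_l]; exact h1) (by rw [Cyc.sum_l]; exact h2) he with
    ⟨S, hS, h3, h4, h5⟩ | ⟨h3, h4⟩
  · exact Cyc.one_case hp hp3 g hg S hS h3 h4 h5
  · exact Cyc.four_case hp3 g h3 h4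

end Pool.Agent.PDA
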