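import Mathlib

/-! Products of two derangements in alternating groups: common definitions (helper44). -/

set_option autoImplicit false

namespace Pool.Agent.PDA

open Equiv Equiv.Perm Finset

/-- `u` permutes the points of `A` in one cycle and fixes every other point. -/
def Full {α : Type*} (u : Perm α) (A : Finset α) : Prop :=
  u.IsCycleOn (A : Set α) ∧ ∀ x, x ∉ A → u x = x

end Pool.Agent.PDA
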