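import Pool.Agent.PDA.Defs

/-! Transitive subgroups of degree 5 and 7 which contain a 3-cycle, respectively a 5-cycle. -/

set_option autoImplicit false

namespace Pool.Agent.PDA

open Equiv Equiv.Perm Finset

theorem cycleType_of_sign {α : Type*} [Fintype α] [DecidableEq α] {n : ℕ} (hn : Odd n)
    {g : Perm α} (hc : Fintype.card α < n + 3) (hg : n ∈ g.cycleType) (hs : Perm.sign g = 1) :
    g.cycleType = {n} := by
  obtain ⟨c, g', rfl, hd, hcy, rfl⟩ := mem_cycleType_iff.1 hg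
  suffices g'1 : g' = 1 by
    rw [hd.cycleType_mul, hcy.cycleType, g'1, cycleType_one, add_zero]
  by_contra g'1
  have h2 := two_le_card_support_of_ne_one g'1
  have h3 : (c * g').support.card ≤ Fintype.card α := card_le_univ _
  rw [hd.card_support_mul] at h3
  have h4 : g'.support.card = 2 := by omega
  have h5 : Perm.sign g' = -1 := (card_support_eq_two.1 h4).sign_eq
  have h6 : Perm.sign c = 1 := by rw [hcy.sign, hn.neg_one_pow, neg_neg]
  rw [Perm.sign_mul, h5, h6] at hs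
  exact absurd hs (by decide)

theorem five (K : Subgroup (Perm (Fin 5))) (hK : MulAction.IsPretransitive K (Fin 5))
    (x : Perm (Fin 5)) (hx : x ∈ K) (hs : Perm.sign x = 1) (hc : 3 ∈ x.cycleType) :
    alternatingGroup (Fin 5) ≤ K := by
  have h3 : x.IsThreeCycle := cycleType_of_sign (by decide) (by simp) hc hs
  have hp : MulAction.IsPreprimitive K (Fin 5) :=
    MulAction.IsPreprimitive.of_prime_card
      (by rw [Nat.card_eq_fintype_card, Fintype.card_fin]; norm_num)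
  exact alternatingGroup_le_of_isPreprimitive_of_isThreeCycle_mem hp h3 hx

theorem enum7 : ∀ a b c d : Fin 7, Function.Injective (![0, 1, 3, a, b, c, d] : Fin 7 → Fin 7) →
    (![0, 1, 3, a, b, c, d] : Fin 7 → Fin 7) ((![0, 1, 3, a, b, c, d] : Fin 7 → Fin 7)
      ((![0, 1, 3, a, b, c, d] : Fin 7 → Fin 7) ((![0, 1, 3, a, b, c, d] : Fin 7 → Fin 7) 3)))
        = 2 →
    (![0, 1, 3, a, b, c, d] : Fin 7 → Fin 7) = ![0, 1, 3, 4, 5, 6, 2] ∨
    (![0, 1, 3, a, b, c, d] : Fin 7 → Fin 7) = ![0, 1, 3, 4, 6, 2, 5] ∨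
    (![0, 1, 3, a, b, c, d] : Fin 7 → Fin 7) = ![0, 1, 3, 5, 6, 4, 2] ∨
    (![0, 1, 3, a, b, c, d] : Fin 7 → Fin 7) = ![0, 1, 3, 5, 2, 6, 4] ∨
    (![0, 1, 3, a, b, c, d] : Fin 7 → Fin 7) = ![0, 1, 3, 6, 5, 2, 4] ∨
    (![0, 1, 3, a, b, c, d] : Fin 7 → Fin 7) = ![0, 1, 3, 6, 2, 4, 5] := by
  decide +kernel

/-- the six normalised 5-cycles -/
def Q1 : Perm (Fin 7) := ⟨![0, 1, 3, 4, 5, 6, 2], ![0, 1, 6, 2, 3, 4, 5], by decide, by decide⟩
def Q2 : Perm (Fin 7) := ⟨![0, 1, 3, 4, 6, 2, 5], ![0, 1, 5, 2, 3, 6, 4], by decide, by decide⟩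
def Q3 : Perm (Fin 7) := ⟨![0, 1, 3, 5, 6, 4, 2], ![0, 1, 6, 2, 5, 3, 4], by decide, by decide⟩
def Q4 : Perm (Fin 7) := ⟨![0, 1, 3, 5, 2, 6, 4], ![0, 1, 4, 2, 6, 3, 5], by decide, by decide⟩
def Q5 : Perm (Fin 7) := ⟨![0, 1, 3, 6, 5, 2, 4], ![0, 1, 5, 2, 6, 4, 3], by decide, by decide⟩
def Q6 : Perm (Fin 7) := ⟨![0, 1, 3, 6, 2, 4, 5], ![0, 1, 4, 2, 5, 6, 3], by decide, by decide⟩

theorem w1 : finRotate 7 * Q1⁻¹ = swap 0 2 * swap 0 1 := by decide +kernel
theorem w2 : finRotate 7 ^ 3 * Q2 * (finRotate 7)⁻¹ ^ 2 * Q2⁻¹ = swap 0 2 * swap 0 5 := by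
  decide +kernel
theorem w3 : finRotate 7 ^ 3 * Q3 * (finRotate 7) ^ 2 * Q3 = swap 0 2 * swap 0 6 := by
  decide +kernel
theorem w4 : finRotate 7 * Q4⁻¹ ^ 2 * finRotate 7 * Q4⁻¹ ^ 2 = swap 0 1 * swap 0 2 := by
  decide +kernel
theorem w5 : finRotate 7 ^ 3 * Q5⁻¹ * finRotate 7 * Q5 = swap 0 6 * swap 0 4 := by
  decide +kernel
theorem w6 : finRotate 7 ^ 3 * Q6 * (finRotate 7)⁻¹ ^ 2 * Q6⁻¹ = swap 2 4 * swap 2 6 := by
  decide +kernel

theorem rot_pow : ∀ j : Fin 7, (finRotate 7 ^ (j : ℕ)) 0 = j := by decide +kernel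

/-- the group generated by the rotation and a normalised 5-cycle contains a 3-cycle -/
theorem exists_three {K : Subgroup (Perm (Fin 7))} (hr : finRotate 7 ∈ K) {y : Perm (Fin 7)}
    (hy : y ∈ K) (h0 : y 0 = 0) (h1 : y 1 = 1) (h2 : y 2 = 3) (h5 : y ^ 5 = 1) :
    ∃ w ∈ K, w.IsThreeCycle := by
  have hf : (![0, 1, 3, y 3, y 4, y 5, y 6] : Fin 7 → Fin 7) = y := by
    funext i
    fin_cases i
    · exact h0.symm
    · exact h1.symm
    · exact h2.symm
    · rfl
    · rfl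
    · rfl
    · rfl
  have hinj : Function.Injective (![0, 1, 3, y 3, y 4, y 5, y 6] : Fin 7 → Fin 7) := by
    rw [hf]; exact y.injective
  have h52 : y (y (y (y 3))) = 2 := by
    have h := congrArg (fun z : Perm (Fin 7) => z 2) h5
    simp only [pow_succ, pow_zero, one_mul, Perm.mul_apply, Perm.one_apply, h2] at h
    exact h
  have hen := enum7 (y 3) (y 4) (y 5) (y 6) hinj (by rw [hf]; exact h52)
  rw [hf] at hen
  have hI : (finRotate 7)⁻¹ ∈ K := K.inv_mem hr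
  have hyI : y⁻¹ ∈ K := K.inv_mem hy
  rcases hen with h | h | h | h | h | h
  · have hy' : y = Q1 := Equiv.coe_fn_injective h
    refine ⟨finRotate 7 * y⁻¹, K.mul_mem hr hyI, ?_⟩
    rw [hy', w1]
    exact isThreeCycle_swap_mul_swap_same (by decide) (by decide) (by decide)
  · have hy' : y = Q2 := Equiv.coe_fn_injective h
    refine ⟨finRotate 7 ^ 3 * y * (finRotate 7)⁻¹ ^ 2 * y⁻¹,
      K.mul_mem (K.mul_mem (K.mul_mem (K.pow_mem hr 3) hy) (K.pow_mem hI 2)) hyI, ?_⟩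
    rw [hy', w2]
    exact isThreeCycle_swap_mul_swap_same (by decide) (by decide) (by decide)
  · have hy' : y = Q3 := Equiv.coe_fn_injective h
    refine ⟨finRotate 7 ^ 3 * y * (finRotate 7) ^ 2 * y,
      K.mul_mem (K.mul_mem (K.mul_mem (K.pow_mem hr 3) hy) (K.pow_mem hr 2)) hy, ?_⟩
    rw [hy', w3]
    exact isThreeCycle_swap_mul_swap_same (by decide) (by decide) (by decide)
  · have hy' : y = Q4 := Equiv.coe_fn_injective h
    refine ⟨finRotate 7 * y⁻¹ ^ 2 * finRotate 7 * y⁻¹ ^ 2,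
      K.mul_mem (K.mul_mem (K.mul_mem hr (K.pow_mem hyI 2)) hr) (K.pow_mem hyI 2), ?_⟩
    rw [hy', w4]
    exact isThreeCycle_swap_mul_swap_same (by decide) (by decide) (by decide)
  · have hy' : y = Q5 := Equiv.coe_fn_injective h
    refine ⟨finRotate 7 ^ 3 * y⁻¹ * finRotate 7 * y,
      K.mul_mem (K.mul_mem (K.mul_mem (K.pow_mem hr 3) hyI) hr) hy, ?_⟩
    rw [hy', w5]
    exact isThreeCycle_swap_mul_swap_same (by decide) (by decide) (by decide)
  · have hy' : y = Q6 := Equiv.coe_fn_injective h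
    refine ⟨finRotate 7 ^ 3 * y * (finRotate 7)⁻¹ ^ 2 * y⁻¹,
      K.mul_mem (K.mul_mem (K.mul_mem (K.pow_mem hr 3) hy) (K.pow_mem hI 2)) hyI, ?_⟩
    rw [hy', w6]
    exact isThreeCycle_swap_mul_swap_same (by decide) (by decide) (by decide)

theorem seven (K : Subgroup (Perm (Fin 7))) (hK : MulAction.IsPretransitive K (Fin 7))
    (hA : K ≤ alternatingGroup (Fin 7)) (x : Perm (Fin 7)) (hx : x ∈ K) (hc : 5 ∈ x.cycleType) :
    alternatingGroup (Fin 7) ≤ K := by
  have hxs : Perm.sign x = 1 := mem_alternatingGroup.1 (hA hx)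
  have hx5 : x.cycleType = {5} := cycleType_of_sign (by decide) (by simp) hc hxs
  have hxc : x.IsCycle := by rw [← card_cycleType_eq_one, hx5]; rfl
  have hxcard : x.support.card = 5 := by rw [← sum_cycleType, hx5]; rfl
  have hcompl : ((x.support)ᶜ).card = 2 := by rw [card_compl, hxcard, Fintype.card_fin]
  obtain ⟨a, b, hab, hsupp⟩ := card_eq_two.1 hcompl
  have hmem : ∀ z, z ∈ (x.support)ᶜ ↔ x z = z := fun z => by
    rw [mem_compl, mem_support, not_not]
  have hxa : x a = a := (hmem a).1 (by rw [hsupp]; simp)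
  have hxb : x b = b := (hmem b).1 (by rw [hsupp]; simp)
  have hxne : ∀ z, z ≠ a → z ≠ b → x z ≠ z := by
    intro z h1 h2 h3
    have h4 := (hmem z).2 h3
    rw [hsupp, mem_insert, mem_singleton] at h4
    rcases h4 with h4 | h4
    · exact h1 h4
    · exact h2 h4
  have hx5' : x ^ 5 = 1 := by
    rw [← hxcard, ← hxc.orderOf]; exact pow_orderOf_eq_one x
  -- a 7-cycle
  have h7 : 7 ∣ Nat.card K := by
    have h := MulAction.index_stabilizer_of_transitive K (0 : Fin 7)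
    rw [Nat.card_eq_fintype_card (α := Fin 7), Fintype.card_fin] at h
    have h8 := Subgroup.index_dvd_card (MulAction.stabilizer K (0 : Fin 7))
    rw [h] at h8; exact h8
  have hF : Fact (Nat.Prime 7) := ⟨by norm_num⟩
  obtain ⟨s, hs⟩ := exists_prime_orderOf_dvd_card' (G := K) 7 h7
  have hs' : orderOf (s : Perm (Fin 7)) = 7 := by rw [Subgroup.orderOf_coe, hs]
  have hcy : ∀ t : Perm (Fin 7), orderOf t = 7 → t.IsCycle ∧ t.support = univ := by
    intro t ht
    have h1 : t.IsCycle := by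
      refine isCycle_of_prime_order (by rw [ht]; norm_num) ?_
      have h2 : t.support.card ≤ Fintype.card (Fin 7) := card_le_univ _
      rw [Fintype.card_fin] at h2
      omega
    refine ⟨h1, eq_univ_of_card _ ?_⟩
    rw [← h1.orderOf, ht, Fintype.card_fin]
  obtain ⟨hscyc, hsu⟩ := hcy _ hs'
  have hsm : ∀ z, (s : Perm (Fin 7)) z ≠ z := fun z => by
    rw [← mem_support, hsu]; exact mem_univ z
  obtain ⟨k, hk⟩ := hscyc.exists_pow_eq (hsm a) (hsm b)
  have htK : (s : Perm (Fin 7)) ^ k ∈ K := K.pow_mem s.2 k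
  have ht1 : (s : Perm (Fin 7)) ^ k ≠ 1 := fun h => hab (by rw [h] at hk; exact hk)
  have hto : orderOf ((s : Perm (Fin 7)) ^ k) = 7 := by
    have h1 := orderOf_pow_dvd (x := (s : Perm (Fin 7))) k
    rw [hs'] at h1
    rcases (Nat.dvd_prime hF.out).1 h1 with h2 | h2
    · exact absurd (orderOf_eq_one_iff.1 h2) ht1
    · exact h2
  generalize hT : (s : Perm (Fin 7)) ^ k = t at hk htK ht1 hto
  obtain ⟨htc, htu⟩ := hcy _ hto
  have hconj : IsConj (finRotate 7) t := isConj_iff_cycleType_eq.2 (by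
    rw [htc.cycleType, htu, card_univ, Fintype.card_fin]
    exact cycleType_finRotate)
  obtain ⟨c, hct⟩ := isConj_iff.1 hconj
  obtain ⟨j, hj⟩ : ∃ j : Fin 7, (finRotate 7 ^ (j : ℕ)) 0 = c⁻¹ a := ⟨c⁻¹ a, rot_pow _⟩
  obtain ⟨d, hd⟩ : ∃ d : Perm (Fin 7), d = c * finRotate 7 ^ (j : ℕ) := ⟨_, rfl⟩
  have hd0 : d 0 = a := by rw [hd, Perm.mul_apply, hj]; simp
  have hdt : d * finRotate 7 * d⁻¹ = t := by
    rw [← hct, hd]; group
  have hdt' : d * finRotate 7 = t * d := by rw [← hdt]; group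
  have hd1 : d 1 = b := by
    have h1 := congrArg (fun z : Perm (Fin 7) => z 0) hdt'
    simp only [Perm.mul_apply] at h1
    rw [hd0, hk] at h1
    rw [← h1]; rfl
  have hne : ∀ i : Fin 7, i ≠ 0 → i ≠ 1 → x (d i) ≠ d i := fun i h0 h1 =>
    hxne _ (fun h => h0 (d.injective (h.trans hd0.symm)))
      (fun h => h1 (d.injective (h.trans hd1.symm)))
  obtain ⟨m, hm⟩ := hxc.exists_pow_eq (hne 2 (by decide) (by decide))
    (hne 3 (by decide) (by decide))
  have hfix : ∀ z, x z = z → (x ^ m) z = z := fun z hz => by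
    have h1 : Function.IsFixedPt x z := hz
    have h2 := h1.perm_pow m
    exact h2
  obtain ⟨w, hw, hw3⟩ := exists_three
    (K := K.comap (MulAut.conj d).toMonoidHom) (y := d⁻¹ * x ^ m * d)
    (by
      change d * finRotate 7 * d⁻¹ ∈ K
      rw [hdt]; exact htK)
    (by
      change d * (d⁻¹ * x ^ m * d) * d⁻¹ ∈ K
      have h1 : d * (d⁻¹ * x ^ m * d) * d⁻¹ = x ^ m := by group
      rw [h1]; exact K.pow_mem hx m)
    (by
      rw [Perm.mul_apply, Perm.mul_apply, hd0, hfix a hxa, ← hd0]; simp)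
    (by
      rw [Perm.mul_apply, Perm.mul_apply, hd1, hfix b hxb, ← hd1]; simp)
    (by
      rw [Perm.mul_apply, Perm.mul_apply, hm]; simp)
    (by
      have h1 : (d⁻¹ * x ^ m * d) ^ 5 = d⁻¹ * (x ^ m) ^ 5 * d := by
        have := conj_pow (i := 5) (a := d⁻¹) (b := x ^ m)
        rwa [inv_inv] at this
      rw [h1, ← pow_mul, mul_comm m 5, pow_mul, hx5', one_pow]; group)
  have hw' : d * w * d⁻¹ ∈ K := hw
  have h3 : (d * w * d⁻¹).IsThreeCycle := by
    unfold IsThreeCycle at hw3 ⊢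
    rw [cycleType_conj]; exact hw3
  have hp : MulAction.IsPreprimitive K (Fin 7) :=
    MulAction.IsPreprimitive.of_prime_card
      (by rw [Nat.card_eq_fintype_card, Fintype.card_fin]; norm_num)
  exact alternatingGroup_le_of_isPreprimitive_of_isThreeCycle_mem hp h3 hw'

end Pool.Agent.PDA
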