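import Pool.Agent.PDA.Defs

/-! Full cycles, insertion of points, products of two cycles (helper44). -/

set_option autoImplicit false

namespace Pool.Agent.PDA

open Equiv Equiv.Perm Finset

variable {α : Type*} [DecidableEq α] [Fintype α]

omit [Fintype α] [DecidableEq α] in
theorem ai (u : Perm α) (x : α) : u (u⁻¹ x) = x := by simp

omit [Fintype α] in
theorem Full.mk' {u : Perm α} {A : Finset α} (hf : ∀ x, x ∉ A → u x = x)
    (hs : ∀ x ∈ A, ∀ y ∈ A, u.SameCycle x y) : Full u A := by
  refine ⟨⟨⟨?_, u.injective.injOn, ?_⟩, ?_⟩, hf⟩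
  · intro x hx
    by_contra h
    have h1 := hf _ (by simpa using h)
    have h2 := u.injective h1
    exact h (by rw [h2]; exact hx)
  · intro y hy
    refine ⟨u⁻¹ y, ?_, by simp⟩
    by_contra h
    have h1 : u (u⁻¹ y) = u⁻¹ y := hf _ (fun h2 => h (by exact_mod_cast h2))
    rw [ai] at h1
    exact h (by rw [← h1]; exact hy)
  · intro x hx y hy
    exact hs x (by simpa using hx) y (by simpa using hy)

omit [Fintype α] [DecidableEq α] in
theorem Full.mem {u : Perm α} {A : Finset α} (h : Full u A) {x : α} (hx : x ∈ A) : u x ∈ A := by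
  have := h.1.1.mapsTo (show x ∈ (A : Set α) from by simpa using hx)
  simpa using this

omit [Fintype α] in
theorem Full.inv_mem {u : Perm α} {A : Finset α} (h : Full u A) {x : α} (hx : x ∈ A) :
    u⁻¹ x ∈ A := by
  by_contra h1
  have h2 := h.2 _ h1
  rw [ai] at h2
  exact h1 (by rw [← h2]; exact hx)

omit [Fintype α] [DecidableEq α] in
theorem Full.inv_fix {u : Perm α} {A : Finset α} (h : Full u A) {x : α} (hx : x ∉ A) :
    u⁻¹ x = x := by
  rw [Equiv.Perm.inv_eq_iff_eq, h.2 x hx]

omit [Fintype α] [DecidableEq α] in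
theorem Full.inv {u : Perm α} {A : Finset α} (h : Full u A) : Full u⁻¹ A :=
  ⟨h.1.inv, fun _ hx => h.inv_fix hx⟩

theorem Full.isCycle {u : Perm α} {A : Finset α} (h : Full u A) (hA : 2 ≤ A.card) :
    u.IsCycle ∧ u.support = A := by
  have hn : (A : Set α).Nontrivial := by
    have h1 : 1 < A.card := hA
    obtain ⟨a, ha, b, hb, hab⟩ := Finset.one_lt_card.mp h1
    exact ⟨a, by simpa using ha, b, by simpa using hb, hab⟩
  refine ⟨Equiv.Perm.isCycle_iff_exists_isCycleOn.mpr ⟨A, hn, h.1, fun x hx => ?_⟩, ?_⟩
  · by_contra h1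
    exact hx (h.2 x (by simpa using h1))
  · ext x
    rw [Equiv.Perm.mem_support]
    constructor
    · intro hx
      by_contra h1
      exact hx (h.2 x h1)
    · intro hx
      exact h.1.apply_ne hn (by simpa using hx)

theorem Full.of_isCycle {u : Perm α} (h : u.IsCycle) : Full u u.support :=
  ⟨by
    have := Equiv.Perm.IsCycle.isCycleOn h
    convert this using 1
    ext x
    simp, fun x hx => by simpa using hx⟩

omit [Fintype α] in
theorem Full.one {a : α} : Full (1 : Perm α) {a} := by
  apply Full.mk'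
  · intro x _; rfl
  · intro x hx y hy
    rw [Finset.mem_singleton] at hx hy
    rw [hx, hy]

omit [Fintype α] in
/-- insertion of a new point on the right -/
theorem Full.insert_right {u : Perm α} {A : Finset α} (h : Full u A) {a e : α} (ha : a ∈ A)
    (he : e ∉ A) : Full (u * swap a e) (insert e A) := by
  have hae : a ≠ e := fun h1 => he (h1 ▸ ha)
  have hva : (u * swap a e) a = e := by
    rw [Equiv.Perm.mul_apply, swap_apply_left, h.2 e he]
  have hve : (u * swap a e) e = u a := by
    rw [Equiv.Perm.mul_apply, swap_apply_right]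
  have hvx : ∀ x, x ≠ a → x ≠ e → (u * swap a e) x = u x := by
    intro x h1 h2
    rw [Equiv.Perm.mul_apply, swap_apply_of_ne_of_ne h1 h2]
  have hstep : ∀ x ∈ A, (u * swap a e).SameCycle x (u x) := by
    intro x hx
    by_cases hxa : x = a
    · subst hxa
      refine ⟨2, ?_⟩
      have : ((u * swap x e) ^ (2 : ℤ)) x = (u * swap x e) ((u * swap x e) x) := by
        rw [show (2 : ℤ) = ((2 : ℕ) : ℤ) from rfl, zpow_natCast, pow_two]; rfl
      rw [this, hva, hve]
    · refine ⟨1, ?_⟩
      rw [zpow_one]
      exact hvx x hxa (fun h1 => he (h1 ▸ hx))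
  have hpow : ∀ (n : ℕ) (x : α), x ∈ A → (u ^ n) x ∈ A ∧ (u * swap a e).SameCycle x ((u ^ n) x) := by
    intro n
    induction n with
    | zero => intro x hx; exact ⟨by simpa using hx, by simpa using Equiv.Perm.SameCycle.refl _ _⟩
    | succ n ih =>
      intro x hx
      obtain ⟨h1, h2⟩ := ih x hx
      rw [pow_succ', Equiv.Perm.mul_apply]
      exact ⟨h.mem h1, h2.trans (hstep _ h1)⟩
  have hAA : ∀ x ∈ A, ∀ y ∈ A, (u * swap a e).SameCycle x y := by
    intro x hx y hy
    obtain ⟨n, _, hn⟩ := h.1.exists_pow_eq hx hy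
    rw [← hn]
    exact (hpow n x hx).2
  have hea : (u * swap a e).SameCycle a e := ⟨1, by rw [zpow_one]; exact hva⟩
  apply Full.mk'
  · intro x hx
    rw [Finset.mem_insert, not_or] at hx
    rw [hvx x (fun h1 => hx.2 (h1 ▸ ha)) hx.1]
    exact h.2 x hx.2
  · have key : ∀ x ∈ insert e A, (u * swap a e).SameCycle a x := by
      intro x hx
      rw [Finset.mem_insert] at hx
      rcases hx with rfl | hx
      · exact hea
      · exact hAA a ha x hx
    intro x hx y hy
    exact (key x hx).symm.trans (key y hy)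

omit [Fintype α] in
/-- insertion of a new point on the left -/
theorem Full.insert_left {u : Perm α} {A : Finset α} (h : Full u A) {a e : α} (ha : a ∈ A)
    (he : e ∉ A) : Full (swap a e * u) (insert e A) := by
  have : swap a e * u = u * swap (u⁻¹ a) e := by
    rw [swap_mul_eq_mul_swap, h.inv_fix he]
  rw [this]
  exact h.insert_right (h.inv_mem ha) he


theorem Full.card_one {u : Perm α} {A : Finset α} (h : Full u A) (hA : A.card = 1) : u = 1 := by
  obtain ⟨a, rfl⟩ := Finset.card_eq_one.mp hA
  ext x
  by_cases hx : x ∈ ({a} : Finset α)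
  · have := h.mem hx
    rw [Finset.mem_singleton] at hx this
    rw [hx]; rw [hx] at this; rw [this]; rfl
  · rw [h.2 x hx]; rfl

theorem Full.sign {u : Perm α} {A : Finset α} (h : Full u A) (hA : A.Nonempty) :
    Perm.sign u = (-1) ^ (A.card + 1) := by
  rcases Nat.lt_or_ge A.card 2 with h2 | h2
  · have h1 : A.card = 1 := by have := hA.card_pos; omega
    rw [h.card_one h1, h1]; simp
  · obtain ⟨h3, h4⟩ := h.isCycle h2
    rw [h3.sign, h4, pow_succ]; simp

/-- one induction step of (T1), two separate insertions -/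
theorem t1_b {M : Finset α} {u v : Perm α} (hu : Full u M) (hv : Full v M) {x y e f : α}
    (hx : x ∈ M) (hy : y ∈ M) (he : e ∉ M) (hf : f ∉ M) (hef : e ≠ f) :
    Full (u * swap x e * swap e f) (insert f (insert e M)) ∧
      Full (swap f e * (swap y f * v)) (insert f (insert e M)) := by
  constructor
  · apply (hu.insert_right hx he).insert_right (Finset.mem_insert_self _ _)
    rw [Finset.mem_insert, not_or]
    exact ⟨fun h => hef h.symm, hf⟩
  · have := (hv.insert_left hy hf).insert_left (a := f) (e := e) (Finset.mem_insert_self _ _)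
      (by rw [Finset.mem_insert, not_or]; exact ⟨hef, he⟩)
    rwa [Finset.insert_comm] at this


theorem exists_full (M : Finset α) : ∃ u : Perm α, Full u M := by
  obtain ⟨f, hf, hs⟩ := Finset.exists_cycleOn M
  refine ⟨f, hf, fun x hx => ?_⟩
  by_contra h
  exact hx (hs (by simpa using h))

theorem exists_pair (g : Perm α) (h1 : g ≠ 1) (hs : Perm.sign g = 1) :
    (∃ e f, e ≠ f ∧ g⁻¹ e ≠ e ∧ g⁻¹ f ≠ f ∧ g⁻¹ e ≠ f ∧ g⁻¹ f ≠ e) ∨
      ∃ a e f, a ≠ e ∧ e ≠ f ∧ a ≠ f ∧ g = swap a f * swap a e := by
  obtain ⟨a, ha⟩ : ∃ a, g a ≠ a := by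
    by_contra h
    push Not at h
    exact h1 (Equiv.ext h)
  by_contra hcon
  rw [not_or] at hcon
  obtain ⟨H1, H2⟩ := hcon
  have hmv : ∀ y, y ≠ g a → g y ≠ y → a ≠ y → y = g (g a) := by
    intro y hy1 hy2 hy3
    by_contra h
    refine H1 ⟨g a, y, hy1.symm, ?_, ?_, ?_, ?_⟩
    · rw [Ne, Equiv.Perm.inv_eq_iff_eq]; exact fun h => ha (g.injective h.symm)
    · rw [Ne, Equiv.Perm.inv_eq_iff_eq]; exact fun h => hy2 h.symm
    · rw [Ne, Equiv.Perm.inv_eq_iff_eq]; exact fun h => hy3 (g.injective h)
    · rw [Ne, Equiv.Perm.inv_eq_iff_eq]; exact h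
  have hfe : g (g a) ≠ g a := fun h => ha (g.injective h)
  by_cases hfa : g (g a) = a
  · have : g = swap a (g a) := by
      ext x
      by_cases hxa : x = a
      · rw [hxa, swap_apply_left]
      · by_cases hxe : x = g a
        · rw [hxe, swap_apply_right, hfa]
        · rw [swap_apply_of_ne_of_ne hxa hxe]
          by_contra h
          exact hxa ((hmv x hxe h (Ne.symm hxa)).trans hfa)
    rw [this, sign_swap (Ne.symm ha)] at hs
    exact absurd hs (by decide)
  · have hb : g (g (g a)) = a := by
      by_contra h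
      have hb1 : g (g (g a)) ≠ g a := fun h' => hfa (g.injective h')
      have hb2 : g (g (g (g a))) ≠ g (g (g a)) := fun h' => hfe (g.injective (g.injective h'))
      have := hmv _ hb1 hb2 (Ne.symm h)
      exact hfe (g.injective this)
    refine H2 ⟨a, g a, g (g a), Ne.symm ha, Ne.symm hfe, Ne.symm hfa, ?_⟩
    ext x
    rw [Equiv.Perm.mul_apply]
    by_cases hxa : x = a
    · rw [hxa, swap_apply_left, swap_apply_of_ne_of_ne ha (Ne.symm hfe)]
    · by_cases hxe : x = g a
      · rw [hxe, swap_apply_right, swap_apply_left]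
      · rw [swap_apply_of_ne_of_ne hxa hxe]
        by_cases hxf : x = g (g a)
        · rw [hxf, swap_apply_right, hb]
        · rw [swap_apply_of_ne_of_ne hxa hxf]
          by_contra h
          exact hxf (hmv x hxe h (Ne.symm hxa))

/-- (T1) every even permutation of `M` is a product of two full cycles on `M` -/
theorem t1 {M : Finset α} (hM : M.Nonempty) {g : Perm α} (hg : ∀ x, x ∉ M → g x = x)
    (hs : Perm.sign g = 1) : ∃ u v : Perm α, Full u M ∧ Full v M ∧ g = u * v := by
  induction hn : M.card using Nat.strong_induction_on generalizing M g with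
  | _ n ih =>
  have hmem : ∀ x, g x ≠ x → x ∈ M := fun x hx => by
    by_contra h; exact hx (hg x h)
  by_cases h1 : g = 1
  · obtain ⟨u, hu⟩ := exists_full M
    exact ⟨u, u⁻¹, hu, hu.inv, by rw [h1, mul_inv_cancel]⟩
  rcases exists_pair g h1 hs with ⟨e, f, hef, he, hf, h2, h3⟩ | ⟨a, e, f, hae, hef, haf, hg0⟩
  · set a := g⁻¹ e with ha
    set c := g⁻¹ f with hc
    have hga : g a = e := ai g e
    have hgc : g c = f := ai g f
    have hac : a ≠ c := fun h => hef (by rw [← hga, ← hgc, h])
    have heM : e ∈ M := hmem e (fun h => he (by rw [ha, Equiv.Perm.inv_eq_iff_eq, h]))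
    have hfM : f ∈ M := hmem f (fun h => hf (by rw [hc, Equiv.Perm.inv_eq_iff_eq, h]))
    have haM : a ∈ M := hmem a (by rw [hga]; exact Ne.symm he)
    have hcM : c ∈ M := hmem c (by rw [hgc]; exact Ne.symm hf)
    set g' : Perm α := g * swap c f * swap a e with hg'
    set M' := (M.erase e).erase f with hM'
    have haM' : a ∈ M' := by
      rw [hM', Finset.mem_erase, Finset.mem_erase]; exact ⟨h2, he, haM⟩
    have hcM' : c ∈ M' := by
      rw [hM', Finset.mem_erase, Finset.mem_erase]; exact ⟨hf, h3, hcM⟩
    have hfix : ∀ x, x ∉ M' → g' x = x := by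
      intro x hx
      rw [hg', Equiv.Perm.mul_apply, Equiv.Perm.mul_apply]
      by_cases hxe : x = e
      · rw [hxe, swap_apply_right, swap_apply_of_ne_of_ne hac h2, hga]
      · by_cases hxf : x = f
        · rw [hxf, swap_apply_of_ne_of_ne (Ne.symm h2) (Ne.symm hef), swap_apply_right, hgc]
        · have hxM : x ∉ M := fun h => hx (by
            rw [hM', Finset.mem_erase, Finset.mem_erase]; exact ⟨hxf, hxe, h⟩)
          have hxa : x ≠ a := fun h => hxM (h ▸ haM)
          have hxc : x ≠ c := fun h => hxM (h ▸ hcM)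
          rw [swap_apply_of_ne_of_ne hxa hxe, swap_apply_of_ne_of_ne hxc hxf, hg x hxM]
    have hs' : Perm.sign g' = 1 := by
      rw [hg', Perm.sign_mul, Perm.sign_mul, hs, sign_swap hf, sign_swap he]; decide
    have hcard : M'.card < n := by
      rw [← hn]
      exact Finset.card_lt_card (Finset.ssubset_iff_subset_ne.mpr
        ⟨(Finset.erase_subset _ _).trans (Finset.erase_subset _ _), fun h => by
          have : e ∈ M' := h ▸ heM
          rw [hM', Finset.mem_erase, Finset.mem_erase] at this
          exact this.2.1 rfl⟩)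
    obtain ⟨u, v, hu, hv, huv⟩ := ih _ hcard ⟨a, haM'⟩ hfix hs' rfl
    have heM' : e ∉ M' := by
      rw [hM', Finset.mem_erase, Finset.mem_erase]; exact fun h => h.2.1 rfl
    have hfM' : f ∉ M' := by
      rw [hM', Finset.mem_erase]; exact fun h => h.1 rfl
    obtain ⟨k1, k2⟩ := t1_b hu hv (hv.mem haM') (hv.mem hcM') heM' hfM' hef
    have hins : insert f (insert e M') = M := by
      ext x
      rw [hM', Finset.mem_insert, Finset.mem_insert, Finset.mem_erase, Finset.mem_erase]
      constructor
      · rintro (rfl | rfl | h)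
        · exact hfM
        · exact heM
        · exact h.2.2
      · intro h
        by_cases hxf : x = f
        · exact Or.inl hxf
        · by_cases hxe : x = e
          · exact Or.inr (Or.inl hxe)
          · exact Or.inr (Or.inr ⟨hxf, hxe, h⟩)
    rw [hins] at k1 k2
    refine ⟨_, _, k1, k2, ?_⟩
    have e1 : swap (v c) f * v = v * swap c f := by
      rw [swap_mul_eq_mul_swap, hv.inv_fix hfM']; simp
    have e2 : swap (v a) e * v = v * swap a e := by
      rw [swap_mul_eq_mul_swap, hv.inv_fix heM']; simp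
    calc g = g' * swap a e * swap c f := by
          rw [hg']
          rw [mul_assoc (g * swap c f), swap_mul_self, mul_one, mul_assoc, swap_mul_self, mul_one]
      _ = u * (v * swap a e) * swap c f := by rw [huv]; simp only [mul_assoc]
      _ = u * swap (v a) e * (v * swap c f) := by rw [← e2]; simp only [mul_assoc]
      _ = u * swap (v a) e * (swap (v c) f * v) := by rw [e1]
      _ = u * swap (v a) e * swap e f * (swap f e * (swap (v c) f * v)) := by
          rw [swap_comm f e, mul_assoc _ (swap e f), ← mul_assoc (swap e f), swap_mul_self,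
            one_mul]
  · have hga : g a = e := by
      rw [hg0, Equiv.Perm.mul_apply, swap_apply_left, swap_apply_of_ne_of_ne (Ne.symm hae) hef]
    have hge : g e = f := by
      rw [hg0, Equiv.Perm.mul_apply, swap_apply_right, swap_apply_left]
    have hgf : g f = a := by
      rw [hg0, Equiv.Perm.mul_apply, swap_apply_of_ne_of_ne (Ne.symm haf) (Ne.symm hef),
        swap_apply_right]
    have haM : a ∈ M := hmem a (by rw [hga]; exact Ne.symm hae)
    have heM : e ∈ M := hmem e (by rw [hge]; exact Ne.symm hef)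
    have hfM : f ∈ M := hmem f (by rw [hgf]; exact haf)
    set M' := (M.erase e).erase f with hM'
    have haM' : a ∈ M' := by
      rw [hM', Finset.mem_erase, Finset.mem_erase]; exact ⟨haf, hae, haM⟩
    have heM' : e ∉ M' := by
      rw [hM', Finset.mem_erase, Finset.mem_erase]; exact fun h => h.2.1 rfl
    have hfM' : f ∉ M' := by
      rw [hM', Finset.mem_erase]; exact fun h => h.1 rfl
    obtain ⟨u, hu⟩ := exists_full M'
    have hv := hu.inv
    have hx := hv.mem haM'
    have k1 := (hu.insert_right hx hfM').insert_right (e := e) (Finset.mem_insert_self _ _)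
      (by rw [Finset.mem_insert, not_or]; exact ⟨hef, heM'⟩)
    have k2 := (hv.insert_left hx heM').insert_left (e := f) (Finset.mem_insert_self _ _)
      (by rw [Finset.mem_insert, not_or]; exact ⟨Ne.symm hef, hfM'⟩)
    have hins : insert e (insert f M') = M := by
      ext x
      rw [hM', Finset.mem_insert, Finset.mem_insert, Finset.mem_erase, Finset.mem_erase]
      constructor
      · rintro (rfl | rfl | h)
        · exact heM
        · exact hfM
        · exact h.2.2
      · intro h
        by_cases hxe : x = e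
        · exact Or.inl hxe
        · by_cases hxf : x = f
          · exact Or.inr (Or.inl hxf)
          · exact Or.inr (Or.inr ⟨hxf, hxe, h⟩)
    rw [Finset.insert_comm f e] at k2
    rw [hins] at k1 k2
    refine ⟨_, _, k1, k2, ?_⟩
    have e1 : swap (u⁻¹ a) e * u⁻¹ = u⁻¹ * swap a e := by
      rw [swap_mul_eq_mul_swap, hv.inv_fix heM']; simp
    have e2 : u * swap (u⁻¹ a) f = swap a f * u := by
      rw [mul_swap_eq_swap_mul, hu.2 f hfM', ai]
    calc g = swap a f * swap a e := hg0
      _ = swap a f * u * (u⁻¹ * swap a e) := by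
          rw [mul_assoc, ← mul_assoc u, mul_inv_cancel, one_mul]
      _ = u * swap (u⁻¹ a) f * (swap (u⁻¹ a) e * u⁻¹) := by rw [e1, e2]
      _ = u * swap (u⁻¹ a) f * swap f e * (swap e f * (swap (u⁻¹ a) e * u⁻¹)) := by
          rw [swap_comm e f, mul_assoc _ (swap f e), ← mul_assoc (swap f e), swap_mul_self,
            one_mul]


omit [DecidableEq α] [Fintype α] in
/-- covering condition passes to the permutation with the point `e` removed -/
theorem cov_step {g g1 : Perm α} {e : α} {T : Finset α} (he : e ∉ T)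
    (h1 : ∀ x, x ≠ e → g x ≠ e → g1 x = g x) (h2 : ∀ x, x ≠ e → g x = e → g1 x = g e) :
    ∀ (i : ℕ) (x : α), x ≠ e → (g ^ i) x ∈ T → ∃ j : ℕ, (g1 ^ j) x ∈ T := by
  intro i
  induction i using Nat.strong_induction_on with
  | _ i ih =>
  intro x hx hi
  rcases i with _ | k
  · exact ⟨0, by simpa using hi⟩
  · rw [pow_succ, Equiv.Perm.mul_apply] at hi
    by_cases hge : g x = e
    · rw [hge] at hi
      rcases k with _ | k
      · exact absurd (by simpa using hi) he
      · by_cases hee : g e = e
        · have : ∀ m : ℕ, (g ^ m) e = e := by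
            intro m
            induction m with
            | zero => rfl
            | succ m ihm => rw [pow_succ, Equiv.Perm.mul_apply, hee, ihm]
          rw [this] at hi
          exact absurd hi he
        · rw [pow_succ, Equiv.Perm.mul_apply] at hi
          obtain ⟨j, hj⟩ := ih k (by omega) (g e) hee hi
          refine ⟨j + 1, ?_⟩
          rw [pow_succ, Equiv.Perm.mul_apply, h2 x hx hge]
          exact hj
    · obtain ⟨j, hj⟩ := ih k (by omega) (g x) hge hi
      refine ⟨j + 1, ?_⟩
      rw [pow_succ, Equiv.Perm.mul_apply, h1 x hx hge]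
      exact hj

/-- a last point before `T` -/
theorem exists_last {M T : Finset α} {g : Perm α} (hg : ∀ x, x ∉ M → g x = x)
    (hc : ∀ x ∈ M, ∃ i : ℕ, (g ^ i) x ∈ T) (h : T.card < M.card) :
    ∃ e ∈ M, e ∉ T ∧ g e ∈ T := by
  classical
  obtain ⟨x, hxM, hxT⟩ : ∃ x ∈ M, x ∉ T := by
    by_contra h1
    push Not at h1
    exact absurd (Finset.card_le_card (fun x hx => h1 x hx)) (by omega)
  have hex := hc x hxM
  have hi := Nat.find_spec hex
  have hmin := fun m => Nat.find_min hex (m := m)
  set i := Nat.find hex with hidef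
  rcases hi0 : i with _ | k
  · rw [hi0] at hi
    exact absurd (by simpa using hi) hxT
  · rw [hi0] at hi hmin
    have hk := hmin k (by omega)
    have hgk : g ((g ^ k) x) ∈ T := by
      rw [pow_succ', Equiv.Perm.mul_apply] at hi; exact hi
    refine ⟨(g ^ k) x, ?_, hk, hgk⟩
    by_contra h2
    rw [hg _ h2] at hgk
    exact hk hgk

/-- (Claim 3) -/
theorem claim3 {M T : Finset α} {g : Perm α} (hg : ∀ x, x ∉ M → g x = x) (hT : T ⊆ M)
    (hTn : T.Nonempty) (hc : ∀ x ∈ M, ∃ i : ℕ, (g ^ i) x ∈ T) {a b : ℕ} (ha : a ≤ M.card)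
    (hb : b ≤ M.card) (hab : M.card + T.card ≤ a + b) (hs : Perm.sign g = (-1) ^ (a + b)) :
    ∃ (A B : Finset α) (u v : Perm α), T ⊆ A ∧ A ⊆ M ∧ A.card = a ∧ T ⊆ B ∧ B ⊆ M ∧ B.card = b ∧
      Full u A ∧ Full v B ∧ g = u * v := by
  induction hn : M.card using Nat.strong_induction_on generalizing M g a b with
  | _ n ih =>
  subst hn
  have hT0 : 1 ≤ T.card := hTn.card_pos
  by_cases hbM : b < M.card
  · obtain ⟨e, heM, heT, hgeT⟩ := exists_last hg hc (by omega)
    have hne : g e ≠ e := fun h => heT (h ▸ hgeT)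
    set g1 : Perm α := swap (g e) e * g with hg1
    have hg1e : g1 e = e := by rw [hg1, Equiv.Perm.mul_apply, swap_apply_left]
    have p1 : ∀ x, x ≠ e → g x ≠ e → g1 x = g x := by
      intro x hx hgx
      rw [hg1, Equiv.Perm.mul_apply, swap_apply_of_ne_of_ne (fun h => hx (g.injective h)) hgx]
    have p2 : ∀ x, x ≠ e → g x = e → g1 x = g e := by
      intro x hx hgx
      rw [hg1, Equiv.Perm.mul_apply, hgx, swap_apply_right]
    have hg1f : ∀ x, x ∉ M.erase e → g1 x = x := by
      intro x hx
      by_cases hxe : x = e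
      · rw [hxe, hg1e]
      · have hxM : x ∉ M := fun h => hx (Finset.mem_erase.mpr ⟨hxe, h⟩)
        rw [p1 x hxe (by rw [hg x hxM]; exact hxe), hg x hxM]
    have hTe : T ⊆ M.erase e := fun x hx =>
      Finset.mem_erase.mpr ⟨fun h => heT (h ▸ hx), hT hx⟩
    have hc1 : ∀ x ∈ M.erase e, ∃ i : ℕ, (g1 ^ i) x ∈ T := by
      intro x hx
      obtain ⟨hxe, hxM⟩ := Finset.mem_erase.mp hx
      obtain ⟨i, hi⟩ := hc x hxM
      exact cov_step heT p1 p2 i x hxe hi
    have hce : (M.erase e).card = M.card - 1 := Finset.card_erase_of_mem heM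
    have hs1 : Perm.sign g1 = (-1) ^ ((a - 1) + b) := by
      rw [hg1, Perm.sign_mul, sign_swap hne, hs]
      obtain ⟨a', rfl⟩ : ∃ a', a = a' + 1 := ⟨a - 1, by omega⟩
      rw [Nat.add_sub_cancel, show a' + 1 + b = (a' + b) + 1 by ring, pow_succ]
      simp
    obtain ⟨A, B, u, v, h1, h2, h3, h4, h5, h6, h7, h8, h9⟩ :=
      ih _ (by omega) hg1f hTe hc1 (a := a - 1) (b := b) (by omega) (by omega)
        (by omega) hs1 rfl
    have heA : e ∉ A := fun h => (Finset.mem_erase.mp (h2 h)).1 rfl
    refine ⟨insert e A, B, swap (g e) e * u, v, h1.trans (Finset.subset_insert _ _), ?_, ?_, h4,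
      h5.trans (Finset.erase_subset _ _), h6, h7.insert_left (h1 hgeT) heA, h8, ?_⟩
    · intro x hx
      rcases Finset.mem_insert.mp hx with rfl | hx
      · exact heM
      · exact (Finset.mem_erase.mp (h2 hx)).2
    · rw [Finset.card_insert_of_notMem heA, h3]; omega
    · rw [mul_assoc, ← h9, hg1, ← mul_assoc, swap_mul_self, one_mul]
  · have hbM' : b = M.card := by omega
    by_cases haM : a < M.card
    · obtain ⟨e, heM, heT⟩ : ∃ x ∈ M, x ∉ T := by
        by_contra h1
        push Not at h1
        exact absurd (Finset.card_le_card (fun x hx => h1 x hx)) (by omega)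
      set c := g⁻¹ e with hcdef
      have hgc : g c = e := ai g e
      have hce : c ≠ e := by
        intro h
        rw [h] at hgc
        obtain ⟨i, hi⟩ := hc e heM
        have : ∀ m : ℕ, (g ^ m) e = e := by
          intro m
          induction m with
          | zero => rfl
          | succ m ihm => rw [pow_succ, Equiv.Perm.mul_apply, hgc, ihm]
        rw [this] at hi
        exact heT hi
      have hcM : c ∈ M := by
        by_contra h
        exact hce ((hg c h).symm.trans hgc)
      set g1 : Perm α := g * swap c e with hg1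
      have hg1e : g1 e = e := by rw [hg1, Equiv.Perm.mul_apply, swap_apply_right, hgc]
      have p1 : ∀ x, x ≠ e → g x ≠ e → g1 x = g x := by
        intro x hx hgx
        rw [hg1, Equiv.Perm.mul_apply, swap_apply_of_ne_of_ne (fun h => hgx (by rw [h, hgc])) hx]
      have p2 : ∀ x, x ≠ e → g x = e → g1 x = g e := by
        intro x hx hgx
        have : x = c := g.injective (hgx.trans hgc.symm)
        rw [hg1, Equiv.Perm.mul_apply, this, swap_apply_left]
      have hg1f : ∀ x, x ∉ M.erase e → g1 x = x := by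
        intro x hx
        by_cases hxe : x = e
        · rw [hxe, hg1e]
        · have hxM : x ∉ M := fun h => hx (Finset.mem_erase.mpr ⟨hxe, h⟩)
          rw [p1 x hxe (by rw [hg x hxM]; exact hxe), hg x hxM]
      have hTe : T ⊆ M.erase e := fun x hx =>
        Finset.mem_erase.mpr ⟨fun h => heT (h ▸ hx), hT hx⟩
      have hc1 : ∀ x ∈ M.erase e, ∃ i : ℕ, (g1 ^ i) x ∈ T := by
        intro x hx
        obtain ⟨hxe, hxM⟩ := Finset.mem_erase.mp hx
        obtain ⟨i, hi⟩ := hc x hxM
        exact cov_step heT p1 p2 i x hxe hi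
      have hcard : (M.erase e).card = M.card - 1 := Finset.card_erase_of_mem heM
      have hs1 : Perm.sign g1 = (-1) ^ (a + (b - 1)) := by
        rw [hg1, Perm.sign_mul, sign_swap hce, hs]
        obtain ⟨b', rfl⟩ : ∃ b', b = b' + 1 := ⟨b - 1, by omega⟩
        rw [Nat.add_sub_cancel, ← add_assoc, pow_succ]
        simp
      obtain ⟨A, B, u, v, h1, h2, h3, h4, h5, h6, h7, h8, h9⟩ :=
        ih _ (by omega) hg1f hTe hc1 (a := a) (b := b - 1) (by omega) (by omega)
          (by omega) hs1 rfl
      have hB : B = M.erase e := Finset.eq_of_subset_of_card_le h5 (by omega)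
      have heB : e ∉ B := fun h => (Finset.mem_erase.mp (h5 h)).1 rfl
      have hcB : c ∈ B := by rw [hB]; exact Finset.mem_erase.mpr ⟨hce, hcM⟩
      refine ⟨A, insert e B, u, v * swap c e, h1, h2.trans (Finset.erase_subset _ _), h3,
        h4.trans (Finset.subset_insert _ _), ?_, ?_, h7, h8.insert_right hcB heB, ?_⟩
      · intro x hx
        rcases Finset.mem_insert.mp hx with rfl | hx
        · exact heM
        · exact (Finset.mem_erase.mp (h5 hx)).2
      · rw [Finset.card_insert_of_notMem heB, h6]; omega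
      · rw [← mul_assoc, ← h9, hg1, mul_assoc, swap_mul_self, mul_one]
    · have haM' : a = M.card := by omega
      have hs0 : Perm.sign g = 1 := by
        rw [hs, haM', hbM', ← two_mul, pow_mul]; simp
      obtain ⟨u, v, hu, hv, huv⟩ := t1 (hTn.mono hT) hg hs0
      exact ⟨M, M, u, v, hT, Finset.Subset.refl _, haM'.symm, hT, Finset.Subset.refl _,
        hbM'.symm, hu, hv, huv⟩

end Pool.Agent.PDA
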