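import Pool.Agent.PDA.Full

/-!
# Alternating groups, intransitive point stabilisers (helper60)
-/

set_option autoImplicit false

namespace Pool.Agent.PDA

open Equiv Equiv.Perm Finset

/-- an element which preserves no set of size `|S|` is a derangement -/
theorem der_of_sets {n : ℕ} {Ω : Type*} [MulAction (alternatingGroup (Fin n)) Ω]
    [MulAction.IsPretransitive (alternatingGroup (Fin n)) Ω] (w : Ω) (S : Finset (Fin n))
    (hinv : ∀ h ∈ MulAction.stabilizer (alternatingGroup (Fin n)) w, ∀ i ∈ S,
      (h : Perm (Fin n)) i ∈ S) (x : alternatingGroup (Fin n))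
    (hx : ∀ S' : Finset (Fin n), S'.card = S.card → ¬ ∀ i ∈ S', (x : Perm (Fin n)) i ∈ S') : ∀ z : Ω, x • z ≠ z := by
  intro z hz
  obtain ⟨c, hc⟩ := MulAction.exists_smul_eq (alternatingGroup (Fin n)) w z
  have h1 : c⁻¹ * x * c ∈ MulAction.stabilizer (alternatingGroup (Fin n)) w := by
    rw [MulAction.mem_stabilizer_iff, mul_smul, mul_smul, hc, hz, ← hc, inv_smul_smul]
  have h2 := hinv _ h1
  refine hx (S.map (c : Perm (Fin n)).toEmbedding) (Finset.card_map _) ?_
  intro i hi
  obtain ⟨j, hj, rfl⟩ := Finset.mem_map.1 hi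
  refine Finset.mem_map.2 ⟨_, h2 j hj, ?_⟩
  show (c : Perm (Fin n)) (((c⁻¹ * x * c : alternatingGroup (Fin n)) : Perm (Fin n)) j) = (x : Perm (Fin n)) ((c : Perm (Fin n)) j)
  have e : ((c⁻¹ * x * c : alternatingGroup (Fin n)) : Perm (Fin n)) = (c : Perm (Fin n))⁻¹ * (x : Perm (Fin n)) * (c : Perm (Fin n)) := rfl
  rw [e, ← Perm.mul_apply, mul_assoc, mul_inv_cancel_left, Perm.mul_apply]

/-- a set preserved by a full cycle which meets its support contains the support -/
theorem Full.subset_of {α : Type*} [DecidableEq α] [Fintype α] {u : Perm α} {A S : Finset α} (h : Full u A) (hu : ∀ i ∈ S, u i ∈ S)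
    {i : α} (hi : i ∈ S) (hA : i ∈ A) : A ⊆ S := by
  intro j hj
  obtain ⟨k, hk⟩ := (h.1.2 hA hj).exists_nat_pow_eq
  rw [← hk]
  clear hk
  induction k with
  | zero => exact hi
  | succ k ih => rw [pow_succ', Perm.mul_apply]; exact hu _ ih

/-- a full cycle moves every point of its support -/
theorem Full.ne {α : Type*} [DecidableEq α] [Fintype α] {u : Perm α} {A : Finset α} (h : Full u A) (hA : 2 ≤ A.card)
    {i : α} (hi : i ∈ A) : u i ≠ i := by
  intro hh
  have h1 : A ⊆ {i} := by
    refine h.subset_of (S := {i}) ?_ (Finset.mem_singleton_self _) hi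
    intro j hj
    rw [Finset.mem_singleton] at hj ⊢
    rw [hj, hh]
  have := Finset.card_le_card h1
  rw [Finset.card_singleton] at this
  omega

/-- a set of two points whose complement meets every cycle of a nontrivial even permutation -/
theorem exists_two {n : ℕ} (g : Perm (Fin n)) (hg : Perm.sign g = 1) (h1 : g ≠ 1) :
    ∃ b d : Fin n, b ≠ d ∧ ∀ x : Fin n, ∃ i : ℕ, (g ^ i) x ∈ ((univ.erase b).erase d : Finset (Fin n)) := by
  obtain ⟨a, ha⟩ : ∃ a, g a ≠ a := by
    by_contra hcon
    push Not at hcon
    exact h1 (Equiv.ext hcon)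
  have back : ∀ y z : Fin n, g y = z → ∃ i : ℕ, (g ^ i) z = y := by
    intro y z hyz
    have : g.SameCycle z y := by
      rw [← hyz]
      exact (sameCycle_apply_left (f := g)).2 (SameCycle.refl _ _)
    exact this.exists_nat_pow_eq
  have mem : ∀ {b d x : Fin n}, x ≠ b → x ≠ d → x ∈ ((univ.erase b).erase d : Finset (Fin n)) := by
    intro b d x h1 h2
    exact Finset.mem_erase.2 ⟨h2, Finset.mem_erase.2 ⟨h1, Finset.mem_univ _⟩⟩
  by_cases hb : g (g a) = a
  · -- two-cycle
    obtain ⟨c, hca, hcb, hcc⟩ : ∃ c, c ≠ a ∧ c ≠ g a ∧ g c ≠ c := by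
      by_contra hcon
      push Not at hcon
      have hgs : g = swap a (g a) := by
        ext x
        by_cases hxa : x = a
        · rw [hxa, swap_apply_left]
        · by_cases hxb : x = g a
          · rw [hxb, swap_apply_right, hb]
          · rw [swap_apply_of_ne_of_ne hxa hxb, hcon x hxa hxb]
      rw [hgs, sign_swap (Ne.symm ha)] at hg
      exact absurd hg (by decide)
    have hbd : g a ≠ g c := fun h => hca (g.injective h).symm
    refine ⟨g a, g c, hbd, ?_⟩
    intro x
    by_cases hx1 : x = g a
    · obtain ⟨i, hi⟩ := back a x hx1.symm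
      refine ⟨i, ?_⟩
      rw [hi]
      refine mem (Ne.symm ha) ?_
      intro h
      have h3 : g a = c := g.injective (hb.trans h)
      exact hcb h3.symm
    · by_cases hx2 : x = g c
      · obtain ⟨i, hi⟩ := back c x hx2.symm
        refine ⟨i, ?_⟩
        rw [hi]
        exact mem hcb (Ne.symm hcc)
      · exact ⟨0, mem hx1 hx2⟩
  · have hbb : g (g a) ≠ g a := fun h => ha (g.injective h)
    refine ⟨g a, g (g a), Ne.symm hbb, ?_⟩
    intro x
    obtain ⟨i, hi⟩ := back a (g a) rfl
    obtain ⟨j, hj⟩ := back (g a) (g (g a)) rfl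
    have hm : a ∈ ((univ.erase (g a)).erase (g (g a)) : Finset (Fin n)) := mem (Ne.symm ha) (Ne.symm hb)
    by_cases hx1 : x = g a
    · exact ⟨i, by rw [hx1, hi]; exact hm⟩
    · by_cases hx2 : x = g (g a)
      · refine ⟨i + j, ?_⟩
        rw [hx2, pow_add, Perm.mul_apply, hj, hi]
        exact hm
      · exact ⟨0, mem hx1 hx2⟩

/-- module Pool.Agent.PDA.Intr -/
theorem intr {n : ℕ} (hn : 5 ≤ n) {Ω : Type*} [MulAction (alternatingGroup (Fin n)) Ω]
    [MulAction.IsPretransitive (alternatingGroup (Fin n)) Ω] (w : Ω) (S : Finset (Fin n))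
    (hS : S.Nonempty) (hS' : S ≠ univ)
    (hinv : ∀ h ∈ MulAction.stabilizer (alternatingGroup (Fin n)) w, ∀ i ∈ S,
      (h : Perm (Fin n)) i ∈ S) (g : alternatingGroup (Fin n)) :
    ∃ x y : alternatingGroup (Fin n), (∀ z : Ω, x • z ≠ z) ∧ (∀ z : Ω, y • z ≠ z) ∧
      x * y = g := by
  have hgs : Perm.sign (g : Perm (Fin n)) = 1 := mem_alternatingGroup.1 g.2
  have hS1 : 1 ≤ S.card := Finset.card_pos.2 hS
  have hS2 : S.card < n := by
    have := Finset.card_lt_univ_of_notMem (s := S) (x := (by
      have : ∃ x, x ∉ S := by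
        by_contra hcon
        push Not at hcon
        exact hS' (Finset.eq_univ_iff_forall.2 hcon)
      exact this.choose)) (by
      have : ∃ x, x ∉ S := by
        by_contra hcon
        push Not at hcon
        exact hS' (Finset.eq_univ_iff_forall.2 hcon)
      exact this.choose_spec)
    rwa [Fintype.card_fin] at this
  -- conclusion from permutations
  have concl : ∀ x y : Perm (Fin n), Perm.sign x = 1 → Perm.sign y = 1 →
      (∀ S' : Finset (Fin n), S'.card = S.card → ¬ ∀ i ∈ S', x i ∈ S') →
      (∀ S' : Finset (Fin n), S'.card = S.card → ¬ ∀ i ∈ S', y i ∈ S') → (g : Perm (Fin n)) = x * y →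
      ∃ x y : alternatingGroup (Fin n), (∀ z : Ω, x • z ≠ z) ∧ (∀ z : Ω, y • z ≠ z) ∧ x * y = g := by
    intro x y hx hy h1 h2 h3
    refine ⟨⟨x, mem_alternatingGroup.2 hx⟩, ⟨y, mem_alternatingGroup.2 hy⟩, der_of_sets w S hinv _ h1, der_of_sets w S hinv _ h2, ?_⟩
    apply Subtype.ext
    exact h3.symm
  have huniv : (univ : Finset (Fin n)).Nonempty := ⟨⟨0, by omega⟩, Finset.mem_univ _⟩
  have hcu : (univ : Finset (Fin n)).card = n := by rw [Finset.card_univ, Fintype.card_fin]
  obtain ⟨u, v, hu, hv, huv⟩ := t1 huniv (g := (g : Perm (Fin n))) (fun x hx => absurd (Finset.mem_univ x) hx) hgs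
  rcases Nat.even_or_odd n with hev | hodd
  · by_cases hS3 : 2 ≤ S.card ∧ S.card ≤ n - 2
    · -- cycles of length `n - 1`
      have hset : ∀ (x : Perm (Fin n)) (A : Finset (Fin n)), Full x A → A.card = n - 1 →
          ∀ S' : Finset (Fin n), S'.card = S.card → ¬ ∀ i ∈ S', x i ∈ S' := by
        intro x A hx hA S' hS' hcon
        have h1 : ∃ i ∈ S', i ∈ A := by
          by_contra hno
          push Not at hno
          have hd : Disjoint S' A := Finset.disjoint_left.2 hno
          have := Finset.card_union_of_disjoint hd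
          have h2 := Finset.card_le_univ (S' ∪ A)
          rw [Fintype.card_fin] at h2
          omega
        obtain ⟨i, hi, hiA⟩ := h1
        have := Finset.card_le_card (hx.subset_of hcon hi hiA)
        omega
      have hsgn : ∀ (x : Perm (Fin n)) (A : Finset (Fin n)), Full x A → A.card = n - 1 → Perm.sign x = 1 := by
        intro x A hx hA
        have hne : A.Nonempty := by
          rw [← Finset.card_pos]; omega
        rw [hx.sign hne, hA, show n - 1 + 1 = n by omega]
        exact hev.neg_one_pow
      by_cases hg1 : (g : Perm (Fin n)) = 1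
      · have hc : (univ.erase (⟨0, by omega⟩ : Fin n)).card = n - 1 := by
          rw [Finset.card_erase_of_mem (Finset.mem_univ _), hcu]
        obtain ⟨u', v', hu', hv', huv'⟩ := t1 (M := univ.erase (⟨0, by omega⟩ : Fin n)) (by
          rw [← Finset.card_pos]; omega) (g := (g : Perm (Fin n))) (fun x _ => by rw [hg1]; rfl) hgs
        exact concl u' v' (hsgn _ _ hu' hc) (hsgn _ _ hv' hc) (hset _ _ hu' hc) (hset _ _ hv' hc) huv'
      · obtain ⟨b, d, hbd, hT⟩ := exists_two (g : Perm (Fin n)) hgs hg1
        have hcT : ((univ.erase b).erase d : Finset (Fin n)).card = n - 2 := by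
          rw [Finset.card_erase_of_mem (Finset.mem_erase.2 ⟨Ne.symm hbd, Finset.mem_univ _⟩), Finset.card_erase_of_mem (Finset.mem_univ _), hcu]
          omega
        obtain ⟨A, B, u', v', -, -, hA, -, -, hB, hu', hv', huv'⟩ := claim3 (M := univ) (T := (univ.erase b).erase d) (g := (g : Perm (Fin n)))
          (fun x hx => absurd (Finset.mem_univ x) hx) (Finset.subset_univ _) (by rw [← Finset.card_pos]; omega) (fun x _ => hT x)
          (a := n - 1) (b := n - 1) (by omega) (by omega) (by omega) (by
            rw [hgs]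
            exact (Even.neg_one_pow ⟨n - 1, rfl⟩).symm)
        exact concl u' v' (hsgn _ _ hu' hA) (hsgn _ _ hv' hB) (hset _ _ hu' hA) (hset _ _ hv' hB) huv'
    · -- permutations without fixed points
      have hset : ∀ x : Perm (Fin n), (∀ i, x i ≠ i) → ∀ S' : Finset (Fin n), S'.card = S.card → ¬ ∀ i ∈ S', x i ∈ S' := by
        intro x hx S' hS' hcon
        have h1 : S.card = 1 ∨ S.card = n - 1 := by omega
        rcases h1 with h1 | h1
        · rw [h1] at hS'
          obtain ⟨a, rfl⟩ := Finset.card_eq_one.1 hS'
          exact hx a (Finset.mem_singleton.1 (hcon a (Finset.mem_singleton_self _)))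
        · have hc : (S'ᶜ).card = 1 := by
            rw [Finset.card_compl, Fintype.card_fin]; omega
          obtain ⟨a, ha⟩ := Finset.card_eq_one.1 hc
          have himg : S'.image x = S' := by
            apply Finset.eq_of_subset_of_card_le
            · intro y hy
              obtain ⟨i, hi, rfl⟩ := Finset.mem_image.1 hy
              exact hcon i hi
            · rw [Finset.card_image_of_injective _ x.injective]
          have haS : a ∉ S' := by
            rw [← Finset.mem_compl, ha]; exact Finset.mem_singleton_self _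
          have hxa : x a ∉ S' := by
            intro h
            rw [← himg] at h
            obtain ⟨i, hi, hia⟩ := Finset.mem_image.1 h
            rw [x.injective hia] at hi
            exact haS hi
          rw [← Finset.mem_compl, ha, Finset.mem_singleton] at hxa
          exact hx a hxa
      have hn6 : 6 ≤ n := by
        obtain ⟨k, hk⟩ := hev
        omega
      have hsu : Perm.sign u = -1 := by
        rw [hu.sign huniv, hcu]
        exact hev.add_one.neg_one_pow
      have hsv : Perm.sign v = -1 := by
        rw [hv.sign huniv, hcu]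
        exact hev.add_one.neg_one_pow
      let i : Fin n := ⟨0, by omega⟩
      obtain ⟨j, hj⟩ : ∃ j : Fin n, j ∉ ({i, u i, u⁻¹ i, v i, v⁻¹ i} : Finset (Fin n)) := by
        by_contra hcon
        push Not at hcon
        have h1 := Finset.card_le_card (fun x (_ : x ∈ (univ : Finset (Fin n))) => hcon x)
        have h2 : ({i, u i, u⁻¹ i, v i, v⁻¹ i} : Finset (Fin n)).card ≤ 5 := Finset.card_le_five
        omega
      simp only [Finset.mem_insert, Finset.mem_singleton, not_or] at hj
      obtain ⟨hji, hj1, hj2, hj3, hj4⟩ := hj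
      have hiu : ∀ k, u k ≠ k := fun k => hu.ne (by omega) (Finset.mem_univ _)
      have hiv : ∀ k, v k ≠ k := fun k => hv.ne (by omega) (Finset.mem_univ _)
      refine concl (u * swap i j) (swap i j * v) ?_ ?_ (hset _ ?_) (hset _ ?_) ?_
      · rw [Perm.sign_mul, hsu, sign_swap (Ne.symm hji)]; decide
      · rw [Perm.sign_mul, hsv, sign_swap (Ne.symm hji)]; decide
      · intro k
        rw [Perm.mul_apply]
        by_cases hk : k = i
        · rw [hk, swap_apply_left]
          intro h
          apply hj2
          rw [Perm.eq_inv_iff_eq, h]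
        · by_cases hk' : k = j
          · rw [hk', swap_apply_right]
            exact Ne.symm hj1
          · rw [swap_apply_of_ne_of_ne hk hk']
            exact hiu k
      · intro k h
        rw [Perm.mul_apply] at h
        have h1 : v k = swap i j k := by
          have := congrArg (swap i j) h
          rwa [swap_apply_self] at this
        by_cases hk : k = i
        · rw [hk, swap_apply_left] at h1
          exact hj3 h1.symm
        · by_cases hk' : k = j
          · rw [hk', swap_apply_right] at h1
            apply hj4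
            rw [Perm.eq_inv_iff_eq, h1]
          · rw [swap_apply_of_ne_of_ne hk hk'] at h1
            exact hiv k h1
      · rw [mul_assoc, ← mul_assoc (swap i j) (swap i j), swap_mul_self, one_mul, huv]
  · -- `n`-cycles
    have hset : ∀ x : Perm (Fin n), Full x univ → ∀ S' : Finset (Fin n), S'.card = S.card → ¬ ∀ i ∈ S', x i ∈ S' := by
      intro x hx S' hS' hcon
      obtain ⟨i, hi⟩ : S'.Nonempty := by
        rw [← Finset.card_pos]; omega
      have := Finset.card_le_card (hx.subset_of hcon hi (Finset.mem_univ _))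
      omega
    have hsu : Perm.sign u = 1 := by
      rw [hu.sign huniv, hcu]
      exact hodd.add_one.neg_one_pow
    have hsv : Perm.sign v = 1 := by
      rw [hv.sign huniv, hcu]
      exact hodd.add_one.neg_one_pow
    exact concl u v hsu hsv (hset u hu) (hset v hv) huv

end Pool.Agent.PDA
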