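import Mathlib

/-!
# Jordan's theorem on primitive groups with a cycle of prime length (Wielandt 13.9) (helper26)
-/

set_option autoImplicit false

namespace Pool.Agent.AN

open Equiv Equiv.Perm MulAction SubMulAction

open scoped Pointwise

theorem aii {β : Type*} (σ : Perm β) (x : β) : σ (σ⁻¹ x) = x := σ.apply_symm_apply x

/-- elements of prime order `p` are conjugate up to powers when `p ^ 2` does not divide the order -/
theorem conj_of_card {G : Type*} [Group G] [Finite G] {p : ℕ} (hp : p.Prime) (hc : ¬ p ^ 2 ∣ Nat.card G)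
    (a b : G) (ha : orderOf a = p) (hb : orderOf b = p) : ∃ t : G, t * b * t⁻¹ ∈ Subgroup.zpowers a := by
  haveI : Fact p.Prime := ⟨hp⟩
  have hd : p ^ 1 ∣ Nat.card G := by
    rw [pow_one, ← ha]
    exact orderOf_dvd_natCard a
  have hf : (Nat.card G).factorization p = 1 := by
    have h0 : Nat.card G ≠ 0 := Nat.card_pos.ne'
    have h1 := (hp.pow_dvd_iff_le_factorization h0).1 hd
    have h2 : ¬ 2 ≤ (Nat.card G).factorization p := fun h => hc ((hp.pow_dvd_iff_le_factorization h0).2 h)
    omega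
  let P : Sylow p G := Sylow.ofCard (Subgroup.zpowers a) (by rw [hf, pow_one, Nat.card_zpowers, ha])
  let Q : Sylow p G := Sylow.ofCard (Subgroup.zpowers b) (by rw [hf, pow_one, Nat.card_zpowers, hb])
  obtain ⟨t, ht⟩ := MulAction.exists_smul_eq G Q P
  refine ⟨t, ?_⟩
  have h1 : MulAut.conj t • b ∈ MulAut.conj t • (Q : Subgroup G) :=
    Subgroup.smul_mem_pointwise_smul b (MulAut.conj t) (Q : Subgroup G) (Subgroup.mem_zpowers b)
  rw [← Sylow.coe_subgroup_smul, ht] at h1
  exact h1

variable {α : Type*} [Fintype α] [DecidableEq α]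

theorem multi {G : Subgroup (Perm α)} (hG : IsPreprimitive G α) {p : ℕ} (hp : p.Prime)
    (hp1 : p + 1 ≤ Fintype.card α) {g : Perm α} (hgc : g.IsCycle) (hgp : g.support.card = p) (hg : g ∈ G) :
    IsMultiplyPretransitive G α (g.supportᶜ : Finset α).card := by
  classical
  obtain ⟨n, hn⟩ : ∃ n, Fintype.card α = p + (n + 1) := ⟨Fintype.card α - p - 1, by omega⟩
  have hcard : (g.supportᶜ : Finset α).card = n + 1 := by
    rw [Finset.card_compl, hgp, hn]; omega
  have h1 : IsMultiplyPreprimitive G α (n + 2) := by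
    apply hG.isMultiplyPreprimitive (s := (g.supportᶜ : Set α))
    · have e : ((g.support : Set α)ᶜ) = ((g.supportᶜ : Finset α) : Set α) := by
        rw [Finset.coe_compl]
      rw [e, Set.ncard_coe_finset, hcard]
    · rw [Nat.card_eq_fintype_card, hn]
      have := hp.two_le
      omega
    · have := isPretransitive_of_isCycle_mem hgc hg
      apply IsPreprimitive.of_prime_card
      convert hp
      rw [Nat.card_eq_fintype_card, Fintype.card_subtype, ← hgp]
      apply congr_arg
      ext x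
      simp [SubMulAction.mem_ofFixingSubgroup_iff]
  have h2 : IsMultiplyPretransitive G α (n + 2) := h1.isMultiplyPretransitive
  rw [hcard]
  exact isMultiplyPretransitive_of_le (n := n + 2) (by omega) (by
    rw [Nat.card_eq_fintype_card, hn]
    have := hp.two_le
    omega)

/-- the group of elements fixing the complement of the support of `g` -/
theorem card_fix {S : Subgroup (Perm α)} {p : ℕ} (hp : p.Prime) {g : Perm α} (hgp : g.support.card = p)
    (hS : ∀ s ∈ S, ∀ d, d ∉ g.support → s d = d) : ¬ p ^ 2 ∣ Nat.card S := by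
  have hinv : ∀ s ∈ S, ∀ x, s x ∈ g.support ↔ x ∈ g.support := by
    intro s hs x
    constructor
    · intro h
      by_contra hx
      rw [hS s hs x hx] at h
      exact hx h
    · intro h
      by_contra hx
      have := hS s hs (s x) hx
      have h2 := s.injective this
      rw [h2] at hx
      exact hx h
  let f : S →* Perm {x // x ∈ g.support} :=
    { toFun := fun s => Equiv.Perm.subtypePerm s.1 (hinv s.1 s.2)
      map_one' := by ext x; rfl
      map_mul' := fun s t => by ext x; rfl }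
  have hf : Function.Injective f := by
    intro s t hst
    apply Subtype.ext
    ext x
    by_cases hx : x ∈ g.support
    · have h1 := DFunLike.congr_fun hst ⟨x, hx⟩
      exact congrArg Subtype.val h1
    · rw [hS s.1 s.2 x hx, hS t.1 t.2 x hx]
  have h1 : Nat.card S ∣ Nat.card (Perm {x // x ∈ g.support}) := Subgroup.card_dvd_of_injective f hf
  have h2 : Nat.card (Perm {x // x ∈ g.support}) = p.factorial := by
    rw [Nat.card_perm, Nat.card_eq_fintype_card, Fintype.card_coe, hgp]
  intro h3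
  have h4 : p ^ 2 ∣ p.factorial := by rw [← h2]; exact h3.trans h1
  obtain ⟨q, hq⟩ : ∃ q, p = q + 1 := ⟨p - 1, by have := hp.pos; omega⟩
  have h5 : p.factorial = p * q.factorial := by
    rw [hq, Nat.factorial_succ]
  rw [h5, pow_two] at h4
  have h6 : p ∣ q.factorial := Nat.dvd_of_mul_dvd_mul_left hp.pos h4
  have h7 := (hp.dvd_factorial).1 h6
  omega

theorem lift {G : Subgroup (Perm α)} {p : ℕ} (hp : p.Prime) {g : Perm α} (hgc : g.IsCycle)
    (hgp : g.support.card = p) (hg : g ∈ G) [hm : IsMultiplyPretransitive G α (g.supportᶜ : Finset α).card]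
    (σ : Perm α) (hσ : ∀ x ∈ g.support, σ x = x) :
    ∃ y ∈ G, (∀ d, d ∉ g.support → y d = σ d) ∧ y * g * y⁻¹ ∈ Subgroup.zpowers g := by
  let e : Fin (g.supportᶜ : Finset α).card ↪ α :=
    ((g.supportᶜ : Finset α).equivFin.symm.toEmbedding).trans (Function.Embedding.subtype _)
  obtain ⟨x, hx⟩ := MulAction.exists_smul_eq G e (e.trans σ.toEmbedding)
  have hx1 : ∀ d, d ∉ g.support → (x : Perm α) d = σ d := by
    intro d hd
    have hd' : d ∈ (g.supportᶜ : Finset α) := Finset.mem_compl.2 hd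
    have h1 := DFunLike.congr_fun hx ((g.supportᶜ : Finset α).equivFin ⟨d, hd'⟩)
    have h2 : e ((g.supportᶜ : Finset α).equivFin ⟨d, hd'⟩) = d := by
      show (((g.supportᶜ : Finset α).equivFin.symm ((g.supportᶜ : Finset α).equivFin ⟨d, hd'⟩)) : α) = d
      rw [Equiv.symm_apply_apply]
    have h3 : (x : Perm α) (e ((g.supportᶜ : Finset α).equivFin ⟨d, hd'⟩)) =
        σ (e ((g.supportᶜ : Finset α).equivFin ⟨d, hd'⟩)) := h1
    rwa [h2] at h3
  have hσ' : ∀ d, d ∉ g.support → σ⁻¹ d ∉ g.support := by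
    intro d hd h
    have h1 := hσ _ h
    rw [aii] at h1
    rw [← h1] at h
    exact hd h
  have hσ'' : ∀ d, d ∉ g.support → σ d ∉ g.support := by
    intro d hd h
    have h1 := hσ _ h
    have h2 := σ.injective h1
    rw [h2] at h
    exact hd h
  let S : Subgroup (Perm α) := G ⊓ fixingSubgroup (Perm α) {d : α | d ∉ g.support}
  have hS : ∀ s ∈ S, ∀ d, d ∉ g.support → s d = d := by
    intro s hs d hd
    exact (mem_fixingSubgroup_iff (Perm α)).1 hs.2 d hd
  have hSmem : ∀ s, s ∈ G → (∀ d, d ∉ g.support → s d = d) → s ∈ S := by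
    intro s hs h
    exact ⟨hs, (mem_fixingSubgroup_iff (Perm α)).2 h⟩
  have hgS : g ∈ S := hSmem g hg (fun d hd => by rwa [Perm.notMem_support] at hd)
  have hg'S : (x : Perm α) * g * (x : Perm α)⁻¹ ∈ S := by
    apply hSmem
    · exact G.mul_mem (G.mul_mem x.2 hg) (G.inv_mem x.2)
    · intro d hd
      have h1 : (x : Perm α) (σ⁻¹ d) = d := by
        rw [hx1 _ (hσ' d hd), aii]
      have h2 : (x : Perm α)⁻¹ d = σ⁻¹ d := by
        rw [Perm.inv_eq_iff_eq, h1]
      have h3 : g (σ⁻¹ d) = σ⁻¹ d := Perm.notMem_support.1 (hσ' d hd)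
      rw [Perm.mul_apply, Perm.mul_apply, h2, h3, h1]
  have ho : orderOf g = p := by rw [hgc.orderOf, hgp]
  have ho' : orderOf ((x : Perm α) * g * (x : Perm α)⁻¹) = p := by
    have := MulEquiv.orderOf_eq (MulAut.conj (x : Perm α)) g
    rw [MulAut.conj_apply] at this
    rw [this, ho]
  obtain ⟨t, ht⟩ := conj_of_card hp (card_fix hp hgp hS) (⟨g, hgS⟩ : S) ⟨_, hg'S⟩
    (by rw [Subgroup.orderOf_mk, ho]) (by rw [Subgroup.orderOf_mk, ho'])
  obtain ⟨k, hk⟩ := Subgroup.mem_zpowers_iff.1 ht
  refine ⟨t.1 * x.1, G.mul_mem t.2.1 x.2, ?_, ?_⟩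
  · intro d hd
    rw [Perm.mul_apply, hx1 d hd, hS t.1 t.2 _ (hσ'' d hd)]
  · refine Subgroup.mem_zpowers_iff.2 ⟨k, ?_⟩
    have h1 := congrArg Subtype.val hk
    have h2 : (t.1 : Perm α) * x.1 * g * ((t.1 : Perm α) * x.1)⁻¹ = t.1 * (x.1 * g * x.1⁻¹) * (t.1)⁻¹ := by group
    rw [h2]
    exact h1

theorem commute_of {G : Type*} [Group G] {g y z : G} (hy : y * g * y⁻¹ ∈ Subgroup.zpowers g)
    (hz : z * g * z⁻¹ ∈ Subgroup.zpowers g) : Commute ((z * y)⁻¹ * (y * z)) g := by
  obtain ⟨a, ha⟩ := Subgroup.mem_zpowers_iff.1 hy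
  obtain ⟨b, hb⟩ := Subgroup.mem_zpowers_iff.1 hz
  have h1 : y * z * g * (y * z)⁻¹ = g ^ (a * b) := by
    have : y * z * g * (y * z)⁻¹ = y * (z * g * z⁻¹) * y⁻¹ := by group
    rw [this, ← hb]
    have h2 : y * g ^ b * y⁻¹ = (y * g * y⁻¹) ^ b := by
      rw [conj_zpow]
    rw [h2, ← ha, zpow_mul]
  have h3 : z * y * g * (z * y)⁻¹ = g ^ (a * b) := by
    have : z * y * g * (z * y)⁻¹ = z * (y * g * y⁻¹) * z⁻¹ := by group
    rw [this, ← ha]
    have h2 : z * g ^ a * z⁻¹ = (z * g * z⁻¹) ^ a := by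
      rw [conj_zpow]
    rw [h2, ← hb, ← zpow_mul, mul_comm]
  have h4 : (z * y)⁻¹ * (y * z) * g = g * ((z * y)⁻¹ * (y * z)) := by
    have h5 : y * z * g * (y * z)⁻¹ = z * y * g * (z * y)⁻¹ := by rw [h1, h3]
    have h6 : y * z * g = z * y * g * (z * y)⁻¹ * (y * z) := by
      rw [← h5]; group
    calc (z * y)⁻¹ * (y * z) * g = (z * y)⁻¹ * (y * z * g) := by group
      _ = (z * y)⁻¹ * (z * y * g * (z * y)⁻¹ * (y * z)) := by rw [h6]
      _ = g * ((z * y)⁻¹ * (y * z)) := by group
  exact h4

/-- **Jordan's theorem**, Wielandt 13.9: a primitive group which contains a cycle of prime length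
with at least three fixed points contains the alternating group -/
theorem jordan {G : Subgroup (Perm α)} (hG : IsPreprimitive G α) {p : ℕ} (hp : p.Prime)
    (hp3 : p + 3 ≤ Fintype.card α) {g : Perm α} (hgc : g.IsCycle) (hgp : g.support.card = p) (hg : g ∈ G) :
    alternatingGroup α ≤ G := by
  by_cases h3 : p = 3
  · subst h3
    exact Equiv.Perm.alternatingGroup_le_of_isPreprimitive_of_isThreeCycle_mem hG
      (card_support_eq_three_iff.1 hgp) hg
  have hm := multi hG hp (by omega) hgc hgp hg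
  have hcard : 3 ≤ (g.supportᶜ : Finset α).card := by
    rw [Finset.card_compl, hgp]; omega
  obtain ⟨a, b, c, ha, hb, hc, hab, hac, hbc⟩ := Finset.two_lt_card_iff.1 (by omega : 2 < (g.supportᶜ : Finset α).card)
  rw [Finset.mem_compl] at ha hb hc
  have hs : ∀ u v : α, u ∉ g.support → v ∉ g.support → ∀ x ∈ g.support, swap u v x = x := by
    intro u v hu hv x hx
    apply swap_apply_of_ne_of_ne
    · rintro rfl; exact hu hx
    · rintro rfl; exact hv hx
  obtain ⟨y, hyG, hy1, hy2⟩ := lift hp hgc hgp hg (swap a b) (hs a b ha hb)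
  obtain ⟨z, hzG, hz1, hz2⟩ := lift hp hgc hgp hg (swap a c) (hs a c ha hc)
  have hcomm := commute_of hy2 hz2
  set w : Perm α := (z * y)⁻¹ * (y * z) with hw
  have hwG : w ∈ G := G.mul_mem (G.inv_mem (G.mul_mem hzG hyG)) (G.mul_mem hyG hzG)
  let τ : Perm α := swap a b * swap a c
  have hτ : IsThreeCycle τ := isThreeCycle_swap_mul_swap_same hab hac hbc
  let ρ : Perm α := τ * τ
  have hρ : IsThreeCycle ρ := hτ.isThreeCycle_sq
  have hcs : ∀ u v : α, u ∉ g.support → v ∉ g.support → ∀ x, x ∉ g.support → swap u v x ∉ g.support := by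
    intro u v hu hv x hx h
    have h1 := hs u v hu hv _ h
    rw [swap_apply_self] at h1
    rw [← h1] at h
    exact hx h
  have hinv : ∀ (u : Perm α) (v v' : α), v ∉ g.support → v' ∉ g.support → (∀ d, d ∉ g.support → u d = swap v v' d) →
      ∀ d, d ∉ g.support → u⁻¹ d = swap v v' d := by
    intro u v v' hv hv' h d hd
    rw [Perm.inv_eq_iff_eq, h _ (hcs v v' hv hv' d hd), swap_apply_self]
  have hwd : ∀ d, d ∉ g.support → w d = ρ d := by
    intro d hd
    have d1 := hcs a c ha hc d hd
    have d2 := hcs a b ha hb _ d1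
    have d3 := hcs a c ha hc _ d2
    show ((z * y)⁻¹ * (y * z)) d = (swap a b * swap a c * (swap a b * swap a c)) d
    rw [mul_inv_rev]
    simp only [Perm.mul_apply]
    rw [hz1 d hd, hy1 _ d1, hinv z a c ha hc hz1 _ d2, hinv y a b ha hb hy1 _ d3]
  have hρs : ∀ x ∈ g.support, ρ x = x := by
    intro x hx
    show (swap a b * swap a c * (swap a b * swap a c)) x = x
    simp only [Perm.mul_apply]
    rw [hs a c ha hc x hx, hs a b ha hb x hx, hs a c ha hc x hx, hs a b ha hb x hx]
  have hρd : ∀ x, x ∉ g.support → ρ x ∉ g.support := by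
    intro x hx
    show (swap a b * swap a c * (swap a b * swap a c)) x ∉ g.support
    simp only [Perm.mul_apply]
    exact hcs a b ha hb _ (hcs a c ha hc _ (hcs a b ha hb _ (hcs a c ha hc _ hx)))
  have hpow : w ^ p = ρ ^ p := by
    ext x
    by_cases hx : x ∈ g.support
    · have e1 : ∀ k : ℕ, (ρ ^ k) x = x := by
        intro k
        induction k with
        | zero => rfl
        | succ k ih => rw [pow_succ', Perm.mul_apply, ih, hρs x hx]
      have hwx : g (w x) ≠ w x := by
        have h1 : g (w x) = w (g x) := by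
          rw [← Perm.mul_apply, ← Perm.mul_apply, hcomm.eq]
        rw [h1]
        intro h2
        exact (Perm.mem_support.1 hx) (w.injective h2)
      obtain ⟨i, hi⟩ := hgc.exists_zpow_eq (Perm.mem_support.1 hx) hwx
      have e2 : ∀ k : ℕ, (w ^ k) x = (g ^ (i * k)) x := by
        intro k
        induction k with
        | zero => simp
        | succ k ih =>
          rw [pow_succ', Perm.mul_apply, ih, ← Perm.mul_apply, (hcomm.zpow_right (i * k)).eq, Perm.mul_apply, ← hi,
            ← Perm.mul_apply, ← zpow_add]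
          push_cast
          rw [mul_add, mul_one]
      rw [e1, e2]
      have ho : g ^ p = 1 := by rw [← hgp, ← hgc.orderOf, pow_orderOf_eq_one]
      rw [mul_comm i (p : ℤ), zpow_mul, zpow_natCast, ho, one_zpow, Perm.one_apply]
    · have e3 : ∀ k : ℕ, (w ^ k) x = (ρ ^ k) x ∧ (ρ ^ k) x ∉ g.support := by
        intro k
        induction k with
        | zero => exact ⟨rfl, hx⟩
        | succ k ih =>
          rw [pow_succ', pow_succ', Perm.mul_apply, Perm.mul_apply, ih.1]
          exact ⟨hwd _ ih.2, hρd _ ih.2⟩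
      exact (e3 p).1
  have hρG : ρ ^ p ∈ G := by
    rw [← hpow]
    exact G.pow_mem hwG p
  have hfin : IsThreeCycle (ρ ^ p) := by
    have h1 := pow_mod_orderOf ρ p
    rw [hρ.orderOf] at h1
    have h2 : p % 3 = 1 ∨ p % 3 = 2 := by
      have h4 : ¬ 3 ∣ p := fun h => h3 ((Nat.prime_dvd_prime_iff_eq Nat.prime_three hp).1 h).symm
      omega
    rcases h2 with h2 | h2
    · rw [h2, pow_one] at h1
      rw [← h1]; exact hρ
    · rw [h2, pow_two] at h1
      rw [← h1]; exact hρ.isThreeCycle_sq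
  exact Equiv.Perm.alternatingGroup_le_of_isPreprimitive_of_isThreeCycle_mem hG hfin hρG

end Pool.Agent.AN

namespace Pool.Agent.PDA

open Equiv Equiv.Perm Finset

theorem jordan {α : Type*} [Fintype α] [DecidableEq α] {G : Subgroup (Perm α)}
    (hG : MulAction.IsPreprimitive G α) {p : ℕ} (hp : p.Prime) (hp' : p + 3 ≤ Nat.card α)
    {g : Perm α} (hgc : g.IsCycle) (hgp : g.support.card = p) (hg : g ∈ G) :
    alternatingGroup α ≤ G :=
  Pool.Agent.AN.jordan hG hp (by rwa [Nat.card_eq_fintype_card] at hp') hgc hgp hg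

end Pool.Agent.PDA
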