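import Mathlib

/-! A prime between `n / 2` and `n - 3` (helper87). The argument of Mathlib's Bertrand file with one
more factor `2 n`: the only prime between `m` and `2 m` could be `2 m - 1`. -/

set_option autoImplicit false

namespace Pool.Agent.PDA

section Real

open Real

private theorem real_ineq {x : ℝ} (x_large : (512 : ℝ) ≤ x) :
    (x * (2 * x)) * (2 * x) ^ √(2 * x) * 4 ^ (2 * x / 3) ≤ 4 ^ x := by
  let f : ℝ → ℝ := fun x => log x + (log (2 * x) + √(2 * x) * log (2 * x)) - log 4 / 3 * x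
  have hf' : ∀ x, 0 < x → 0 < (x * (2 * x)) * (2 * x) ^ √(2 * x) / 4 ^ (x / 3) := fun x h =>
    div_pos (mul_pos (mul_pos h (mul_pos two_pos h)) (rpow_pos_of_pos (mul_pos two_pos h) _))
      (rpow_pos_of_pos four_pos _)
  have hf : ∀ x, 0 < x → f x = log ((x * (2 * x)) * (2 * x) ^ √(2 * x) / 4 ^ (x / 3)) := by
    intro x h5
    have h6 := mul_pos (zero_lt_two' ℝ) h5
    have h7 := rpow_pos_of_pos h6 (√(2 * x))
    have h8 := mul_pos h5 h6
    rw [log_div (mul_pos h8 h7).ne' (rpow_pos_of_pos four_pos _).ne', log_mul h8.ne' h7.ne',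
      log_mul h5.ne' h6.ne', log_rpow h6, log_rpow zero_lt_four]
    simp only [f]
    ring
  have h5 : 0 < x := lt_of_lt_of_le (by norm_num1) x_large
  rw [← div_le_one (rpow_pos_of_pos four_pos x), ← div_div_eq_mul_div, ← rpow_sub four_pos, ←
    mul_div 2 x, mul_div_left_comm, ← mul_one_sub, (by norm_num1 : (1 : ℝ) - 2 / 3 = 1 / 3),
    mul_one_div, ← log_nonpos_iff (hf' x h5).le, ← hf x h5]
  have h : ConcaveOn ℝ (Set.Ioi 0.5) f := by
    apply ConcaveOn.sub
    · apply ConcaveOn.add
      · exact strictConcaveOn_log_Ioi.concaveOn.subset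
          (Set.Ioi_subset_Ioi (by norm_num)) (convex_Ioi 0.5)
      · apply ConcaveOn.add
        · have h1 : ConcaveOn ℝ (Set.Ioi 0.5) (fun x : ℝ => log x + log 2) :=
            (strictConcaveOn_log_Ioi.concaveOn.subset
              (Set.Ioi_subset_Ioi (by norm_num)) (convex_Ioi 0.5)).add_const _
          refine h1.congr fun y hy => ?_
          have hy0 : (0 : ℝ) < y := lt_trans (by norm_num) (Set.mem_Ioi.1 hy)
          simp only
          rw [log_mul (by norm_num) hy0.ne']
          ring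
        · convert!
            ((strictConcaveOn_sqrt_mul_log_Ioi.concaveOn.comp_linearMap
              ((2 : ℝ) • LinearMap.id)))
            using 1
          ext x
          simp only [Set.mem_Ioi, Set.mem_preimage, LinearMap.smul_apply,
            LinearMap.id_coe, id_eq, smul_eq_mul]
          rw [← mul_lt_mul_iff_right₀ (two_pos)]
          norm_num1
          rfl
    apply ConvexOn.smul
    · refine div_nonneg (log_nonneg (by norm_num1)) (by norm_num1)
    · exact convexOn_id (convex_Ioi (0.5 : ℝ))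
  suffices ∃ x1 x2, 0.5 < x1 ∧ x1 < x2 ∧ x2 ≤ x ∧ 0 ≤ f x1 ∧ f x2 ≤ 0 by
    obtain ⟨x1, x2, h1, h2, h0, h3, h4⟩ := this
    exact (h.right_le_of_le_left'' h1 ((h1.trans h2).trans_le h0) h2 h0 (h4.trans h3)).trans h4
  refine ⟨18, 512, by norm_num1, by norm_num1, x_large, ?_, ?_⟩
  · have : √(2 * 18 : ℝ) = 6 := (sqrt_eq_iff_mul_self_eq_of_pos (by norm_num1)).mpr (by norm_num1)
    rw [hf _ (by norm_num1), log_nonneg_iff (by positivity), this, one_le_div (by norm_num1)]
    norm_num1
  · have : √(2 * 512) = 32 :=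
      (sqrt_eq_iff_mul_self_eq_of_pos (by norm_num1)).mpr (by norm_num1)
    rw [hf _ (by norm_num1), log_nonpos_iff (hf' _ (by norm_num1)).le, this,
        div_le_one (by positivity)]
    have e1 : (512 : ℝ) * (2 * 512) * (2 * 512) ^ (32 : ℝ) = 2 ^ (339 : ℝ) := by
      rw [show (32 : ℝ) = ((32 : ℕ) : ℝ) by norm_num, show (339 : ℝ) = ((339 : ℕ) : ℝ) by norm_num,
        rpow_natCast, rpow_natCast]
      calc (512 : ℝ) * (2 * 512) * (2 * 512) ^ 32 = 2 ^ 9 * 2 ^ 10 * (2 ^ 10) ^ 32 := by norm_num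
        _ = 2 ^ 339 := by rw [← pow_mul, ← pow_add, ← pow_add]
    have e2 : (4 : ℝ) ^ (512 / 3 : ℝ) = 2 ^ (2 * (512 / 3) : ℝ) := by
      rw [show (4 : ℝ) = 2 ^ (2 : ℝ) by rw [rpow_two]; norm_num, ← rpow_mul (by norm_num)]
    rw [e1, e2]
    apply rpow_le_rpow_of_exponent_le (by norm_num)
    norm_num

end Real

open Nat

private theorem nat_ineq {n : ℕ} (n_large : 512 ≤ n) :
    (n * (2 * n)) * (2 * n) ^ sqrt (2 * n) * 4 ^ (2 * n / 3) ≤ 4 ^ n := by
  rw [← @cast_le ℝ]
  simp only [cast_mul, cast_pow, ← Real.rpow_natCast, cast_ofNat]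
  refine _root_.trans ?_ (real_ineq (by exact_mod_cast n_large))
  gcongr
  · have n2_pos : 0 < 2 * n := by positivity
    exact mod_cast n2_pos
  · exact_mod_cast Real.nat_sqrt_le_real_sqrt
  · norm_num1
  · exact cast_div_le.trans (by norm_cast)

private theorem centralBinom_le (n : ℕ) (n_large : 2 < n) (q : ℕ) (hq : n < q) (hq2 : q ≤ 2 * n)
    (no_prime : ∀ p : ℕ, p.Prime → n < p → p ≠ q → 2 * n < p) :
    centralBinom n ≤ (2 * n) * ((2 * n) ^ sqrt (2 * n) * 4 ^ (2 * n / 3)) := by
  have n_pos : 0 < n := (Nat.zero_le _).trans_lt n_large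
  have n2_pos : 1 ≤ 2 * n := mul_pos (zero_lt_two' ℕ) n_pos
  have hqr : q ∉ Finset.range (2 * n / 3 + 1) := by
    rw [Finset.mem_range]
    omega
  have hfac : centralBinom n = ∏ p ∈ insert q (Finset.range (2 * n / 3 + 1)),
      p ^ (centralBinom n).factorization p := by
    refine (Eq.trans ?_ n.prod_pow_factorization_centralBinom).symm
    apply Finset.prod_subset
    · intro x hx
      rw [Finset.mem_insert, Finset.mem_range] at hx
      rw [Finset.mem_range]
      omega
    intro x hx h2x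
    rw [Finset.mem_insert, not_or] at h2x
    obtain ⟨h1x, h2x⟩ := h2x
    rw [Finset.mem_range, Nat.lt_succ_iff] at hx h2x
    rw [not_le, div_lt_iff_lt_mul three_pos, mul_comm x] at h2x
    by_cases hp : x.Prime
    · by_cases hxn : n < x
      · exact absurd (no_prime x hp hxn h1x) (by omega)
      · rw [factorization_centralBinom_of_two_mul_self_lt_three_mul n_large (by omega) h2x,
          Nat.pow_zero]
    · rw [factorization_eq_zero_of_not_prime n.centralBinom hp, Nat.pow_zero]
  let S := {p ∈ Finset.range (2 * n / 3 + 1) | Nat.Prime p}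
  let f x := x ^ n.centralBinom.factorization x
  have : ∏ x ∈ S, f x = ∏ x ∈ Finset.range (2 * n / 3 + 1), f x := by
    refine Finset.prod_filter_of_ne fun p _ h => ?_
    contrapose h; dsimp only [f]
    rw [factorization_eq_zero_of_not_prime n.centralBinom h, _root_.pow_zero]
  rw [hfac, Finset.prod_insert hqr, ← this, ←
    Finset.prod_filter_mul_prod_filter_not S (· ≤ sqrt (2 * n))]
  apply mul_le_mul'
  · exact pow_factorization_choose_le (mul_pos two_pos n_pos)
  apply mul_le_mul'
  · refine (Finset.prod_le_prod' fun p _ => (?_ : f p ≤ 2 * n)).trans ?_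
    · exact pow_factorization_choose_le (mul_pos two_pos n_pos)
    have : (Finset.Icc 1 (sqrt (2 * n))).card = sqrt (2 * n) := by rw [card_Icc, Nat.add_sub_cancel]
    rw [Finset.prod_const]
    refine pow_right_mono₀ n2_pos ((Finset.card_le_card fun x hx => ?_).trans this.le)
    obtain ⟨h1, h2⟩ := Finset.mem_filter.1 hx
    exact Finset.mem_Icc.mpr ⟨(Finset.mem_filter.1 h1).2.one_lt.le, h2⟩
  · refine le_trans ?_ (primorial_le_four_pow (2 * n / 3))
    refine (Finset.prod_le_prod' fun p hp => (?_ : f p ≤ p)).trans ?_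
    · obtain ⟨h1, h2⟩ := Finset.mem_filter.1 hp
      refine (pow_right_mono₀ (Finset.mem_filter.1 h1).2.one_lt.le ?_).trans (pow_one p).le
      exact Nat.factorization_choose_le_one (sqrt_lt'.mp <| not_le.1 h2)
    refine Finset.prod_le_prod_of_subset_of_one_le' (Finset.filter_subset _ _) ?_
    exact fun p hp _ => (Finset.mem_filter.1 hp).2.one_lt.le

private theorem large (m : ℕ) (hm : 512 ≤ m) : ∃ p : ℕ, p.Prime ∧ m < p ∧ p + 3 ≤ 2 * m := by
  have no_prime : 4 ^ m < m * m.centralBinom :=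
    Nat.four_pow_lt_mul_centralBinom m (le_trans (by norm_num1) hm)
  by_contra hcon
  push Not at hcon
  have hle : m.centralBinom ≤ (2 * m) * ((2 * m) ^ sqrt (2 * m) * 4 ^ (2 * m / 3)) := by
    refine centralBinom_le m (by omega) (2 * m - 1) (by omega) (by omega) ?_
    intro p hp h1 h2
    have h3 := hcon p hp h1
    by_contra h4
    have h5 : p = 2 * m - 2 ∨ p = 2 * m := by omega
    have hev : Even p := by
      rcases h5 with h5 | h5
      · exact ⟨m - 1, by omega⟩
      · exact ⟨m, by omega⟩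
    have := hp.even_iff.1 hev
    omega
  have h2 : m * m.centralBinom ≤ 4 ^ m :=
    calc m * m.centralBinom ≤ m * ((2 * m) * ((2 * m) ^ sqrt (2 * m) * 4 ^ (2 * m / 3))) :=
          Nat.mul_le_mul_left _ hle
      _ = (m * (2 * m)) * (2 * m) ^ sqrt (2 * m) * 4 ^ (2 * m / 3) := by ring
      _ ≤ 4 ^ m := nat_ineq hm
  omega

/-- Between `n / 2` and `n - 3` there is a prime, for every `n ≥ 8`. -/
theorem prime_gap {n : ℕ} (hn : 8 ≤ n) : ∃ p : ℕ, p.Prime ∧ n < 2 * p ∧ p + 3 ≤ n := by
  by_cases hm : 1024 ≤ n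
  · obtain ⟨p, hp, h1, h2⟩ := large (n / 2) (by omega)
    exact ⟨p, hp, by omega, by omega⟩
  by_cases h1 : n < 10
  · exact ⟨5, by norm_num, by omega, by omega⟩
  by_cases h2 : n < 14
  · exact ⟨7, by norm_num, by omega, by omega⟩
  by_cases h3 : n < 22
  · exact ⟨11, by norm_num, by omega, by omega⟩
  by_cases h4 : n < 38
  · exact ⟨19, by norm_num, by omega, by omega⟩
  by_cases h5 : n < 62
  · exact ⟨31, by norm_num, by omega, by omega⟩
  by_cases h6 : n < 106
  · exact ⟨53, by norm_num, by omega, by omega⟩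
  by_cases h7 : n < 202
  · exact ⟨101, by norm_num, by omega, by omega⟩
  by_cases h8 : n < 394
  · exact ⟨197, by norm_num, by omega, by omega⟩
  by_cases h9 : n < 778
  · exact ⟨389, by norm_num, by omega, by omega⟩
  exact ⟨769, by norm_num, by omega, by omega⟩

end Pool.Agent.PDA
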