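import Pool.Agent.PDA.Defs

/-! The alternating group of degree six (helper14 for helper44). -/

set_option autoImplicit false

namespace Pool.Agent.PDA

open Equiv Equiv.Perm Finset Pointwise

/-- the elements used for `A_6` when the stabiliser contains a 5-cycle -/
def P6 (x : Perm (Fin 6)) : Prop := x.IsThreeCycle ∨ x.cycleType = {4, 2}

theorem P6.conj {x : Perm (Fin 6)} (h : P6 x) (t : Perm (Fin 6)) : P6 (t * x * t⁻¹) := by
  rcases h with h | h
  · left
    unfold Perm.IsThreeCycle at h ⊢
    rw [Perm.cycleType_conj]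
    exact h
  · right
    rw [Perm.cycleType_conj]
    exact h

/-- the even cycle types on six points -/
theorem types6 (g : Perm (Fin 6)) (hg : Perm.sign g = 1) :
    g.cycleType = 0 ∨ g.cycleType = {2, 2} ∨ g.cycleType = {3} ∨ g.cycleType = {3, 3} ∨
      g.cycleType = {4, 2} ∨ g.cycleType = {5} := by
  have hsum : g.cycleType.sum ≤ 6 := by
    rw [Perm.sum_cycleType]
    exact le_trans (Finset.card_le_univ _) (by simp)
  have h2 : ∀ n ∈ g.cycleType, 2 ≤ n := fun n hn => Perm.two_le_of_mem_cycleType hn
  have hs : (-1 : ℤˣ) ^ (g.cycleType.sum + Multiset.card g.cycleType) = 1 := by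
    rw [← Perm.sign_of_cycleType]
    exact hg
  generalize g.cycleType = m at *
  have hc : 2 * Multiset.card m ≤ m.sum := by
    have := Multiset.card_nsmul_le_sum (s := m) (a := 2) h2
    simpa [mul_comm] using this
  have hc3 : Multiset.card m ≤ 3 := by omega
  have hpar : Even (m.sum + Multiset.card m) := by
    by_contra hodd
    rw [Nat.not_even_iff_odd] at hodd
    rw [hodd.neg_one_pow] at hs
    exact absurd hs (by decide)
  interval_cases hcm : Multiset.card m
  · left
    exact Multiset.card_eq_zero.1 hcm
  · obtain ⟨a, rfl⟩ := Multiset.card_eq_one.1 hcm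
    have ha : 2 ≤ a := h2 a (by simp)
    simp only [Multiset.sum_singleton] at hsum hpar
    interval_cases a
    · exact absurd hpar (by decide)
    · simp
    · exact absurd hpar (by decide)
    · simp
    · exact absurd hpar (by decide)
  · obtain ⟨a, b, rfl⟩ := Multiset.card_eq_two.1 hcm
    have ha : 2 ≤ a := h2 a (by simp)
    have hb : 2 ≤ b := h2 b (by simp)
    simp only [Multiset.insert_eq_cons, Multiset.sum_cons, Multiset.sum_singleton] at hsum hpar
    have ha' : a ≤ 4 := by omega
    have hb' : b ≤ 4 := by omega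
    interval_cases a <;> interval_cases b <;>
      first
        | (exfalso; omega)
        | (exfalso; revert hpar; decide)
        | (right; left; rfl)
        | (right; right; right; left; rfl)
        | (right; right; right; right; left; rfl)
        | (right; right; right; right; left; exact Multiset.pair_comm 2 4)
  · obtain ⟨a, b, c, rfl⟩ := Multiset.card_eq_three.1 hcm
    have ha : 2 ≤ a := h2 a (by simp)
    have hb : 2 ≤ b := h2 b (by simp)
    have hc : 2 ≤ c := h2 c (by simp)
    simp only [Multiset.insert_eq_cons, Multiset.sum_cons, Multiset.sum_singleton] at hsum hpar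
    have e1 : a = 2 := by omega
    have e2 : b = 2 := by omega
    have e3 : c = 2 := by omega
    subst e1 e2 e3
    exact absurd hpar (by decide)

theorem transfer6 (g x0 y0 : Perm (Fin 6)) (h : g.cycleType = (x0 * y0).cycleType) (hx : P6 x0)
    (hy : P6 y0) : ∃ x y : Perm (Fin 6), P6 x ∧ P6 y ∧ g = x * y := by
  obtain ⟨t, ht⟩ := isConj_iff.1 (Perm.isConj_iff_cycleType_eq.2 h.symm)
  exact ⟨t * x0 * t⁻¹, t * y0 * t⁻¹, hx.conj t, hy.conj t, by rw [← ht]; group⟩

theorem three6 {x : Perm (Fin 6)} (h : x.support.card = 3) : P6 x :=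
  Or.inl (card_support_eq_three_iff.1 h)

theorem fourtwo6 {x : Perm (Fin 6)} (hs : Perm.sign x = 1) (h : x.support.card = 6)
    (h3 : x ^ 3 ≠ 1) : x.cycleType = {4, 2} := by
  have hsum := Perm.sum_cycleType x
  rcases types6 x hs with h1 | h1 | h1 | h1 | h1 | h1
  · rw [h1, h] at hsum; simp at hsum
  · rw [h1, h] at hsum; simp at hsum
  · rw [h1, h] at hsum; simp at hsum
  · exfalso
    apply h3
    rw [← orderOf_dvd_iff_pow_eq_one, ← Perm.lcm_cycleType, h1]
    decide
  · exact h1
  · rw [h1, h] at hsum; simp at hsum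

theorem threethree6 {x : Perm (Fin 6)} (hs : Perm.sign x = 1) (h : x.support.card = 6)
    (h3 : x ^ 3 = 1) : x.cycleType = {3, 3} := by
  have hsum := Perm.sum_cycleType x
  rcases types6 x hs with h1 | h1 | h1 | h1 | h1 | h1
  · rw [h1, h] at hsum; simp at hsum
  · rw [h1, h] at hsum; simp at hsum
  · rw [h1, h] at hsum; simp at hsum
  · exact h1
  · exfalso
    rw [← orderOf_dvd_iff_pow_eq_one, ← Perm.lcm_cycleType, h1] at h3
    revert h3
    decide
  · rw [h1, h] at hsum; simp at hsum

theorem six_prod (g : Perm (Fin 6)) (hg : Perm.sign g = 1) :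
    ∃ x y : Perm (Fin 6), P6 x ∧ P6 y ∧ g = x * y := by
  rcases types6 g hg with h1 | h1 | h1 | h1 | h1 | h1
  · have hg1 : g = 1 := Perm.cycleType_eq_zero.1 h1
    have h3 : P6 (swap 0 1 * swap 1 2 : Perm (Fin 6)) := three6 (by decide)
    have h3' : P6 ((swap 0 1 * swap 1 2 : Perm (Fin 6))⁻¹) := three6 (by decide)
    exact ⟨_, _, h3, h3', by rw [hg1]; group⟩
  · refine transfer6 g (swap 0 1 * swap 1 2) (swap 1 2 * swap 2 3) ?_ (three6 (by decide))
      (three6 (by decide))
    rw [h1]
    symm
    have hs : Perm.sign (swap 0 1 * swap 1 2 * (swap 1 2 * swap 2 3) : Perm (Fin 6)) = 1 := by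
      simp [Perm.sign_mul]
    have h4 : (swap 0 1 * swap 1 2 * (swap 1 2 * swap 2 3) : Perm (Fin 6)).support.card = 4 := by
      decide
    have hsum := Perm.sum_cycleType (swap 0 1 * swap 1 2 * (swap 1 2 * swap 2 3) : Perm (Fin 6))
    rw [h4] at hsum
    rcases types6 _ hs with h | h | h | h | h | h
    · rw [h] at hsum; simp at hsum
    · exact h
    · rw [h] at hsum; simp at hsum
    · rw [h] at hsum; simp at hsum
    · rw [h] at hsum; simp at hsum
    · rw [h] at hsum; simp at hsum
  · have h3 : g.IsThreeCycle := h1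
    refine ⟨g⁻¹, g⁻¹, Or.inl h3.inv, Or.inl h3.inv, ?_⟩
    have hp : g ^ 3 = 1 := by
      rw [← orderOf_dvd_iff_pow_eq_one, h3.orderOf]
    calc g = g ^ 3 * (g⁻¹ * g⁻¹) := by group
      _ = g⁻¹ * g⁻¹ := by rw [hp, one_mul]
  · refine transfer6 g (swap 0 1 * swap 1 2) (swap 3 4 * swap 4 5) ?_ (three6 (by decide))
      (three6 (by decide))
    rw [h1]
    symm
    refine threethree6 (by simp [Perm.sign_mul]) (by decide) (by decide)
  · refine transfer6 g (swap 1 3 * swap 3 2) (swap 0 2 * swap 2 1 * swap 1 3 * swap 4 5) ?_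
      (three6 (by decide)) (Or.inr (fourtwo6 (by simp [Perm.sign_mul])
        (by decide) (by decide)))
    rw [h1]
    symm
    refine fourtwo6 (by simp [Perm.sign_mul]) (by decide) (by decide)
  · refine transfer6 g (swap 0 1 * swap 1 2) (swap 2 3 * swap 3 4) ?_ (three6 (by decide))
      (three6 (by decide))
    rw [h1]
    symm
    have hs : Perm.sign (swap 0 1 * swap 1 2 * (swap 2 3 * swap 3 4) : Perm (Fin 6)) = 1 := by
      simp [Perm.sign_mul]
    have h4 : (swap 0 1 * swap 1 2 * (swap 2 3 * swap 3 4) : Perm (Fin 6)).support.card = 5 := by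
      decide
    have hsum := Perm.sum_cycleType (swap 0 1 * swap 1 2 * (swap 2 3 * swap 3 4) : Perm (Fin 6))
    rw [h4] at hsum
    rcases types6 _ hs with h | h | h | h | h | h
    · rw [h] at hsum; simp at hsum
    · rw [h] at hsum; simp at hsum
    · rw [h] at hsum; simp at hsum
    · rw [h] at hsum; simp at hsum
    · rw [h] at hsum; simp at hsum
    · exact h

/-- evaluation of a word at two functions -/
def evf (c f : Fin 6 → Fin 6) : List Bool → Fin 6 → Fin 6
  | [], i => i
  | b :: l, i => bif b then f (evf c f l i) else c (evf c f l i)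

/-- evaluation of a word at two permutations -/
def evg {G : Type*} [Group G] (c f : G) : List Bool → G
  | [] => 1
  | b :: l => (bif b then f else c) * evg c f l

theorem evg_apply (c f : Perm (Fin 6)) (l : List Bool) (i : Fin 6) :
    evg c f l i = evf c f l i := by
  induction l with
  | nil => rfl
  | cons b l ih =>
    cases b
    · simp [evg, evf, ih]
    · simp [evg, evf, ih]

theorem evg_mem {G : Type*} [Group G] (K : Subgroup G) (c f : G) (hc : c ∈ K) (hf : f ∈ K)
    (l : List Bool) : evg c f l ∈ K := by
  induction l with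
  | nil => exact K.one_mem
  | cons b l ih =>
    cases b
    · exact K.mul_mem hc ih
    · exact K.mul_mem hf ih

theorem evg_conj {G : Type*} [Group G] (t c f : G) (l : List Bool) :
    evg (t * c * t⁻¹) (t * f * t⁻¹) l = t * evg c f l * t⁻¹ := by
  induction l with
  | nil => simp [evg]
  | cons b l ih =>
    cases b
    · simp only [evg, ih, cond_false]; group
    · simp only [evg, ih, cond_true]; group

/-- the standard 5-cycle -/
def c0 (i : Fin 6) : Fin 6 :=
  match i with
  | 0 => 1 | 1 => 2 | 2 => 3 | 3 => 4 | 4 => 0 | 5 => 5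

/-- a function given by its table -/
def tab6 (a b c d e f i : Fin 6) : Fin 6 :=
  match i with
  | 0 => a | 1 => b | 2 => c | 3 => d | 4 => e | 5 => f

/-- number of moved points -/
def mv (g : Fin 6 → Fin 6) : ℕ :=
  (if g 0 ≠ 0 then 1 else 0) + (if g 1 ≠ 1 then 1 else 0) + (if g 2 ≠ 2 then 1 else 0) +
    (if g 3 ≠ 3 then 1 else 0) + (if g 4 ≠ 4 then 1 else 0) + (if g 5 ≠ 5 then 1 else 0)

/-- ten words -/
def wds : List (List Bool) :=
  [[false, false, true, false, true, false, true, true], [false, false, true],
    [false, false, false, true], [false, true, true, true],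
    [false, false, true, false, true, true],
    [false, false, false, false, true, true, false, true],
    [false, false, true, true, true, false, true, true],
    [false, false, true, false, true, true, true], [false, false, true, true, true, false, true],
    [false, false, false, true, true, false, false, true]]

/-- leaf test -/
def q6 (a b c d e f : Fin 6) : Bool :=
  f == 5 || f == a || f == b || f == c || f == d || f == e ||
    (!decide (∀ i, tab6 a b c d e f (tab6 a b c d e f (tab6 a b c d e f (tab6 a b c d e f i)))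
      = i)) ||
    decide (∀ i, tab6 a b c d e f (tab6 a b c d e f i) = i) ||
    wds.any (fun w => mv (evf c0 (tab6 a b c d e f) w) == 3)

/-- test, five values given -/
def q5 (a b c d e : Fin 6) : Bool :=
  e == 4 || e == a || e == b || e == c || e == d || decide (∀ f, q6 a b c d e f = true)

/-- test, four values given -/
def q4 (a b c d : Fin 6) : Bool :=
  d == 3 || d == a || d == b || d == c || decide (∀ e, q5 a b c d e = true)

/-- test, three values given -/
def q3 (a b c : Fin 6) : Bool :=
  c == 2 || c == a || c == b || decide (∀ d, q4 a b c d = true)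

/-- test, two values given -/
def q2 (a b : Fin 6) : Bool :=
  b == 1 || b == a || decide (∀ c, q3 a b c = true)

theorem key6 : ∀ a : Fin 6, a = 0 ∨ ∀ b : Fin 6, q2 a b = true := by
  decide

theorem mv_eq (g : Perm (Fin 6)) : g.support.card = mv g := by
  have h : g.support = Finset.univ.filter (fun i => g i ≠ i) := by
    ext i
    simp
  rw [h, Finset.card_filter, Fin.sum_univ_six]
  rfl

theorem tab6_eq (g : Fin 6 → Fin 6) : tab6 (g 0) (g 1) (g 2) (g 3) (g 4) (g 5) = g := by
  funext i
  fin_cases i <;> rfl

theorem key6' (c f : Perm (Fin 6)) (hc : ∀ i, c i = c0 i) (hf : f.cycleType = {4, 2}) :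
    ∃ w : List Bool, (evg c f w).support.card = 3 := by
  have hcard : f.support.card = 6 := by
    rw [← Perm.sum_cycleType, hf]; rfl
  have hne : ∀ i, f i ≠ i := by
    intro i
    have hu : f.support = Finset.univ := by
      apply Finset.eq_univ_of_card
      rw [hcard]; rfl
    have : i ∈ f.support := by rw [hu]; exact Finset.mem_univ i
    exact Perm.mem_support.1 this
  have h4 : f ^ 4 = 1 := by
    rw [← orderOf_dvd_iff_pow_eq_one, ← Perm.lcm_cycleType, hf]; decide
  have h2 : f ^ 2 ≠ 1 := by
    rw [Ne, ← orderOf_dvd_iff_pow_eq_one, ← Perm.lcm_cycleType, hf]; decide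
  have hinj : ∀ i j, i ≠ j → f i ≠ f j := fun i j hij h => hij (f.injective h)
  have hk := (key6 (f 0)).resolve_left (hne 0) (f 1)
  simp only [q2, Bool.or_eq_true, beq_iff_eq, decide_eq_true_eq, hne 1, false_or,
    hinj 1 0 (by decide)] at hk
  replace hk := hk (f 2)
  simp only [q3, Bool.or_eq_true, beq_iff_eq, decide_eq_true_eq, hne 2, false_or,
    hinj 2 0 (by decide), hinj 2 1 (by decide)] at hk
  replace hk := hk (f 3)
  simp only [q4, Bool.or_eq_true, beq_iff_eq, decide_eq_true_eq, hne 3, false_or,
    hinj 3 0 (by decide), hinj 3 1 (by decide), hinj 3 2 (by decide)] at hk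
  replace hk := hk (f 4)
  simp only [q5, Bool.or_eq_true, beq_iff_eq, decide_eq_true_eq, hne 4, false_or,
    hinj 4 0 (by decide), hinj 4 1 (by decide), hinj 4 2 (by decide), hinj 4 3 (by decide)] at hk
  replace hk := hk (f 5)
  simp only [q6, Bool.or_eq_true, beq_iff_eq, decide_eq_true_eq, hne 5, false_or,
    hinj 5 0 (by decide), hinj 5 1 (by decide), hinj 5 2 (by decide), hinj 5 3 (by decide),
    hinj 5 4 (by decide), tab6_eq, Bool.not_eq_true', decide_eq_false_iff_not] at hk
  have h4' : ∀ i, f (f (f (f i))) = i := by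
    intro i
    have : (f ^ 4) i = i := by rw [h4]; rfl
    simpa [pow_succ] using this
  rcases hk with (h | h) | h
  · exact absurd h4' h
  · exfalso
    apply h2
    ext i
    rw [pow_two, Perm.mul_apply, h i]
    rfl
  · rw [List.any_eq_true] at h
    obtain ⟨w, -, hw⟩ := h
    refine ⟨w, ?_⟩
    rw [mv_eq]
    have he : ⇑(evg c f w) = evf c0 f w := by
      funext i
      rw [evg_apply]
      have : (⇑c : Fin 6 → Fin 6) = c0 := funext hc
      rw [this]
    rw [he]
    simpa using hw

theorem six (K : Subgroup (Perm (Fin 6))) (hK : MulAction.IsPretransitive K (Fin 6))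
    (hA : K ≤ alternatingGroup (Fin 6)) (s : Perm (Fin 6)) (hs : s ∈ K) (h5 : 5 ∈ s.cycleType)
    (x : Perm (Fin 6)) (hx : x ∈ K) (hc : P6 x) : alternatingGroup (Fin 6) ≤ K := by
  have hs1 : Perm.sign s = 1 := Perm.mem_alternatingGroup.1 (hA hs)
  have hst : s.cycleType = {5} := by
    rcases types6 s hs1 with h | h | h | h | h | h
    · rw [h] at h5; simp at h5
    · rw [h] at h5; simp at h5
    · rw [h] at h5; simp at h5
    · rw [h] at h5; simp at h5
    · rw [h] at h5; simp at h5
    · exact h
  have hscyc : s.IsCycle := Perm.card_cycleType_eq_one.1 (by rw [hst]; rfl)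
  have hscard : s.support.card = 5 := by rw [← Perm.sum_cycleType, hst]; rfl
  -- the fixed point
  obtain ⟨p, hp⟩ : ∃ p, p ∉ s.support := by
    by_contra hcon
    push Not at hcon
    have : s.support = Finset.univ := Finset.eq_univ_of_forall hcon
    rw [this] at hscard
    simp at hscard
  have hpu : ∀ q, q ≠ p → q ∈ s.support := by
    intro q hq
    by_contra hcon
    have hsub : s.support ⊆ (Finset.univ.erase p).erase q := by
      intro z hz
      rw [Finset.mem_erase, Finset.mem_erase]
      exact ⟨fun h => hcon (h ▸ hz), fun h => hp (h ▸ hz), Finset.mem_univ z⟩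
    have h1 := Finset.card_le_card hsub
    rw [Finset.card_erase_of_mem (by simp [hq]), Finset.card_erase_of_mem (by simp)] at h1
    rw [hscard] at h1
    simp at h1
  have hprim : MulAction.IsPreprimitive K (Fin 6) := by
    refine MulAction.IsPreprimitive.of_isTrivialBlock_base p ?_
    intro B hpB hB
    have hsB : (⟨s, hs⟩ : K) • B = B := by
      refine hB.smul_eq_of_mem hpB ?_
      have : (⟨s, hs⟩ : K) • p = p := Perm.notMem_support.1 hp
      rw [this]
      exact hpB
    by_cases hq : ∃ q ∈ B, q ≠ p
    · right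
      obtain ⟨q, hqB, hqp⟩ := hq
      rw [Set.eq_univ_iff_forall]
      intro z
      by_cases hz : z = p
      · rw [hz]; exact hpB
      · obtain ⟨i, hi⟩ := hscyc.exists_pow_eq (Perm.mem_support.1 (hpu q hqp))
          (Perm.mem_support.1 (hpu z hz))
        have hstep : ∀ y ∈ B, s y ∈ B := by
          intro y hy
          have : (⟨s, hs⟩ : K) • y ∈ (⟨s, hs⟩ : K) • B := Set.smul_mem_smul_set hy
          rw [hsB] at this
          exact this
        have hall : ∀ k : ℕ, (s ^ k) q ∈ B := by
          intro k
          induction k with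
          | zero => simpa using hqB
          | succ k ih => rw [pow_succ', Perm.mul_apply]; exact hstep _ ih
        rw [← hi]
        exact hall i
    · left
      push Not at hq
      intro a ha b hb
      rw [hq a ha, hq b hb]
  -- a 3-cycle in the group
  have h3 : ∃ w ∈ K, w.support.card = 3 := by
    rcases hc with hc | hc
    · exact ⟨x, hx, card_support_eq_three_iff.2 hc⟩
    · have hc0 : ∃ c : Perm (Fin 6), (∀ i, c i = c0 i) ∧ c.cycleType = {5} := by
        refine ⟨swap 0 1 * swap 1 2 * (swap 2 3 * swap 3 4), by decide, ?_⟩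
        have hs : Perm.sign (swap 0 1 * swap 1 2 * (swap 2 3 * swap 3 4) : Perm (Fin 6)) = 1 := by
          simp [Perm.sign_mul]
        have h4 : (swap 0 1 * swap 1 2 * (swap 2 3 * swap 3 4) : Perm (Fin 6)).support.card
            = 5 := by
          decide
        have hsum := Perm.sum_cycleType
          (swap 0 1 * swap 1 2 * (swap 2 3 * swap 3 4) : Perm (Fin 6))
        rw [h4] at hsum
        rcases types6 _ hs with h | h | h | h | h | h
        · rw [h] at hsum; simp at hsum
        · rw [h] at hsum; simp at hsum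
        · rw [h] at hsum; simp at hsum
        · rw [h] at hsum; simp at hsum
        · rw [h] at hsum; simp at hsum
        · exact h
      obtain ⟨c, hcc, hct⟩ := hc0
      obtain ⟨t, ht⟩ := isConj_iff.1 (Perm.isConj_iff_cycleType_eq.2 (hst.trans hct.symm))
      have hxt : (t * x * t⁻¹).cycleType = {4, 2} := by rw [Perm.cycleType_conj]; exact hc
      obtain ⟨w, hw⟩ := key6' c (t * x * t⁻¹) hcc hxt
      refine ⟨evg s x w, evg_mem K s x hs hx w, ?_⟩
      rw [← ht, evg_conj, Perm.card_support_conj] at hw
      exact hw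
  obtain ⟨w, hwK, hw3⟩ := h3
  exact Perm.alternatingGroup_le_of_isPreprimitive_of_isThreeCycle_mem hprim
    (card_support_eq_three_iff.1 hw3) hwK

end Pool.Agent.PDA
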