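import Pool.Agent.PDA.Block
import Pool.Agent.PDA.Cyc
import Pool.Agent.PDA.FiveSeven
import Pool.Agent.PDA.Intr
import Pool.Agent.PDA.PrimeGap
import Pool.Agent.PDA.Six

/-! Assembly for `A_n`, all transitive actions (helper87). -/

set_option autoImplicit false

namespace Pool.Agent.PDA

open Equiv Equiv.Perm Finset

private theorem derang_of {n : ℕ} {Ω : Type*} [MulAction (alternatingGroup (Fin n)) Ω]
    [MulAction.IsPretransitive (alternatingGroup (Fin n)) Ω] (w : Ω) (P : Perm (Fin n) → Prop)
    (hP : ∀ h x : Perm (Fin n), P x → P (h * x * h⁻¹))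
    (hno : ∀ x : alternatingGroup (Fin n), x • w = w → ¬ P x)
    (x : alternatingGroup (Fin n)) (hx : P x) (z : Ω) : x • z ≠ z := by
  intro hz
  obtain ⟨h, rfl⟩ := MulAction.exists_smul_eq (alternatingGroup (Fin n)) w z
  refine hno (h⁻¹ * x * h) ?_ ?_
  · rw [mul_smul, mul_smul, hz, inv_smul_smul]
  · have := hP (h : Perm (Fin n))⁻¹ x hx
    rw [inv_inv] at this
    exact this

private theorem P6_conj (h x : Perm (Fin 6)) (hx : P6 x) : P6 (h * x * h⁻¹) := by
  rcases hx with hx | hx
  · left
    rw [IsThreeCycle, cycleType_conj]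
    exact hx
  · right
    rw [cycleType_conj]
    exact hx

private theorem P6_sign (x : Perm (Fin 6)) (hx : P6 x) : Perm.sign x = 1 := by
  rcases hx with hx | hx
  · exact hx.sign
  · rw [sign_of_cycleType, hx]
    decide

/-- the point stabiliser as a subgroup of the symmetric group -/
private def Kw {n : ℕ} {Ω : Type*} [MulAction (alternatingGroup (Fin n)) Ω] (w : Ω) :
    Subgroup (Perm (Fin n)) :=
  (MulAction.stabilizer (alternatingGroup (Fin n)) w).map (alternatingGroup (Fin n)).subtype

private theorem Kw_le {n : ℕ} {Ω : Type*} [MulAction (alternatingGroup (Fin n)) Ω] (w : Ω) :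
    Kw w ≤ alternatingGroup (Fin n) := by
  rintro x ⟨y, -, rfl⟩
  exact y.2

private theorem mem_Kw {n : ℕ} {Ω : Type*} [MulAction (alternatingGroup (Fin n)) Ω] (w : Ω)
    (x : alternatingGroup (Fin n)) : (x : Perm (Fin n)) ∈ Kw w ↔ x • w = w := by
  constructor
  · rintro ⟨y, hy, hxy⟩
    have : y = x := Subtype.ext hxy
    rw [← this]
    exact MulAction.mem_stabilizer_iff.1 hy
  · intro h
    exact ⟨x, MulAction.mem_stabilizer_iff.2 h, rfl⟩

private theorem not_alt_le {n : ℕ} {Ω : Type*} [MulAction (alternatingGroup (Fin n)) Ω]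
    [MulAction.IsPretransitive (alternatingGroup (Fin n)) Ω] [Nontrivial Ω] (w : Ω) :
    ¬ alternatingGroup (Fin n) ≤ Kw w := by
  intro h
  obtain ⟨z, hz⟩ := exists_ne w
  obtain ⟨x, hx⟩ := MulAction.exists_smul_eq (alternatingGroup (Fin n)) w z
  have := (mem_Kw w x).1 (h x.2)
  exact hz (hx.symm.trans this)

/-- every element of `A_n`, `n ≥ 5`, is a product of two derangements, for every transitive action
on a set with at least two points -/
theorem main {n : ℕ} (hn : 5 ≤ n) {Ω : Type*} [MulAction (alternatingGroup (Fin n)) Ω]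
    [MulAction.IsPretransitive (alternatingGroup (Fin n)) Ω] [Nontrivial Ω]
    (g : alternatingGroup (Fin n)) :
    ∃ x y : alternatingGroup (Fin n), (∀ z : Ω, x • z ≠ z) ∧ (∀ z : Ω, y • z ≠ z) ∧
      x * y = g := by
  obtain ⟨w⟩ : Nonempty Ω := inferInstance
  -- a general step: products of two elements with a property not met in the stabiliser
  have step : ∀ P : Perm (Fin n) → Prop, (∀ h x : Perm (Fin n), P x → P (h * x * h⁻¹)) →
      (∀ x : Perm (Fin n), x ∈ Kw w → P x → False) →
      (∃ x y : Perm (Fin n), Perm.sign x = 1 ∧ Perm.sign y = 1 ∧ P x ∧ P y ∧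
        (g : Perm (Fin n)) = x * y) →
      ∃ x y : alternatingGroup (Fin n), (∀ z : Ω, x • z ≠ z) ∧ (∀ z : Ω, y • z ≠ z) ∧
        x * y = g := by
    rintro P hP hno ⟨x, y, hsx, hsy, hx, hy, hg⟩
    have hno' : ∀ x : alternatingGroup (Fin n), x • w = w → ¬ P x :=
      fun x hx hPx => hno x ((mem_Kw w x).2 hx) hPx
    exact ⟨⟨x, mem_alternatingGroup.2 hsx⟩, ⟨y, mem_alternatingGroup.2 hsy⟩,
      derang_of w P hP hno' _ hx, derang_of w P hP hno' _ hy, Subtype.ext hg.symm⟩
  have hgs : Perm.sign (g : Perm (Fin n)) = 1 := mem_alternatingGroup.1 g.2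
  by_cases htr : MulAction.IsPretransitive (Kw (n := n) w) (Fin n)
  · by_cases h8 : 8 ≤ n
    · obtain ⟨p, hp, h1, h2⟩ := prime_gap h8
      refine step (fun x => p ∈ x.cycleType) (fun h x hx => by simpa only [cycleType_conj] using hx)
        (fun x hx hc => not_alt_le w (alt_le_of_transitive hp h1 h2 (Kw w) htr x hx hc)) ?_
      have hp3 : 3 ≤ p := by omega
      exact two_pcycles (hp.odd_of_ne_two (by omega)) hp3 (by omega) h1 g hgs
    have h567 : n = 5 ∨ n = 6 ∨ n = 7 := by omega
    rcases h567 with rfl | rfl | rfl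
    · refine step (fun x => 3 ∈ x.cycleType ∧ Perm.sign x = 1)
        (fun h x hx => by
          refine ⟨by simpa only [cycleType_conj] using hx.1, ?_⟩
          rw [map_mul, map_mul, hx.2, map_inv, mul_one, mul_inv_cancel])
        (fun x hx hc => not_alt_le w (five (Kw w) htr x hx hc.2 hc.1)) ?_
      obtain ⟨x, y, h1, h2, h3, h4, h5⟩ :=
        two_pcycles (n := 5) (p := 3) (by decide) (by norm_num) (by norm_num) (by norm_num)
          g hgs
      exact ⟨x, y, h1, h2, ⟨h3, h1⟩, ⟨h4, h2⟩, h5⟩
    · by_cases h5 : ∃ s ∈ Kw (n := 6) w, 5 ∈ s.cycleType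
      · obtain ⟨s, hs, hs5⟩ := h5
        refine step P6 P6_conj
          (fun x hx hc => not_alt_le w (six (Kw w) htr (Kw_le w) s hs hs5 x hx hc)) ?_
        obtain ⟨x, y, hx, hy, hxy⟩ := six_prod g hgs
        exact ⟨x, y, P6_sign x hx, P6_sign y hy, hx, hy, hxy⟩
      · push Not at h5
        refine step (fun x => 5 ∈ x.cycleType)
          (fun h x hx => by simpa only [cycleType_conj] using hx) (fun x hx hc => h5 x hx hc) ?_
        exact two_pcycles (n := 6) (p := 5) (by decide) (by norm_num) (by norm_num) (by norm_num)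
          g hgs
    · refine step (fun x => 5 ∈ x.cycleType)
        (fun h x hx => by simpa only [cycleType_conj] using hx)
        (fun x hx hc => not_alt_le w (seven (Kw w) htr (Kw_le w) x hx hc)) ?_
      exact two_pcycles (n := 7) (p := 5) (by decide) (by norm_num) (by norm_num) (by norm_num)
        g hgs
  · -- the stabiliser is not transitive: an orbit is an invariant proper subset
    classical
    obtain ⟨a⟩ : Nonempty (Fin n) := ⟨⟨0, by omega⟩⟩
    let S : Finset (Fin n) := univ.filter fun i => i ∈ MulAction.orbit (Kw (n := n) w) a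
    refine intr hn w S ⟨a, ?_⟩ ?_ ?_ g
    · simp [S]
    · intro hS
      apply htr
      rw [MulAction.isPretransitive_iff_base a]
      intro i
      have : i ∈ S := hS ▸ mem_univ i
      simpa [S, MulAction.mem_orbit_iff] using this
    · intro h hh i hi
      simp only [S, mem_filter, mem_univ, true_and] at hi ⊢
      obtain ⟨k, rfl⟩ := hi
      refine ⟨⟨(h : Perm (Fin n)), (mem_Kw w h).2 (MulAction.mem_stabilizer_iff.1 hh)⟩ * k, ?_⟩
      simp only [mul_smul]
      rfl

end Pool.Agent.PDA
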