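import Pool.Agent.PDA.Defs

/-!
# Even permutations are products of two long cycles (helper60)
-/

set_option autoImplicit false

namespace Pool.Agent.PDA

open Equiv Equiv.Perm Finset

variable {X : Type*} [DecidableEq X]

/-- `u` fixes the points outside `S`, and `S` is one cycle of `u` -/
def FullOn (u : Perm X) (S : Finset X) : Prop := (∀ x, x ∉ S → u x = x) ∧ ∀ x ∈ S, ∀ y ∈ S, u.SameCycle x y

theorem FullOn.inv {u : Perm X} {S : Finset X} (h : FullOn u S) : FullOn u⁻¹ S := by
  refine ⟨fun x hx => ?_, fun x hx y hy => ?_⟩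
  · rw [Perm.inv_eq_iff_eq]
    exact (h.1 x hx).symm
  · rw [sameCycle_inv]
    exact h.2 x hx y hy

theorem FullOn.of_inv {u : Perm X} {S : Finset X} (h : FullOn u⁻¹ S) : FullOn u S := by
  have := h.inv
  rwa [inv_inv] at this

theorem FullOn.conj {u t : Perm X} {S : Finset X} (h : FullOn u S) (ht : ∀ x, x ∉ S → t x = x) : FullOn (t * u * t⁻¹) S := by
  have h1 : ∀ x, x ∉ S → t⁻¹ x = x := by
    intro x hx
    rw [Perm.inv_eq_iff_eq]
    exact (ht x hx).symm
  have h2 : ∀ x ∈ S, t⁻¹ x ∈ S := by
    intro x hx
    by_contra hn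
    have h3 := ht _ hn
    have h4 : t (t⁻¹ x) = x := by rw [← Perm.mul_apply, mul_inv_cancel, Perm.one_apply]
    rw [h4] at h3
    rw [← h3] at hn
    exact hn hx
  refine ⟨fun x hx => ?_, fun x hx y hy => ?_⟩
  · rw [Perm.mul_apply, Perm.mul_apply, h1 x hx, h.1 x hx, ht x hx]
  · rw [sameCycle_conj]
    exact h.2 _ (h2 x hx) _ (h2 y hy)

/-- insertion of a new point -/
theorem FullOn.ins {u : Perm X} {S : Finset X} (h : FullOn u S) {a b : X} (ha : a ∉ S) (hb : b ∈ S) [Finite X] :
    FullOn (u * swap a b) (insert a S) := by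
  have hab : a ≠ b := by rintro rfl; exact ha hb
  have hua : u a = a := h.1 a ha
  have e1 : (u * swap a b) b = a := by rw [Perm.mul_apply, swap_apply_right, hua]
  have e2 : (u * swap a b) a = u b := by rw [Perm.mul_apply, swap_apply_left]
  have e3 : ∀ x, x ≠ a → x ≠ b → (u * swap a b) x = u x := by
    intro x hxa hxb
    rw [Perm.mul_apply, swap_apply_of_ne_of_ne hxa hxb]
  have key : ∀ i : ℕ, (u * swap a b).SameCycle b ((u ^ i) b) := by
    intro i
    induction i with
    | zero => rw [pow_zero]; exact SameCycle.refl _ _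
    | succ i ih =>
      rw [pow_succ', Perm.mul_apply]
      by_cases hb' : (u ^ i) b = b
      · rw [hb', ← e2]
        have h6 : (u * swap a b).SameCycle b ((u * swap a b) ((u * swap a b) b)) :=
          sameCycle_apply_right.2 (sameCycle_apply_right.2 (SameCycle.refl _ _))
        rwa [e1] at h6
      · have ha' : (u ^ i) b ≠ a := by
          intro hh
          have h5 : ∀ j : ℕ, (u ^ j) a = a := by
            intro j
            induction j with
            | zero => rfl
            | succ j ih => rw [pow_succ', Perm.mul_apply, ih, hua]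
          rw [← h5 i] at hh
          exact hab ((u ^ i).injective hh).symm
        rw [← e3 _ ha' hb']
        exact sameCycle_apply_right.2 ih
  have hS : ∀ x ∈ insert a S, (u * swap a b).SameCycle b x := by
    intro x hx
    rcases Finset.mem_insert.1 hx with rfl | hx
    · have := (sameCycle_apply_right (f := u * swap x b) (x := b) (y := b)).2 (SameCycle.refl _ _)
      rwa [e1] at this
    · obtain ⟨i, hi⟩ := (h.2 b hb x hx).exists_nat_pow_eq
      rw [← hi]
      exact key i
  refine ⟨fun x hx => ?_, fun x hx y hy => (hS x hx).symm.trans (hS y hy)⟩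
  have hxa : x ≠ a := by rintro rfl; exact hx (Finset.mem_insert_self _ _)
  have hxS : x ∉ S := fun hh => hx (Finset.mem_insert_of_mem hh)
  have hxb : x ≠ b := by rintro rfl; exact hxS hb
  rw [e3 x hxa hxb, h.1 x hxS]

theorem FullOn.ins_left {u : Perm X} {S : Finset X} (h : FullOn u S) {a b : X} (ha : a ∉ S) (hb : b ∈ S) [Finite X] :
    FullOn (swap a b * u) (insert a S) := by
  apply FullOn.of_inv
  rw [mul_inv_rev, swap_inv]
  exact h.inv.ins ha hb

theorem three_cyc {a b c : X} (hab : a ≠ b) (hbc : b ≠ c) (hac : a ≠ c) :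
    (swap a b * swap b c) * (swap a b * swap b c) = swap b c * swap a b := by
  ext x
  simp only [Perm.mul_apply, swap_apply_def]
  split_ifs <;> simp_all

theorem two_cyc {a b c : X} (hab : a ≠ b) (hbc : b ≠ c) (hac : a ≠ c) :
    swap a c * (swap a b * swap b c) = swap a b := by
  ext x
  simp only [Perm.mul_apply, swap_apply_def]
  split_ifs <;> simp_all

/-- **every even permutation of `S` is a product of two cycles of full length on `S`** -/
theorem t1' [Fintype X] (S : Finset X) (g : Perm X) (hS : ∀ x, x ∉ S → g x = x) (hg : sign g = 1) :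
    ∃ u v : Perm X, FullOn u S ∧ FullOn v S ∧ u * v = g := by
  induction' hn : S.card using Nat.strong_induction_on with n ih generalizing S g
  subst hn
  by_cases hfix : ∃ a ∈ S, g a = a
  · obtain ⟨a, ha, hga⟩ := hfix
    have hS' : ∀ x, x ∉ S.erase a → g x = x := by
      intro x hx
      by_cases hxa : x = a
      · rw [hxa, hga]
      · exact hS x (fun hh => hx (Finset.mem_erase.2 ⟨hxa, hh⟩))
    rcases (S.erase a).eq_empty_or_nonempty with he | ⟨b, hb⟩
    · have hSa : S = {a} := by
        rw [← Finset.insert_erase ha, he]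
        rfl
      refine ⟨1, 1, ?_, ?_, ?_⟩
      · refine ⟨fun _ _ => rfl, fun x hx y hy => ?_⟩
        rw [hSa, Finset.mem_singleton] at hx hy
        rw [hx, hy]
      · refine ⟨fun _ _ => rfl, fun x hx y hy => ?_⟩
        rw [hSa, Finset.mem_singleton] at hx hy
        rw [hx, hy]
      · rw [mul_one]
        ext x
        rw [Perm.one_apply, hS' x (by rw [he]; exact Finset.notMem_empty _)]
    · obtain ⟨u, v, hu, hv, huv⟩ := ih (S.erase a).card (Finset.card_erase_lt_of_mem ha) (S.erase a) g hS' hg rfl
      have ha' : a ∉ S.erase a := Finset.notMem_erase _ _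
      have h1 := hu.ins ha' hb
      have h2 := hv.ins_left ha' hb
      rw [Finset.insert_erase ha] at h1 h2
      refine ⟨_, _, h1, h2, ?_⟩
      rw [mul_assoc, ← mul_assoc (swap a b) (swap a b), swap_mul_self, one_mul, huv]
  · push Not at hfix
    rcases S.eq_empty_or_nonempty with he | ⟨a, ha⟩
    · refine ⟨1, 1, ?_, ?_, ?_⟩
      · refine ⟨fun _ _ => rfl, fun x hx => ?_⟩
        rw [he] at hx
        exact absurd hx (Finset.notMem_empty _)
      · refine ⟨fun _ _ => rfl, fun x hx => ?_⟩
        rw [he] at hx
        exact absurd hx (Finset.notMem_empty _)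
      · rw [mul_one]
        ext x
        rw [Perm.one_apply, hS x (by rw [he]; exact Finset.notMem_empty _)]
    have hmem : ∀ x ∈ S, g x ∈ S := by
      intro x hx
      by_contra hn
      have h1 := hS _ hn
      have h2 := g.injective h1
      exact hfix x hx h2
    set b := g a with hb
    have hbS : b ∈ S := hmem a ha
    have hab : a ≠ b := fun h => hfix a ha (hb ▸ h.symm)
    by_cases hca : g b = a
    · -- a two-cycle
      obtain ⟨c, hc, hca', hcb⟩ : ∃ c ∈ S, c ≠ a ∧ c ≠ b := by
        by_contra hcon
        push Not at hcon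
        have hgs : g = swap a b := by
          ext x
          by_cases hxa : x = a
          · rw [hxa, swap_apply_left]
          · by_cases hxb : x = b
            · rw [hxb, swap_apply_right, hca]
            · rw [swap_apply_of_ne_of_ne hxa hxb]
              apply hS
              intro hx
              exact hxb (hcon x hx hxa)
        rw [hgs, sign_swap hab] at hg
        exact absurd hg (by decide)
      have hS' : ∀ x, x ∉ S.erase a → ((swap a b * swap b c)⁻¹ * g) x = x := by
        intro x hx
        rw [Perm.mul_apply, Perm.inv_eq_iff_eq]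
        by_cases hxa : x = a
        · rw [hxa, Perm.mul_apply, swap_apply_of_ne_of_ne hab (Ne.symm hca'), swap_apply_left]
        · have hxS : x ∉ S := fun hh => hx (Finset.mem_erase.2 ⟨hxa, hh⟩)
          have hxb : x ≠ b := by rintro rfl; exact hxS hbS
          have hxc : x ≠ c := by rintro rfl; exact hxS hc
          rw [hS x hxS, Perm.mul_apply, swap_apply_of_ne_of_ne hxb hxc, swap_apply_of_ne_of_ne hxa hxb]
      have hg' : sign ((swap a b * swap b c)⁻¹ * g) = 1 := by
        rw [Perm.sign_mul, hg, sign_inv, Perm.sign_mul, sign_swap hab, sign_swap (Ne.symm hcb)]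
        decide
      obtain ⟨u, v, hu, hv, huv⟩ := ih (S.erase a).card (Finset.card_erase_lt_of_mem ha) (S.erase a) _ hS' hg' rfl
      have ha' : a ∉ S.erase a := Finset.notMem_erase _ _
      have hb' : b ∈ S.erase a := Finset.mem_erase.2 ⟨Ne.symm hab, hbS⟩
      have hc' : c ∈ S.erase a := Finset.mem_erase.2 ⟨hca', hc⟩
      have h1 := hu.ins ha' hb'
      have h2 := hv.ins_left ha' hc'
      rw [Finset.insert_erase ha] at h1 h2
      have h3 := h1.conj (t := swap a b * swap b c) (by
        intro x hxS
        have hxa : x ≠ a := by rintro rfl; exact hxS ha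
        have hxb : x ≠ b := by rintro rfl; exact hxS hbS
        have hxc : x ≠ c := by rintro rfl; exact hxS hc
        rw [Perm.mul_apply, swap_apply_of_ne_of_ne hxb hxc, swap_apply_of_ne_of_ne hxa hxb])
      refine ⟨_, _, h3, h2, ?_⟩
      have e9 : u * swap a b = u * (swap a c * (swap a b * swap b c)) := by rw [two_cyc hab (Ne.symm hcb) (Ne.symm hca')]
      rw [e9]
      have e : u * v = (swap a b * swap b c)⁻¹ * g := huv
      have e' : (swap a b * swap b c) * (u * v) = g := by rw [e, mul_inv_cancel_left]
      rw [← e']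
      have e4 : swap a c * swap a c = (1 : Perm X) := swap_mul_self _ _
      calc (swap a b * swap b c) * (u * (swap a c * (swap a b * swap b c))) * (swap a b * swap b c)⁻¹ * (swap a c * v)
          = (swap a b * swap b c) * u * (swap a c * ((swap a b * swap b c) * (swap a b * swap b c)⁻¹) * swap a c) * v := by
            simp only [mul_assoc]
        _ = (swap a b * swap b c) * (u * v) := by
            rw [mul_inv_cancel, mul_one, e4, mul_one, mul_assoc]
    · set c := g b with hc
      have hcS : c ∈ S := hmem b hbS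
      have hbc : b ≠ c := fun h => hfix b hbS (hc ▸ h.symm)
      have hac : a ≠ c := Ne.symm hca
      have hS' : ∀ x, x ∉ (S.erase a).erase b → ((swap a b * swap b c)⁻¹ * g) x = x := by
        intro x hx
        rw [Perm.mul_apply, Perm.inv_eq_iff_eq]
        by_cases hxa : x = a
        · rw [hxa, Perm.mul_apply, swap_apply_of_ne_of_ne hab hac, swap_apply_left]
        · by_cases hxb : x = b
          · rw [hxb, Perm.mul_apply, swap_apply_left, swap_apply_of_ne_of_ne hca (Ne.symm hbc)]
          · have hxS : x ∉ S := fun hh => hx (Finset.mem_erase.2 ⟨hxb, Finset.mem_erase.2 ⟨hxa, hh⟩⟩)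
            have hxc : x ≠ c := by rintro rfl; exact hxS hcS
            rw [hS x hxS, Perm.mul_apply, swap_apply_of_ne_of_ne hxb hxc, swap_apply_of_ne_of_ne hxa hxb]
      have hg' : sign ((swap a b * swap b c)⁻¹ * g) = 1 := by
        rw [Perm.sign_mul, hg, sign_inv, Perm.sign_mul, sign_swap hab, sign_swap hbc]
        decide
      have hb1 : b ∈ S.erase a := Finset.mem_erase.2 ⟨Ne.symm hab, hbS⟩
      obtain ⟨u, v, hu, hv, huv⟩ := ih ((S.erase a).erase b).card
        ((Finset.card_erase_lt_of_mem hb1).trans (Finset.card_erase_lt_of_mem ha)) _ _ hS' hg' rfl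
      have hb' : b ∉ (S.erase a).erase b := Finset.notMem_erase _ _
      have hc' : c ∈ (S.erase a).erase b := Finset.mem_erase.2 ⟨Ne.symm hbc, Finset.mem_erase.2 ⟨hca, hcS⟩⟩
      have ha' : a ∉ S.erase a := Finset.notMem_erase _ _
      have full : ∀ w : Perm X, FullOn w ((S.erase a).erase b) → FullOn (w * swap b c * swap a b) S := by
        intro w hw
        have h1 := hw.ins hb' hc'
        rw [Finset.insert_erase hb1] at h1
        have h2 := h1.ins ha' hb1
        rwa [Finset.insert_erase ha] at h2
      have ht : ∀ x, x ∉ S → (swap a b * swap b c) x = x := by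
        intro x hxS
        have hxa : x ≠ a := by rintro rfl; exact hxS ha
        have hxb : x ≠ b := by rintro rfl; exact hxS hbS
        have hxc : x ≠ c := by rintro rfl; exact hxS hcS
        rw [Perm.mul_apply, swap_apply_of_ne_of_ne hxb hxc, swap_apply_of_ne_of_ne hxa hxb]
      have ht' : ∀ x, x ∉ S → (swap a b * swap b c)⁻¹ x = x := by
        intro x hx
        rw [Perm.inv_eq_iff_eq]
        exact (ht x hx).symm
      have h1 := (full u hu).conj ht
      have h2 := (full v hv).conj ht'
      refine ⟨_, _, h1, h2, ?_⟩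
      have e : u * v = (swap a b * swap b c)⁻¹ * g := huv
      have e' : (swap a b * swap b c) * (u * v) = g := by rw [e, mul_inv_cancel_left]
      have e5 : (swap a b * swap b c)⁻¹ = swap b c * swap a b := by
        rw [mul_inv_rev, swap_inv, swap_inv]
      have e6 := three_cyc hab hbc hac
      rw [mul_assoc u, mul_assoc v, ← e5, ← e']
      rw [← e5] at e6
      set t := swap a b * swap b c with htd
      have e7 : t * (u * t⁻¹) * t⁻¹ * (t⁻¹ * (v * t⁻¹) * t⁻¹⁻¹) = t * u * (t⁻¹ * t⁻¹ * t⁻¹) * v * (t⁻¹ * t) := by
        rw [inv_inv]; simp only [mul_assoc]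
      have e8 : t⁻¹ * t⁻¹ * t⁻¹ = 1 := by
        nth_rewrite 1 [← e6]
        group
      rw [e7, e8, inv_mul_cancel, mul_one, mul_one, mul_assoc]

/-- the two notions agree -/
theorem FullOn.full {u : Perm X} {S : Finset X} (h : FullOn u S) : Full u S := by
  refine ⟨⟨⟨?_, u.injective.injOn, ?_⟩, ?_⟩, h.1⟩
  · intro x hx
    by_contra hn
    have h1 := u.injective (h.1 _ hn)
    rw [h1] at hn
    exact hn hx
  · intro y hy
    refine ⟨u⁻¹ y, ?_, ?_⟩
    · by_contra hn
      have h1 := h.1 _ hn
      have h4 : u (u⁻¹ y) = y := by rw [← Perm.mul_apply, mul_inv_cancel, Perm.one_apply]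
      rw [h4] at h1
      rw [← h1] at hn
      exact hn hy
    · rw [← Perm.mul_apply, mul_inv_cancel, Perm.one_apply]
  · intro x hx y hy
    exact h.2 x hx y hy

theorem Full.on {u : Perm X} {S : Finset X} (h : Full u S) : FullOn u S :=
  ⟨h.2, fun x hx y hy => h.1.2 hx hy⟩

theorem insert_right_of [Finite X] {u : Perm X} {A : Finset X} (h : Full u A) {a e : X} (ha : a ∈ A) (he : e ∉ A) :
    Full (u * swap a e) (insert e A) := by
  have := (h.on.ins he ha).full
  rwa [swap_comm] at this

theorem insert_left_of [Finite X] {u : Perm X} {A : Finset X} (h : Full u A) {a e : X} (ha : a ∈ A) (he : e ∉ A) :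
    Full (swap a e * u) (insert e A) := by
  have := (h.on.ins_left he ha).full
  rwa [swap_comm] at this

/-- T1 in the form of the skeleton -/
theorem t1_of [Fintype X] {M : Finset X} {g : Perm X} (hg : ∀ x, x ∉ M → g x = x) (hs : Perm.sign g = 1) :
    ∃ u v : Perm X, Full u M ∧ Full v M ∧ g = u * v := by
  obtain ⟨u, v, hu, hv, huv⟩ := t1' M g hg hs
  exact ⟨u, v, hu.full, hv.full, huv.symm⟩

end Pool.Agent.PDA
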